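import Pool.Agent.P.MP_9aa8f2_an.Norm

namespace Pool.Agent.P.MP_9aa8f2_an.WS

open MeasureTheory Filter Topology Set
open scoped RealInnerProductSpace

abbrev E (n : ℕ) := EuclideanSpace ℝ (Fin n)

variable {n : ℕ} {α γ : Type} [MetricSpace α] [MetricSpace γ]

/-- The Lipschitz norm of an element of `Lip0 p`. -/
noncomputable def ln {p : α} (f : Lip0 p) : ℝ := lipNorm (f : α → ℝ)

theorem ln_nonneg {p : α} (f : Lip0 p) : 0 ≤ ln f := lipNorm_nonneg f.2.1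

theorem abs_sub_le_ln {p : α} (f : Lip0 p) (a b : α) : |f.1 a - f.1 b| ≤ ln f * dist a b :=
  abs_sub_le_lipNorm f.2.1 a b

theorem ln_le {p : α} {f : Lip0 p} {K : ℝ} (hK : 0 ≤ K)
    (h : ∀ a b, |f.1 a - f.1 b| ≤ K * dist a b) : ln f ≤ K :=
  lipNorm_le hK fun a b => (le_abs_self _).trans (h a b)

theorem abs_le_ln {p : α} (f : Lip0 p) (a : α) : |f.1 a| ≤ ln f * dist a p := by
  have := abs_sub_le_ln f a p
  rwa [f.2.2, sub_zero] at this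

theorem ln_add {p : α} (f g : Lip0 p) : ln (f + g) ≤ ln f + ln g := (LS.core p).norm_triangle f g

theorem ln_smul {p : α} (c : ℝ) (f : Lip0 p) : ln (c • f) = |c| * ln f := (LS.core p).norm_smul c f

theorem ln_sub {p : α} (f g : Lip0 p) : ln (f - g) ≤ ln f + ln g := by
  have h := ln_add f ((-1 : ℝ) • g)
  have e : f - g = f + (-1 : ℝ) • g := by module
  rw [ln_smul] at h
  rw [e]
  simpa only [abs_neg, abs_one, one_mul] using h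

theorem lipschitzWith_ln {p : α} (f : Lip0 p) : LipschitzWith ⟨ln f, ln_nonneg f⟩ f.1 :=
  LipschitzWith.of_dist_le_mul fun a b => by rw [Real.dist_eq]; exact abs_sub_le_ln f a b

/-- Bounded functional. -/
def BddF {p : α} (β : Lip0 p →ₗ[ℝ] ℝ) : Prop := ∃ C, 0 ≤ C ∧ ∀ f, |β f| ≤ C * ln f

/-- Bounded operator. -/
def BddO {p : α} {q : γ} (U : Lip0 p →ₗ[ℝ] Lip0 q) : Prop :=
  ∃ C, 0 ≤ C ∧ ∀ f, ln (U f) ≤ C * ln f

/-- Bounded and pointwise null sequence. -/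
def Null {p : α} (h : ℕ → Lip0 p) : Prop :=
  (∃ L, ∀ k, ln (h k) ≤ L) ∧ ∀ a, Tendsto (fun k => (h k).1 a) atTop (𝓝 0)

/-- Bounded measurable functions. -/
def BM (n : ℕ) : Submodule ℝ (E n → ℝ) where
  carrier := {ψ | Measurable ψ ∧ ∃ C, ∀ y, |ψ y| ≤ C}
  add_mem' := by
    rintro f g ⟨hf, C, hC⟩ ⟨hg, D, hD⟩
    exact ⟨hf.add hg, C + D, fun y => (abs_add_le _ _).trans (add_le_add (hC y) (hD y))⟩
  zero_mem' := ⟨measurable_const, 0, fun _ => by simp⟩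
  smul_mem' := by
    rintro c f ⟨hf, C, hC⟩
    refine ⟨hf.const_smul c, |c| * C, fun y => ?_⟩
    rw [Pi.smul_apply, smul_eq_mul, abs_mul]
    exact mul_le_mul_of_nonneg_left (hC y) (abs_nonneg c)

/-- The constant one. -/
def oneB (n : ℕ) : BM n := ⟨fun _ => 1, measurable_const, 1, fun _ => by simp⟩

/-- Lipschitz cut-off functions with bounded support. -/
def Cut (χ : E n → ℝ) : Prop :=
  (∃ K : NNReal, LipschitzWith K χ) ∧ (∀ y, |χ y| ≤ 1) ∧ ∃ R, ∀ y, R ≤ ‖y‖ → χ y = 0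

/-- Constant outside a bounded set. -/
def CS (ι : α → E n) (f : α → ℝ) : Prop := ∃ R c : ℝ, ∀ a, R ≤ ‖ι a‖ → f a = c

/-- The countable family of cut-off functions. -/
noncomputable def tent (n : ℕ) (s : Finset (ℕ × ℕ)) (r : ℕ) (y : E n) : ℝ :=
  min 1 (r * ∑ a ∈ s, max 0 (1 / ((a.2 : ℝ) + 1) - dist y (TopologicalSpace.denseSeq (E n) a.1)))

theorem tent_cut (s : Finset (ℕ × ℕ)) (r : ℕ) : Cut (tent n s r) := by
  refine ⟨?_, fun y => ?_, ?_⟩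
  · have h : ∀ s : Finset (ℕ × ℕ), LipschitzWith s.card fun y : E n =>
        ∑ a ∈ s, max 0 (1 / ((a.2 : ℝ) + 1) - dist y (TopologicalSpace.denseSeq (E n) a.1)) := by
      classical
      intro s
      induction s using Finset.induction_on with
      | empty => simp
      | insert a s ha ih =>
        simp only [Finset.sum_insert ha, Finset.card_insert_of_notMem ha]
        have h1 : LipschitzWith 1 fun y : E n =>
            max 0 (1 / ((a.2 : ℝ) + 1) - dist y (TopologicalSpace.denseSeq (E n) a.1)) := by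
          refine LipschitzWith.const_max ?_ 0
          simpa using (LipschitzWith.const (1 / ((a.2 : ℝ) + 1))).sub
            (LipschitzWith.dist_left (TopologicalSpace.denseSeq (E n) a.1))
        have := h1.add ih
        rwa [add_comm (1 : NNReal), ← Nat.cast_succ] at this
    exact ⟨_, (((lipschitzWith_smul (r : ℝ)).comp (h s))).const_min 1⟩
  · rw [abs_le]
    refine ⟨?_, min_le_left _ _⟩
    refine le_min (by norm_num) ((by norm_num : (-1 : ℝ) ≤ 0).trans ?_)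
    exact mul_nonneg (Nat.cast_nonneg r) (Finset.sum_nonneg fun a _ => le_max_left _ _)
  · refine ⟨1 + ∑ a ∈ s, ‖TopologicalSpace.denseSeq (E n) a.1‖, fun y hy => ?_⟩
    have : ∑ a ∈ s, max 0 (1 / ((a.2 : ℝ) + 1) - dist y (TopologicalSpace.denseSeq (E n) a.1)) = 0 := by
      refine Finset.sum_eq_zero fun a ha => max_eq_left ?_
      have h1 : ‖TopologicalSpace.denseSeq (E n) a.1‖ ≤
          ∑ a ∈ s, ‖TopologicalSpace.denseSeq (E n) a.1‖ :=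
        Finset.single_le_sum (f := fun a : ℕ × ℕ => ‖TopologicalSpace.denseSeq (E n) a.1‖)
          (fun _ _ => norm_nonneg _) ha
      have h2 := norm_sub_norm_le y (TopologicalSpace.denseSeq (E n) a.1)
      have h3 : 1 / ((a.2 : ℝ) + 1) ≤ 1 := by
        rw [div_le_one (by positivity)]
        linarith [Nat.cast_nonneg (α := ℝ) a.2]
      rw [dist_eq_norm]
      linarith
    rw [tent, this]
    simp

/-- A cut-off function as a bounded measurable function. -/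
def Cut.bm {χ : E n → ℝ} (h : Cut χ) : BM n :=
  ⟨χ, by obtain ⟨K, hK⟩ := h.1; exact hK.continuous.measurable, 1, h.2.1⟩

theorem mul_bound {ι : α → E n} (hι : Isometry ι) {χ : E n → ℝ} (h : Cut χ) (p : α) :
    ∃ C, 0 ≤ C ∧ ∀ (f : Lip0 p) a b,
      |χ (ι a) * f.1 a - χ (ι b) * f.1 b| ≤ C * ln f * dist a b := by
  obtain ⟨⟨K, hK⟩, h1, R, hR⟩ := h
  have key : ∀ (f : Lip0 p) a b, ‖ι a‖ < R →
      |χ (ι a) * f.1 a - χ (ι b) * f.1 b| ≤ (1 + K * (|R| + ‖ι p‖)) * ln f * dist a b := by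
    intro f a b ha
    have e : χ (ι a) * f.1 a - χ (ι b) * f.1 b =
        χ (ι b) * (f.1 a - f.1 b) + (χ (ι a) - χ (ι b)) * f.1 a := by ring
    have h2 : |χ (ι a) - χ (ι b)| ≤ K * dist a b := by
      have := hK.dist_le_mul (ι a) (ι b)
      rwa [Real.dist_eq, hι.dist_eq] at this
    have h3 : dist a p ≤ |R| + ‖ι p‖ := by
      rw [← hι.dist_eq, dist_eq_norm]
      linarith [norm_sub_le (ι a) (ι p), le_abs_self R]
    have h4 : |f.1 a| ≤ ln f * (|R| + ‖ι p‖) :=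
      (abs_le_ln f a).trans (mul_le_mul_of_nonneg_left h3 (ln_nonneg f))
    have h5 := abs_sub_le_ln f a b
    rw [e]
    refine (abs_add_le _ _).trans ?_
    rw [abs_mul, abs_mul]
    have h6 : |χ (ι b)| * |f.1 a - f.1 b| ≤ 1 * (ln f * dist a b) :=
      mul_le_mul (h1 _) h5 (abs_nonneg _) zero_le_one
    have h7 : |χ (ι a) - χ (ι b)| * |f.1 a| ≤ K * dist a b * (ln f * (|R| + ‖ι p‖)) :=
      mul_le_mul h2 h4 (abs_nonneg _) (by positivity)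
    nlinarith
  refine ⟨1 + K * (|R| + ‖ι p‖), by positivity, fun f a b => ?_⟩
  by_cases ha : ‖ι a‖ < R
  · exact key f a b ha
  by_cases hb : ‖ι b‖ < R
  · rw [abs_sub_comm, dist_comm]; exact key f b a hb
  rw [hR _ (not_lt.1 ha), hR _ (not_lt.1 hb)]
  have := ln_nonneg f
  simp only [zero_mul, sub_zero, abs_zero]
  positivity

/-- Multiplication by a cut-off function. -/
def mulL {ι : α → E n} (hι : Isometry ι) {χ : E n → ℝ} (h : Cut χ) (p : α) :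
    Lip0 p →ₗ[ℝ] Lip0 p where
  toFun f := ⟨fun a => χ (ι a) * f.1 a, by
    obtain ⟨C, hC, hb⟩ := mul_bound hι h p
    exact lip_of_abs_le (mul_nonneg hC (ln_nonneg f)) (hb f), by
    show χ (ι p) * f.1 p = 0
    rw [f.2.2, mul_zero]⟩
  map_add' f g := Subtype.ext (funext fun a => by simp [mul_add])
  map_smul' c f := Subtype.ext (funext fun a => by simp; ring)

theorem mulL_apply {ι : α → E n} (hι : Isometry ι) {χ : E n → ℝ} (h : Cut χ) (p : α) (f : Lip0 p)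
    (a : α) : (mulL hι h p f).1 a = χ (ι a) * f.1 a := rfl

theorem mulL_bdd {ι : α → E n} (hι : Isometry ι) {χ : E n → ℝ} (h : Cut χ) (p : α) :
    BddO (mulL hι h p) := by
  obtain ⟨C, hC, hb⟩ := mul_bound hι h p
  exact ⟨C, hC, fun f => ln_le (mul_nonneg hC (ln_nonneg f)) (hb f)⟩

theorem res_bound {ι : α → E n} (hι : Isometry ι) (p : α) (F : Lip0 (0 : E n)) (a b : α) :
    |(F.1 (ι a) - F.1 (ι p)) - (F.1 (ι b) - F.1 (ι p))| ≤ ln F * dist a b := by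
  rw [sub_sub_sub_cancel_right, ← hι.dist_eq]
  exact abs_sub_le_ln F _ _

/-- Restriction along `ι`, normalised at the base point. -/
def resL {ι : α → E n} (hι : Isometry ι) (p : α) : Lip0 (0 : E n) →ₗ[ℝ] Lip0 p where
  toFun F := ⟨fun a => F.1 (ι a) - F.1 (ι p), lip_of_abs_le (ln_nonneg F) (res_bound hι p F),
    sub_self _⟩
  map_add' f g := Subtype.ext (funext fun a => by simp; ring)
  map_smul' c f := Subtype.ext (funext fun a => by simp; ring)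

theorem resL_apply {ι : α → E n} (hι : Isometry ι) (p : α) (F : Lip0 (0 : E n)) (a : α) :
    (resL hι p F).1 a = F.1 (ι a) - F.1 (ι p) := rfl

theorem ln_resL {ι : α → E n} (hι : Isometry ι) (p : α) (F : Lip0 (0 : E n)) :
    ln (resL hι p F) ≤ ln F := ln_le (ln_nonneg F) (res_bound hι p F)

open Classical in
/-- Normalisation of a Lipschitz function at the origin. -/
noncomputable def mk0 (F : E n → ℝ) : Lip0 (0 : E n) :=
  if h : ∃ K : NNReal, LipschitzWith K F then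
    ⟨fun y => F y - F 0, by
      obtain ⟨K, hK⟩ := h
      exact ⟨_, hK.sub (LipschitzWith.const _)⟩, sub_self _⟩
  else 0

theorem mk0_apply {F : E n → ℝ} (h : ∃ K : NNReal, LipschitzWith K F) (y : E n) :
    (mk0 F).1 y = F y - F 0 := by
  rw [mk0, dif_pos h]

theorem ln_mk0 {F : E n → ℝ} {K : NNReal} (h : LipschitzWith K F) : ln (mk0 F) ≤ K := by
  refine ln_le K.2 fun a b => ?_
  rw [mk0_apply ⟨K, h⟩, mk0_apply ⟨K, h⟩, sub_sub_sub_cancel_right, ← Real.dist_eq]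
  exact h.dist_le_mul a b

/-- Difference quotients. -/
noncomputable def dq (h : E n → ℝ) (x q : E n) (k : ℕ) : ℝ :=
  (h (x + (1 / ((k : ℝ) + 1)) • q) - h x) * ((k : ℝ) + 1)

theorem ulim_tendsto {β : Type} (U : Ultrafilter β) {φ : β → ℝ} {C : ℝ} (h : ∀ b, |φ b| ≤ C) :
    Tendsto φ U (𝓝 (limUnder (U : Filter β) φ)) := by
  have hc : IsCompact (Icc (-C) C) := isCompact_Icc
  obtain ⟨y, -, hy⟩ := hc.ultrafilter_le_nhds (U.map φ) (by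
    rw [Ultrafilter.coe_map, le_principal_iff, mem_map]
    exact univ_mem' fun b => abs_le.1 (h b))
  exact tendsto_nhds_limUnder ⟨y, hy⟩

theorem dq_bound (h : Lip0 (0 : E n)) (x q : E n) (k : ℕ) : |dq h.1 x q k| ≤ ln h * ‖q‖ := by
  have h1 := abs_sub_le_ln h (x + (1 / ((k : ℝ) + 1)) • q) x
  have hk : (0 : ℝ) < (k : ℝ) + 1 := by positivity
  rw [dist_eq_norm, add_sub_cancel_left, norm_smul, Real.norm_eq_abs,
    abs_of_pos (by positivity : (0 : ℝ) < 1 / ((k : ℝ) + 1))] at h1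
  rw [dq, abs_mul, abs_of_pos hk]
  calc _ ≤ ln h * (1 / ((k : ℝ) + 1) * ‖q‖) * ((k : ℝ) + 1) := mul_le_mul_of_nonneg_right h1 hk.le
    _ = ln h * ‖q‖ := by field_simp

/-- Generalised directional derivative at `x` in the direction `q`. -/
noncomputable def lam (x q : E n) : Lip0 (0 : E n) →ₗ[ℝ] ℝ where
  toFun h := limUnder (hyperfilter ℕ : Filter ℕ) (dq h.1 x q)
  map_add' f g := by
    refine tendsto_nhds_unique (ulim_tendsto _ (dq_bound (f + g) x q)) ?_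
    refine ((ulim_tendsto _ (dq_bound f x q)).add (ulim_tendsto _ (dq_bound g x q))).congr ?_
    intro k
    simp only [dq, Submodule.coe_add, Pi.add_apply]
    ring
  map_smul' c f := by
    refine tendsto_nhds_unique (ulim_tendsto _ (dq_bound (c • f) x q)) ?_
    refine ((ulim_tendsto _ (dq_bound f x q)).const_mul c).congr ?_
    intro k
    simp only [dq, Submodule.coe_smul, Pi.smul_apply, smul_eq_mul]
    ring

theorem lam_tendsto (x q : E n) (h : Lip0 (0 : E n)) :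
    Tendsto (dq h.1 x q) (hyperfilter ℕ : Filter ℕ) (𝓝 (lam x q h)) :=
  ulim_tendsto _ (dq_bound h x q)

theorem lam_bound (x q : E n) (h : Lip0 (0 : E n)) : |lam x q h| ≤ ln h * ‖q‖ :=
  le_of_tendsto' (lam_tendsto x q h).abs (dq_bound h x q)

theorem dq_tendsto {H : E n → ℝ} {x q : E n} {d : ℝ} (hd : HasLineDerivAt ℝ H d x q) :
    Tendsto (dq H x q) atTop (𝓝 d) := by
  have h1 := hd.tendsto_slope_zero_right
  have h2 : Tendsto (fun k : ℕ => 1 / ((k : ℝ) + 1)) atTop (𝓝[>] 0) :=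
    tendsto_nhdsWithin_iff.2 ⟨tendsto_one_div_add_atTop_nhds_zero_nat,
      Eventually.of_forall fun k => by simp only [mem_Ioi]; positivity⟩
  refine (h1.comp h2).congr fun k => ?_
  simp only [Function.comp, dq, smul_eq_mul, one_div, inv_inv]
  ring

/-- If the difference quotients agree eventually with those of a function with a line derivative,
the generalised derivative is that line derivative. -/
theorem lam_eq {h : Lip0 (0 : E n)} {H : E n → ℝ} {x q : E n} {d : ℝ}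
    (hd : HasLineDerivAt ℝ H d x q) (he : ∀ᶠ k in atTop, dq h.1 x q k = dq H x q k) :
    lam x q h = d := by
  refine tendsto_nhds_unique (lam_tendsto x q h) ?_
  have h1 : Tendsto (dq h.1 x q) atTop (𝓝 d) := (dq_tendsto hd).congr' (he.mono fun _ e => e.symm)
  exact h1.mono_left (Nat.hyperfilter_le_atTop)

/-- Bump functions. -/
structure Bump (n : ℕ) where
  f : E n → ℝ
  K : NNReal
  R : ℝ
  cd : ContDiff ℝ 1 f
  lip : LipschitzWith K f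
  bd : ∀ y, |f y| ≤ 1
  supp : ∀ y, R ≤ ‖y‖ → f y = 0

/-- Localised ridge functions. -/
noncomputable def Wf (p : E n) (t : ℝ) (N : ℕ) (ζ : Bump n) (y : E n) : ℝ :=
  Real.arctan (((N : ℝ) + 1) * (⟪p, y⟫ - t)) / ((N : ℝ) + 1) * ζ.f y

noncomputable def W (p : E n) (t : ℝ) (N : ℕ) (ζ : Bump n) : Lip0 (0 : E n) := mk0 (Wf p t N ζ)

/-- Coordinate vectors. -/
noncomputable def ev (l : Fin n) : E n := EuclideanSpace.single l 1

/-- The finite set of directions used in the proof. -/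
def Pn (n : ℕ) : Set (E n) := {p | ∃ i j, p = ev i ∨ p = ev i + ev j ∨ p = ev i - ev j}

/-- Projection to the first two coordinates. -/
noncomputable def pr {k : ℕ} (y : E (k + 2)) : E 2 := !₂[y 0, y 1]

theorem norm_ev (l : Fin n) : ‖ev l‖ = 1 := by simp [ev]

theorem ev_apply (l j : Fin n) : ev l j = if j = l then 1 else 0 := by
  simp [ev]

theorem inner_ev (p : E n) (l : Fin n) : ⟪p, ev l⟫ = p l := by
  simp [ev, EuclideanSpace.inner_single_right]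

theorem sum_ev (q : E n) : ∑ l, q l • ev l = q := by
  ext j
  simp [ev_apply, Finset.sum_apply]

theorem Pn_countable : (Pn n).Countable := by
  have : Pn n ⊆ range (fun a : Fin n × Fin n × Fin 3 =>
      if a.2.2 = 0 then ev a.1 else if a.2.2 = 1 then ev a.1 + ev a.2.1 else ev a.1 - ev a.2.1) := by
    rintro p ⟨i, j, h | h | h⟩
    · exact ⟨(i, j, 0), by simp [h]⟩
    · exact ⟨(i, j, 1), by simp [h]⟩
    · exact ⟨(i, j, 2), by simp [h]⟩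
  exact (countable_range _).mono this

theorem resL_id (F : Lip0 (0 : E n)) : resL isometry_id (0 : E n) F = F :=
  Subtype.ext (funext fun a => by rw [resL_apply, id, id, F.2.2, sub_zero])

theorem resL_bdd {ι : α → E n} (hι : Isometry ι) (p : α) : BddO (resL hι p) :=
  ⟨1, zero_le_one, fun F => by rw [one_mul]; exact ln_resL hι p F⟩

theorem BddO.comp {δ : Type} [MetricSpace δ] {p : α} {q : γ} {r : δ} {U : Lip0 q →ₗ[ℝ] Lip0 r}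
    {V : Lip0 p →ₗ[ℝ] Lip0 q} (hU : BddO U) (hV : BddO V) : BddO (U ∘ₗ V) := by
  obtain ⟨C, hC, h⟩ := hU
  obtain ⟨D, hD, h'⟩ := hV
  refine ⟨C * D, mul_nonneg hC hD, fun f => (h _).trans ?_⟩
  rw [mul_assoc]
  exact mul_le_mul_of_nonneg_left (h' f) hC

theorem BddF.comp {p : α} {q : γ} {β : Lip0 q →ₗ[ℝ] ℝ} {V : Lip0 p →ₗ[ℝ] Lip0 q} (hβ : BddF β)
    (hV : BddO V) : BddF (β ∘ₗ V) := by
  obtain ⟨C, hC, h⟩ := hβ
  obtain ⟨D, hD, h'⟩ := hV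
  refine ⟨C * D, mul_nonneg hC hD, fun f => (h _).trans ?_⟩
  rw [mul_assoc]
  exact mul_le_mul_of_nonneg_left (h' f) hC

theorem lam_bdd (x q : E n) : BddF (lam x q) :=
  ⟨‖q‖, norm_nonneg q, fun h => by rw [mul_comm]; exact lam_bound x q h⟩

theorem lam_congr {g h : Lip0 (0 : E n)} {x q : E n}
    (he : ∀ᶠ k in atTop, dq g.1 x q k = dq h.1 x q k) : lam x q g = lam x q h :=
  tendsto_nhds_unique (lam_tendsto x q g)
    ((lam_tendsto x q h).congr' ((he.mono fun _ e => e.symm).filter_mono Nat.hyperfilter_le_atTop))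

theorem lam_of_diff {h : Lip0 (0 : E n)} {x : E n} (hd : DifferentiableAt ℝ h.1 x) (q : E n) :
    lam x q h = fderiv ℝ h.1 x q :=
  lam_eq (hd.hasFDerivAt.hasLineDerivAt q) (Eventually.of_forall fun _ => rfl)

theorem ae_diff (h : Lip0 (0 : E n)) : ∀ᵐ x, DifferentiableAt ℝ h.1 x :=
  (lipschitzWith_ln h).ae_differentiableAt

theorem lam_aemeas (h : Lip0 (0 : E n)) (q : E n) :
    AEStronglyMeasurable (fun x => lam x q h) volume :=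
  (measurable_fderiv_apply_const ℝ h.1 q).aestronglyMeasurable.congr
    ((ae_diff h).mono fun _ hx => (lam_of_diff hx q).symm)

theorem fderiv_le_ln (F : Lip0 (0 : E n)) (y v : E n) : |fderiv ℝ F.1 y v| ≤ ln F * ‖v‖ :=
  ((fderiv ℝ F.1 y).le_opNorm v).trans (mul_le_mul_of_nonneg_right
    (norm_fderiv_le_of_lipschitz ℝ (lipschitzWith_ln F)) (norm_nonneg v))

theorem BM.integrable (ψ : BM n) (ν : Measure (E n)) [IsFiniteMeasure ν] : Integrable ψ.1 ν := by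
  obtain ⟨hm, C, hC⟩ := ψ.2
  exact (integrable_const C).mono' hm.aestronglyMeasurable (Eventually.of_forall hC)

theorem Null.mul {ι : α → E n} (hι : Isometry ι) {χ : E n → ℝ} (hχ : Cut χ) {p : α}
    {h : ℕ → Lip0 p} (hh : Null h) : Null fun k => mulL hι hχ p (h k) := by
  obtain ⟨C, hC, hb⟩ := mulL_bdd hι hχ p
  obtain ⟨⟨L, hL⟩, h0⟩ := hh
  refine ⟨⟨C * L, fun k => (hb _).trans (mul_le_mul_of_nonneg_left (hL k) hC)⟩, fun a => ?_⟩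
  simpa [mulL_apply] using (h0 a).const_mul (χ (ι a))

theorem cs_mul {ι : α → E n} (hι : Isometry ι) {χ : E n → ℝ} (hχ : Cut χ) {p : α} (f : Lip0 p) :
    CS ι (mulL hι hχ p f).1 := by
  obtain ⟨R, hR⟩ := hχ.2.2
  exact ⟨R, 0, fun a ha => by rw [mulL_apply, hR _ ha, zero_mul]⟩

theorem CS.res {ι : α → E n} (hι : Isometry ι) (p : α) {F : Lip0 (0 : E n)} (h : CS id F.1) :
    CS ι (resL hι p F).1 := by
  obtain ⟨R, c, hR⟩ := h
  exact ⟨R, c - F.1 (ι p), fun a ha => by rw [resL_apply, hR (ι a) ha]⟩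

theorem convex_ln {p : α} (L : ℝ) : Convex ℝ {f : Lip0 p | ln f ≤ L} := by
  intro f hf g hg a b ha hb hab
  have h := ln_add (a • f) (b • g)
  rw [ln_smul, ln_smul, abs_of_nonneg ha, abs_of_nonneg hb] at h
  simp only [mem_ofPred_eq] at hf hg ⊢
  calc _ ≤ a * L + b * L := h.trans
        (add_le_add (mul_le_mul_of_nonneg_left hf ha) (mul_le_mul_of_nonneg_left hg hb))
    _ = L := by rw [← add_mul, hab, one_mul]

/-- Convex combinations of tails of a null sequence form a null sequence. -/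
theorem Null.hull {V : Type} [AddCommGroup V] [Module ℝ V] {p : α} (U : V →ₗ[ℝ] Lip0 p)
    {t t' : ℕ → V} (h : Null fun k => U (t k)) (ht : ∀ k, t' k ∈ convexHull ℝ (t '' Ici k)) :
    Null fun k => U (t' k) := by
  obtain ⟨⟨L, hL⟩, h0⟩ := h
  refine ⟨⟨L, fun k => ?_⟩, fun a => ?_⟩
  · refine convexHull_min (t := U ⁻¹' {f | ln f ≤ L}) ?_ ((convex_ln L).linear_preimage U) (ht k)
    rintro _ ⟨i, -, rfl⟩
    exact hL i
  · rw [Metric.tendsto_atTop]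
    intro ε hε
    obtain ⟨N, hN⟩ := Metric.tendsto_atTop.1 (h0 a) ε hε
    refine ⟨N, fun k hk => ?_⟩
    let ea : V →ₗ[ℝ] ℝ := (LinearMap.proj a ∘ₗ (Lip0 p).subtype) ∘ₗ U
    refine convexHull_min (t := ea ⁻¹' Metric.ball 0 ε) ?_
      ((convex_ball (0 : ℝ) ε).linear_preimage ea) (ht k)
    rintro _ ⟨i, hi, rfl⟩
    exact hN i (hk.trans hi)

/-- Iterated limit. -/
def IL (a : ℕ → ℕ → ℝ) (c : ℝ) : Prop :=
  ∃ b : ℕ → ℝ, (∀ i, Tendsto (a i) atTop (𝓝 (b i))) ∧ Tendsto b atTop (𝓝 c)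

theorem IL.unique {a : ℕ → ℕ → ℝ} {c d : ℝ} (h : IL a c) (h' : IL a d) : c = d := by
  obtain ⟨b, h1, h2⟩ := h
  obtain ⟨b', h3, h4⟩ := h'
  have : b = b' := funext fun i => tendsto_nhds_unique (h1 i) (h3 i)
  subst this
  exact tendsto_nhds_unique h2 h4

theorem IL.const {a : ℕ → ℕ → ℝ} {c : ℝ} (h : ∀ i, Tendsto (a i) atTop (𝓝 c)) : IL a c :=
  ⟨fun _ => c, h, tendsto_const_nhds⟩

theorem IL.sum {J : Type} [Fintype J] {a : J → ℕ → ℕ → ℝ} {c : J → ℝ} (h : ∀ j, IL (a j) (c j))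
    (q : J → ℝ) : IL (fun i N => ∑ j, q j * a j i N) (∑ j, q j * c j) := by
  choose b h1 h2 using h
  exact ⟨fun i => ∑ j, q j * b j i,
    fun i => tendsto_finsetSum _ fun j _ => (h1 j i).const_mul _,
    tendsto_finsetSum _ fun j _ => (h2 j).const_mul _⟩

theorem IL.abs_le {a : ℕ → ℕ → ℝ} {c C : ℝ} (h : IL a c) (hb : ∀ i, ∀ᶠ N in atTop, |a i N| ≤ C) :
    |c| ≤ C := by
  obtain ⟨b, h1, h2⟩ := h
  exact le_of_tendsto' h2.abs fun i => le_of_tendsto (h1 i).abs (hb i)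

end Pool.Agent.P.MP_9aa8f2_an.WS

namespace Pool.Agent.P.MP_9aa8f2_an.WS

open MeasureTheory Filter Topology Set
open scoped RealInnerProductSpace

/-- The de Leeuw compactification of pairs of points. -/
structure UFM {n : ℕ} {α : Type} [MetricSpace α] {ι : α → E n} (hι : Isometry ι) (p : α) where
  K : Type
  [top : TopologicalSpace K]
  [cpt : CompactSpace K]
  [sep : T2Space K]
  [ms : MeasurableSpace K]
  [bor : BorelSpace K]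
  Φ : Lip0 p →ₗ[ℝ] C(K, ℝ)
  Dg : Set K
  Far : Set K
  mDg : MeasurableSet Dg
  mFar : MeasurableSet Far
  disj : Disjoint Dg Far
  m : K → E n
  dir : K → E n
  mm : Measurable m
  mdir : Measurable dir
  dirb : ∀ ξ, ‖dir ξ‖ ≤ 1
  mcl : ∀ ξ ∈ Dg, m ξ ∈ closure (range ι)
  f1 : ∀ f ξ, |Φ f ξ| ≤ ln f
  f1' : ∀ f c, (∀ ξ, Φ f ξ ≤ c) → ln f ≤ c
  f2 : ∀ ξ ∈ Dg, ∀ F : Lip0 (0 : E n), ContDiff ℝ 1 F.1 →
    Φ (resL hι p F) ξ = fderiv ℝ F.1 (m ξ) (dir ξ)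
  f3 : ∀ ξ, ξ ∉ Dg → ξ ∉ Far → ∀ h : ℕ → Lip0 p, Null h →
    Tendsto (fun k => Φ (h k) ξ) atTop (𝓝 0)
  f4 : ∀ ξ ∈ Far, ∀ f : Lip0 p, CS ι f.1 → Φ f ξ = 0
  f5 : ∀ ξ ∈ Dg, ∀ (χ : E n → ℝ) (hχ : Cut χ) (h : ℕ → Lip0 p), Null h →
    Tendsto (fun k => Φ (mulL hι hχ p (h k)) ξ - χ (m ξ) * Φ (h k) ξ) atTop (𝓝 0)

def S_UF : Prop :=
  ∀ (n : ℕ) (α : Type) [MetricSpace α] (ι : α → E n) (hι : Isometry ι) (p : α),
    Nonempty (UFM hι p)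

def S_RZ : Prop :=
  ∀ (K : Type) [TopologicalSpace K] [CompactSpace K] [T2Space K] [MeasurableSpace K] [BorelSpace K]
    (V : Type) [AddCommGroup V] [Module ℝ V] (Φ : V →ₗ[ℝ] C(K, ℝ)) (β : V →ₗ[ℝ] ℝ) (C : ℝ),
    0 ≤ C → (∀ f c, (∀ ξ, Φ f ξ ≤ c) → β f ≤ C * c) →
    ∃ μ : Measure K, IsFiniteMeasure μ ∧ ∀ f, β f = ∫ ξ, Φ f ξ ∂μ

def S_COND : Prop :=
  ∀ (n : ℕ) (Ω : Type) [MeasurableSpace Ω] (ρ : Measure Ω) [IsFiniteMeasure ρ] (m : Ω → E n)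
    (ν : Measure (E n)) [IsFiniteMeasure ν] (φ : Ω → ℝ), Measurable m → ρ.map m ≤ ν →
    Measurable φ → (∀ ω, |φ ω| ≤ 1) →
    ∃ g : E n → ℝ, Measurable g ∧ (∀ y, |g y| ≤ 1) ∧
      ∀ ψ : BM n, ∫ ω, ψ.1 (m ω) * φ ω ∂ρ = ∫ y, ψ.1 y * g y ∂ν

/-- The diagonal part of finitely many bounded functionals. -/
structure Der {n : ℕ} {α : Type} [MetricSpace α] {ι : α → E n} (hι : Isometry ι) {p : α}
    {J : Type} (β : J → Lip0 p →ₗ[ℝ] ℝ) where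
  ν : Measure (E n)
  fin : IsFiniteMeasure ν
  V : J → Fin n → E n → ℝ
  Vm : ∀ j l, Measurable (V j l)
  Vb : ∀ j l y, |V j l y| ≤ 1
  Λ : J → BM n →ₗ[ℝ] Lip0 p →ₗ[ℝ] ℝ
  far : J → Lip0 p →ₗ[ℝ] ℝ
  supp : ∀ᵐ y ∂ν, y ∈ closure (range ι)
  bd : ∀ j ψ f, |Λ j ψ f| ≤ ln f * ∫ y, |ψ.1 y| ∂ν
  sm : ∀ j ψ (F : Lip0 (0 : E n)), ContDiff ℝ 1 F.1 →
    Λ j ψ (resL hι p F) = ∫ y, ψ.1 y * ∑ l, V j l y * fderiv ℝ F.1 y (ev l) ∂ν
  cut : ∀ j (χ : E n → ℝ) (hχ : Cut χ) (h : ℕ → Lip0 p), Null h →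
    Tendsto (fun k => β j (mulL hι hχ p (h k)) - Λ j hχ.bm (h k)) atTop (𝓝 0)
  tot : ∀ j (h : ℕ → Lip0 p), Null h →
    Tendsto (fun k => β j (h k) - Λ j (oneB n) (h k) - far j (h k)) atTop (𝓝 0)
  farb : ∀ j, BddF (far j)
  farc : ∀ j (f : Lip0 p), CS ι f.1 → far j f = 0

def S_DER : Prop :=
  ∀ (n : ℕ) (α : Type) [MetricSpace α] (ι : α → E n) (hι : Isometry ι) (p : α) (J : Type)
    [Fintype J] (β : J → Lip0 p →ₗ[ℝ] ℝ), (∀ j, BddF (β j)) → Nonempty (Der hι β)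

def S_DYN : Prop :=
  ∀ (n : ℕ) (ν : Measure (E n)) [IsFiniteMeasure ν] (ℓ : ℕ → BM n →ₗ[ℝ] ℝ) (C : ℝ),
    (∀ k ψ, |ℓ k ψ| ≤ C * ∫ y, |ψ.1 y| ∂ν) →
    (∀ s r, Tendsto (fun k => ℓ k (tent_cut s r).bm) atTop (𝓝 0)) →
    ∀ ψ, Tendsto (fun k => ℓ k ψ) atTop (𝓝 0)

def S_MZ : Prop :=
  ∀ (Ω : Type) [MeasurableSpace Ω] (μ : Measure Ω) [IsFiniteMeasure μ] (V : Type) [AddCommGroup V]
    [Module ℝ V] (L : ℕ → V →ₗ[ℝ] (Ω → ℝ)) (t : ℕ → V),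
    (∀ i v, AEStronglyMeasurable (L i v) μ) → (∀ i, ∃ C, ∀ k ω, |L i (t k) ω| ≤ C) →
    (∀ i (ψ : Ω → ℝ), AEStronglyMeasurable ψ μ → (∃ C, ∀ ω, |ψ ω| ≤ C) →
      Tendsto (fun k => ∫ ω, ψ ω * L i (t k) ω ∂μ) atTop (𝓝 0)) →
    ∃ t' : ℕ → V, (∀ k, t' k ∈ convexHull ℝ (t '' Ici k)) ∧
      ∀ i, ∀ᵐ ω ∂μ, Tendsto (fun k => L i (t' k) ω) atTop (𝓝 0)

/-- Lebesgue measure on the unit ball. -/
noncomputable abbrev vb (n : ℕ) : Measure (E n) := volume.restrict (Metric.ball 0 1)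

def S_WN : Prop :=
  ∀ (n : ℕ) (h : ℕ → Lip0 (0 : E n)) (q : E n) (C : ℝ),
    (∀ k x, ‖x‖ < 2 → |(h k).1 x| ≤ C ∧ |lam x q (h k)| ≤ C) →
    (∀ᵐ x, ‖x‖ < 2 → Tendsto (fun k => (h k).1 x) atTop (𝓝 0)) →
    ∀ ψ : E n → ℝ, AEStronglyMeasurable ψ (vb n) → (∃ C, ∀ x, |ψ x| ≤ C) →
      Tendsto (fun k => ∫ x, ψ x * lam x q (h k) ∂vb n) atTop (𝓝 0)

def S_MZL : Prop :=
  ∀ (n : ℕ) (V : Type) [AddCommGroup V] [Module ℝ V] (I : Type) [Countable I]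
    (U : I → V →ₗ[ℝ] Lip0 (0 : E n)) (q : I → E n) (t : ℕ → V),
    (∀ i, Null fun k => U i (t k)) →
    ∃ t' : ℕ → V, (∀ k, t' k ∈ convexHull ℝ (t '' Ici k)) ∧
      ∀ᵐ x ∂vb n, ∀ i, Tendsto (fun k => lam x (q i) (U i (t' k))) atTop (𝓝 0)

def S_WF1 : Prop :=
  ∀ (n : ℕ) (p : E n) (t : ℝ) (ζ : Bump n),
    (∀ N, ln (W p t N ζ) ≤ ‖p‖ + 2 * ζ.K / ((N : ℝ) + 1)) ∧
    (∀ N, ContDiff ℝ 1 (W p t N ζ).1) ∧ (∀ N, CS id (W p t N ζ).1) ∧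
    (Null fun N => W p t N ζ) ∧
    (∀ y v, Tendsto (fun N => fderiv ℝ (W p t N ζ).1 y v) atTop
      (𝓝 (if ⟪p, y⟫ = t then ζ.f y * ⟪p, v⟫ else 0))) ∧
    ∀ N x q, ⟪p, x⟫ = t → ζ.f x = 1 → lam x q (W p t N ζ) = ⟪p, q⟫

def S_WF2 : Prop :=
  ∀ (n : ℕ) (p : E n) (N : ℕ) (ζ : Bump n), ∃ D, 0 ≤ D ∧
    ∀ t t', ln (W p t N ζ - W p t' N ζ) ≤ D * |t - t'|

def S_XW0 : Prop :=
  ∀ (n : ℕ) (β : Lip0 (0 : E n) →ₗ[ℝ] ℝ), BddF β →
    ∃ (ν : Measure (E n)) (V : Fin n → E n → ℝ), IsFiniteMeasure ν ∧ (∀ l, Measurable (V l)) ∧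
      (∀ l y, |V l y| ≤ 1) ∧ ∀ p t (ζ : Bump n), Tendsto (fun N => β (W p t N ζ)) atTop
        (𝓝 (∫ y in {y | ⟪p, y⟫ = t}, ζ.f y * ∑ l, p l * V l y ∂ν))

def S_XW2 : Prop :=
  ∀ (n : ℕ) (β : Lip0 (0 : E n) →ₗ[ℝ] ℝ), BddF β → ∀ (x : E n) (ζ : ℕ → Bump n),
    (∀ i, (ζ i).f x = 1) → (∀ y, y ≠ x → Tendsto (fun i => (ζ i).f y) atTop (𝓝 0)) →
    ∃ v : Fin n → ℝ, ∀ p, IL (fun i N => β (W p ⟪p, x⟫ N (ζ i))) (∑ l, p l * v l)

def S_PT0 : Prop :=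
  ∀ (n : ℕ) (γ : Type) [MetricSpace γ] [SecondCountableTopology γ] (b : γ)
    (U : Lip0 (0 : E n) →ₗ[ℝ] Lip0 b), BddO U → ∀ p : E n, p ≠ 0 →
    ∀ᵐ x : E n, ∀ ζ : Bump n, Null fun N => U (W p ⟪p, x⟫ N ζ)

def S_SC : Prop :=
  ∀ (n : ℕ) (U : Lip0 (0 : E n) →ₗ[ℝ] Lip0 (0 : E n)), BddO U → ∀ (p q : E n) (ζ : Bump n),
    p ≠ 0 → ⟪p, q⟫ = 0 →
    ∀ᵐ x ∂vb n, Tendsto (fun N => lam x q (U (W p ⟪p, x⟫ N ζ))) atTop (𝓝 0)

def S_ADD : Prop :=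
  ∀ (n : ℕ) (U : Lip0 (0 : E n) →ₗ[ℝ] Lip0 (0 : E n)), BddO U → ∀ (p : E n) (ζ : Bump n),
    ∀ᵐ x : E n, ∀ N t q, lam x q (U (W p t N ζ)) = ∑ j, q j * lam x (ev j) (U (W p t N ζ))

def S_MOL : Prop :=
  ∀ (n : ℕ) (F : E n → ℝ), Continuous F → ∀ δ : ℝ, 0 < δ → ∃ G : E n → ℝ, ContDiff ℝ 1 G ∧
    (∀ y y' b, (∀ z, ‖z‖ < δ → b ≤ F (y' - z) - F (y - z)) → b ≤ G y' - G y) ∧
    (∀ y b, (∀ z, ‖z‖ < δ → b ≤ F (y - z)) → b ≤ G y) ∧
    ∀ y b, (∀ z, ‖z‖ < δ → F (y - z) ≤ b) → G y ≤ b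

def S_APX : Prop :=
  ∀ (n : ℕ) (α : Type) [MetricSpace α] (ι : α → E n) (hι : Isometry ι) (p : α) (f : Lip0 p),
    ∃ F : ℕ → Lip0 (0 : E n), (∀ k, ContDiff ℝ 1 (F k).1 ∧ ln (F k) ≤ ln f ∧ CS id (F k).1) ∧
      Null fun k => resL hι p (F k) - f

/-- Approximation by smooth functions seen by the functionals. -/
def Apx {n : ℕ} {α : Type} [MetricSpace α] {ι : α → E n} (hι : Isometry ι) {p : α} {J : Type}
    (β : J → Lip0 p →ₗ[ℝ] ℝ) (f : Lip0 p) : Prop :=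
  ∃ F : ℕ → Lip0 (0 : E n), (∀ k, ContDiff ℝ 1 (F k).1 ∧ ln (F k) ≤ ln f ∧ CS id (F k).1) ∧
    (Null fun k => resL hι p (F k) - f) ∧
    (∀ j, Tendsto (fun k => β j (resL hι p (F k) - f)) atTop (𝓝 0)) ∧
    ∀ j s r, Tendsto (fun k => β j (mulL hι (tent_cut s r) p (resL hι p (F k) - f))) atTop (𝓝 0)

/-- Sequential weak star continuity. -/
def WSC {α γ : Type} [MetricSpace α] [MetricSpace γ] {p : α} {q : γ}
    (A : Lip0 p →ₗ[ℝ] Lip0 q) : Prop :=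
  ∀ h : ℕ → Lip0 p, Null h → Null fun k => A (h k)

/-- The functionals at the point `x`. -/
noncomputable def bx {n : ℕ} {α : Type} [MetricSpace α] {p : α} (A : Lip0 p →ₗ[ℝ] Lip0 (0 : E n))
    (x : E n) (j : Fin n) : Lip0 p →ₗ[ℝ] ℝ := lam x (ev j) ∘ₗ A

def S_GAPX : Prop :=
  ∀ (n : ℕ) (α : Type) [MetricSpace α] (ι : α → E n) (hι : Isometry ι) (p : α)
    (A : Lip0 p →ₗ[ℝ] Lip0 (0 : E n)), WSC A → ∀ f : Lip0 p, ∀ᵐ x ∂vb n, Apx hι (bx A x) f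

/-- Steep chains and flat chains. -/
def VCh (C : Finset (ℝ × ℝ)) : Prop := ∀ a ∈ C, ∀ b ∈ C, a ≠ b → |a.1 - b.1| < |a.2 - b.2|

def HCh (C : Finset (ℝ × ℝ)) : Prop := ∀ a ∈ C, ∀ b ∈ C, a ≠ b → |a.2 - b.2| < |a.1 - b.1|

def S_DIL : Prop :=
  ∀ (j k : ℕ) (P : Finset (ℝ × ℝ)), P.card ≤ j * k → ∃ P1 P2 : Finset (ℝ × ℝ),
    (∀ a ∈ P, a ∈ P1 ∨ a ∈ P2) ∧ (∀ C ⊆ P1, HCh C → C.card ≤ k) ∧ ∀ C ⊆ P2, VCh C → C.card ≤ j

def S_QUE : Prop :=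
  ∀ (Q : Finset (ℝ × ℝ)) (j : ℕ) (δ : ℝ), 0 < δ → (∀ C ⊆ Q, VCh C → C.card ≤ j) →
    ∃ f : ℝ → ℝ → ℝ, (∀ x y, 0 ≤ f x y ∧ f x y ≤ 5 * δ * j) ∧
      (∀ x y x' y', |f x y - f x' y'| ≤ |x - x'| + |y - y'|) ∧
      (∀ x y y', y ≤ y' → f x y ≤ f x y') ∧
      ∀ q ∈ Q, ∀ x y y', |x - q.1| ≤ δ → q.2 - δ ≤ y → y ≤ y' → y' ≤ q.2 + δ →
        y' - y ≤ f x y' - f x y

def S_CNT : Prop :=
  ∀ Z : Set (E 2), IsCompact Z → volume Z = 0 → ∀ ε : ℝ, 0 < ε →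
    ∃ (δ : ℝ) (j : ℕ) (P : Finset (ℝ × ℝ)), 0 < δ ∧ P.card ≤ j * j ∧ δ * j ≤ ε ∧
      ∀ z ∈ Z, ∃ q ∈ P, |z 0 - q.1| ≤ δ / 4 ∧ |z 1 - q.2| ≤ δ / 4

def S_ACP : Prop :=
  ∀ (k : ℕ) (Z : Set (E 2)), IsCompact Z → volume Z = 0 → ∀ ε : ℝ, 0 < ε →
    ∃ F G : E (k + 2) → ℝ, ContDiff ℝ 1 F ∧ ContDiff ℝ 1 G ∧ LipschitzWith 2 F ∧
      LipschitzWith 2 G ∧ (∀ y, |F y| ≤ ε ∧ |G y| ≤ ε) ∧
      ∀ y, pr y ∈ Z → 1 ≤ fderiv ℝ F y (ev 1) + fderiv ℝ G y (ev 0)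

/-- Strips seen by the functionals. -/
def Str {n : ℕ} {α : Type} [MetricSpace α] {ι : α → E n} (hι : Isometry ι) {p : α} {J : Type}
    (β : J → Lip0 p →ₗ[ℝ] ℝ) (a b : Fin n) (R : ℝ) : Prop :=
  ∃ F G : ℕ → Lip0 (0 : E n), (∀ k, ContDiff ℝ 1 (F k).1 ∧ ContDiff ℝ 1 (G k).1 ∧
      ∀ y ∈ closure (range ι), ‖y‖ ≤ R →
        1 ≤ fderiv ℝ (F k).1 y (ev a) + fderiv ℝ (G k).1 y (ev b)) ∧
    (Null fun k => resL hι p (F k)) ∧ (Null fun k => resL hι p (G k)) ∧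
    ∀ j s r, Tendsto (fun k => β j (mulL hι (tent_cut s r) p (resL hι p (F k)))) atTop (𝓝 0) ∧
      Tendsto (fun k => β j (mulL hι (tent_cut s r) p (resL hι p (G k)))) atTop (𝓝 0)

def S_GSTR : Prop :=
  ∀ (k : ℕ) (α : Type) [MetricSpace α] (ι : α → E (k + 2)) (hι : Isometry ι) (p : α)
    (A : Lip0 p →ₗ[ℝ] Lip0 (0 : E (k + 2))), WSC A → volume (closure (pr '' range ι)) = 0 →
    ∀ R : ℝ, ∀ᵐ x ∂vb (k + 2), Str hι (bx A x) 1 0 R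

def S_RK : Prop :=
  ∀ (n : ℕ) (α : Type) [MetricSpace α] (ι : α → E n) (hι : Isometry ι) (p : α) (J : Type)
    [Fintype J] (β : J → Lip0 p →ₗ[ℝ] ℝ) (D : Der hι β) (f : Lip0 p), Apx hι β f →
    (∀ j, D.far j f = 0) ∧ ∀ ψ : J → BM n, |∑ j, D.Λ j (ψ j) f| ≤
      ln f * ∫ y, ∑ l, |∑ j, (ψ j).1 y * D.V j l y| ∂D.ν

def S_SING : Prop :=
  ∀ (n : ℕ) (α : Type) [MetricSpace α] (ι : α → E n) (hι : Isometry ι) (p : α)
    (β : Fin n → Lip0 p →ₗ[ℝ] ℝ) (D : Der hι β) (a b : Fin n), (∀ R : ℕ, Str hι β a b R) →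
    ∀ᵐ y ∂D.ν, (Matrix.of fun j l => D.V j l y).det = 0

def S_KER : Prop :=
  ∀ (n : ℕ) (V : Fin (n + 1) → Fin (n + 1) → E (n + 1) → ℝ), (∀ j l, Measurable (V j l)) →
    (∀ j l y, |V j l y| ≤ 1) → ∀ ε : ℝ, 0 < ε →
    ∃ Q : Fin (n + 1) → Fin (n + 1) → BM (n + 1), (∀ y, ∑ i, (Q i i).1 y = 1) ∧
      ∀ y, (Matrix.of fun j l => V j l y).det = 0 →
        ∀ i, ∑ l, |∑ j, (Q i j).1 y * V j l y| ≤ ε

def S_SCA : Prop :=
  ∀ (n : ℕ) (α : Type) [MetricSpace α] (ι : α → E n) (hι : Isometry ι) (p : α)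
    (β : Fin n → Lip0 p →ₗ[ℝ] ℝ) (D : Der hι β) (B : Lip0 (0 : E n) →ₗ[ℝ] Lip0 p), BddO B →
    ∀ (x : E n) (ζ : ℕ → Bump n), (∀ i, (ζ i).f x = 1) →
    (∀ y, y ≠ x → Tendsto (fun i => (ζ i).f y) atTop (𝓝 0)) →
    (∀ u ∈ Pn n, u ≠ 0 → ∀ i, Null fun N => B (W u ⟪u, x⟫ N (ζ i))) →
    (∀ u ∈ Pn n, ∀ q ∈ Pn n, u ≠ 0 → ⟪u, q⟫ = 0 → ∀ i s r, Tendsto (fun N =>
      ∑ j, q j * β j (mulL hι (tent_cut s r) p (B (W u ⟪u, x⟫ N (ζ i))))) atTop (𝓝 0)) →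
    ∃ c : BM n → ℝ, ∀ ψ a j,
      IL (fun i N => D.Λ j ψ (B (W (ev a) ⟪ev a, x⟫ N (ζ i)))) (if a = j then c ψ else 0)

def S_CORE : Prop :=
  ∀ (n : ℕ) (α : Type) [MetricSpace α] (ι : α → E (n + 1)) (hι : Isometry ι) (p : α)
    (β : Fin (n + 1) → Lip0 p →ₗ[ℝ] ℝ) (D : Der hι β) (B : Lip0 (0 : E (n + 1)) →ₗ[ℝ] Lip0 p),
    BddO B → ∀ (x : E (n + 1)) (ζ : ℕ → Bump (n + 1)), (∀ i, (ζ i).f x = 1) →
    (∀ y, y ≠ x → Tendsto (fun i => (ζ i).f y) atTop (𝓝 0)) →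
    (∀ u ∈ Pn (n + 1), u ≠ 0 → ∀ i, Null fun N => B (W u ⟪u, x⟫ N (ζ i))) →
    (∀ u ∈ Pn (n + 1), ∀ q ∈ Pn (n + 1), u ≠ 0 → ⟪u, q⟫ = 0 → ∀ i s r, Tendsto (fun N =>
      ∑ j, q j * β j (mulL hι (tent_cut s r) p (B (W u ⟪u, x⟫ N (ζ i))))) atTop (𝓝 0)) →
    (∀ a (t : ℚ) N i, Apx hι β (B (W (ev a) t N (ζ i)))) →
    (∀ᵐ y ∂D.ν, (Matrix.of fun j l => D.V j l y).det = 0) →
    (∀ a N i, β a (B (W (ev a) ⟪ev a, x⟫ N (ζ i))) = 1) → False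

def S_BMP : Prop :=
  ∀ n : ℕ, ∃ Z : ℕ × ℕ → Bump n, ∀ x : E n, ∃ a : ℕ → ℕ × ℕ, (∀ i, (Z (a i)).f x = 1) ∧
    ∀ y, y ≠ x → Tendsto (fun i => (Z (a i)).f y) atTop (𝓝 0)

def S_MAIN : Prop :=
  ∀ (k : ℕ) (α : Type) [MetricSpace α] (ι : α → E (k + 2)) (p : α)
    (A : Lip0 p →ₗ[ℝ] Lip0 (0 : E (k + 2))) (B : Lip0 (0 : E (k + 2)) →ₗ[ℝ] Lip0 p), Isometry ι →
    volume (closure (pr '' range ι)) = 0 → BddO A → BddO B → WSC A → ¬ ∀ g, A (B g) = g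

def S_POR : Prop := ∀ M : Set (E 2), Porous M → volume (closure M) = 0

end Pool.Agent.P.MP_9aa8f2_an.WS
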