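import Pool.Agent.P.MP_9aa8f2_an.WB.B0

namespace Pool.Agent.P.MP_9aa8f2_an.WS

open MeasureTheory Filter Topology Set
open scoped RealInnerProductSpace

namespace UFx

theorem ex_lim {β X : Type} [TopologicalSpace X] [T2Space X] {S : Set X} (hS : IsCompact S)
    (φ : β → X) (h : ∀ b, φ b ∈ S) :
    ∃ L : C(Ultrafilter β, X), ∀ U : Ultrafilter β, Tendsto φ U (𝓝 (L U)) := by
  have : CompactSpace S := isCompact_iff_compactSpace.1 hS
  let φ' : β → S := fun b => ⟨φ b, h b⟩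
  refine ⟨⟨fun U => (Ultrafilter.extend φ' U).1,
    continuous_subtype_val.comp (continuous_ultrafilter_extend φ')⟩, fun U => ?_⟩
  have h1 : Tendsto φ' U (𝓝 (Ultrafilter.extend φ' U)) := ultrafilter_extend_eq_iff.1 rfl
  exact (continuous_subtype_val.tendsto _).comp h1

variable {n : ℕ} {α : Type} [MetricSpace α]

/-- Difference quotient. -/
noncomputable def qt (f : α → ℝ) (z : α × α) : ℝ := (f z.1 - f z.2) / dist z.1 z.2

theorem qt_le {f : α → ℝ} {L : ℝ} (hL : 0 ≤ L) (h : ∀ a b, |f a - f b| ≤ L * dist a b)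
    (z : α × α) : |qt f z| ≤ L := by
  rw [qt, abs_div, abs_of_nonneg (dist_nonneg (x := z.1) (y := z.2))]
  exact div_le_of_le_mul₀ dist_nonneg hL (h _ _)

theorem qt_ln {p : α} (f : Lip0 p) (z : α × α) : |qt f.1 z| ≤ ln f :=
  qt_le (ln_nonneg f) (abs_sub_le_ln f) z

theorem glue {β : Type} {F : Filter β} [F.NeBot] {φ : ℕ → β → ℝ} {c : ℕ → ℝ}
    (hc : ∀ k, Tendsto (φ k) F (𝓝 (c k)))
    (h : ∀ ε : ℝ, 0 < ε → ∀ᶠ k in atTop, ∀ᶠ z in F, |φ k z| ≤ ε) : Tendsto c atTop (𝓝 0) := by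
  rw [Metric.tendsto_nhds]
  intro ε hε
  filter_upwards [h (ε / 2) (half_pos hε)] with k hk
  rw [Real.dist_eq, sub_zero]
  exact (le_of_tendsto (hc k).abs hk).trans_lt (half_lt_self hε)

theorem small {ι : α → E n} (hι : Isometry ι) {p : α} {β : Type} {F : Filter β} [F.NeBot]
    {u : β → α} {x : E n} (hx : Tendsto (fun z => ι (u z)) F (𝓝 x)) {h : ℕ → Lip0 p}
    (hn : Null h) {ε : ℝ} (hε : 0 < ε) : ∀ᶠ k in atTop, ∀ᶠ z in F, |(h k).1 (u z)| ≤ ε := by
  obtain ⟨⟨L, hL⟩, h0⟩ := hn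
  have hL0 : 0 ≤ L := (ln_nonneg _).trans (hL 0)
  have hδ : 0 < ε / (4 * (L + 1)) := by positivity
  have h1 := Metric.tendsto_nhds.1 hx _ hδ
  obtain ⟨z0, hz0⟩ := h1.exists
  filter_upwards [Metric.tendsto_nhds.1 (h0 (u z0)) _ (half_pos hε)] with k hk
  filter_upwards [h1] with z hz
  rw [Real.dist_eq, sub_zero] at hk
  have h2 : dist (u z) (u z0) ≤ ε / (4 * (L + 1)) + ε / (4 * (L + 1)) := by
    rw [← hι.dist_eq]
    exact (dist_triangle_right _ _ x).trans (add_le_add hz.le hz0.le)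
  have h3 := (abs_sub_le_ln (h k) (u z) (u z0)).trans
    (mul_le_mul ((hL k).trans (le_add_of_nonneg_right zero_le_one)) h2 dist_nonneg (by positivity))
  have h4 : (L + 1) * (ε / (4 * (L + 1)) + ε / (4 * (L + 1))) = ε / 2 := by field_simp; ring
  have h5 := abs_sub_abs_le_abs_sub ((h k).1 (u z)) ((h k).1 (u z0))
  linarith

/-- The weight that makes coordinates bounded. -/
noncomputable def wt (ι : α → E n) (z : α × α) : ℝ := (1 + ‖ι z.1‖ + ‖ι z.2‖)⁻¹

omit [MetricSpace α] in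
theorem wt_pos (ι : α → E n) (z : α × α) : 0 < wt ι z := by unfold wt; positivity

omit [MetricSpace α] in
theorem wt_mem (ι : α → E n) (z : α × α) : wt ι z ∈ Icc (0 : ℝ) 1 :=
  ⟨(wt_pos ι z).le, inv_le_one_of_one_le₀ (by linarith [norm_nonneg (ι z.1), norm_nonneg (ι z.2)])⟩

omit [MetricSpace α] in
theorem wt_smul (ι : α → E n) (z : α × α) {y : E n} (hy : ‖y‖ ≤ ‖ι z.1‖ + ‖ι z.2‖) :
    wt ι z • y ∈ Metric.closedBall (0 : E n) 1 := by
  rw [mem_closedBall_zero_iff, norm_smul, Real.norm_eq_abs, abs_of_pos (wt_pos ι z), wt,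
    inv_mul_le_iff₀ (by positivity)]
  linarith

theorem unwt {β : Type} {F : Filter β} {t : β → ℝ} {y : β → E n} {r : ℝ} {a : E n}
    (h0 : ∀ z, t z ≠ 0) (hr : r ≠ 0) (ht : Tendsto t F (𝓝 r))
    (ha : Tendsto (fun z => t z • y z) F (𝓝 a)) : Tendsto y F (𝓝 (r⁻¹ • a)) :=
  ((ht.inv₀ hr).smul ha).congr fun z => inv_smul_smul₀ (h0 z) _

/-- Direction of a pair. -/
noncomputable def dr (ι : α → E n) (z : α × α) : E n := (dist z.1 z.2)⁻¹ • (ι z.1 - ι z.2)

theorem dr_mem {ι : α → E n} (hι : Isometry ι) (z : α × α) :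
    dr ι z ∈ Metric.closedBall (0 : E n) 1 := by
  rw [mem_closedBall_zero_iff, dr, norm_smul, ← dist_eq_norm, hι.dist_eq, Real.norm_eq_abs,
    abs_of_nonneg (by positivity)]
  exact inv_mul_le_one_of_le₀ le_rfl dist_nonneg

theorem f2 {ι : α → E n} (hι : Isometry ι) {F : Filter (α × α)} {x d : E n}
    (h1 : Tendsto (fun z : α × α => ι z.1) F (𝓝 x)) (h2 : Tendsto (fun z : α × α => ι z.2) F (𝓝 x))
    (hd : Tendsto (dr ι) F (𝓝 d)) {G : E n → ℝ} {G' : E n →L[ℝ] ℝ} (hG : HasStrictFDerivAt G G' x)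
    (c : ℝ) : Tendsto (qt fun a => G (ι a) - c) F (𝓝 (G' d)) := by
  have h3 := ((hG.isLittleO.comp_tendsto (h1.prodMk_nhds h2)).norm_right).tendsto_div_nhds_zero
  have h4 := ((G'.continuous.tendsto d).comp hd).add h3
  rw [add_zero] at h4
  refine h4.congr fun z => ?_
  simp only [Function.comp, qt, dr, map_smul, smul_eq_mul, ← dist_eq_norm, hι.dist_eq]
  ring

theorem f3 {ι : α → E n} (hι : Isometry ι) {p : α} {F : Filter (α × α)} [F.NeBot] {x y : E n}
    (h1 : Tendsto (fun z : α × α => ι z.1) F (𝓝 x)) (h2 : Tendsto (fun z : α × α => ι z.2) F (𝓝 y))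
    (hxy : x ≠ y) {h : ℕ → Lip0 p} (hn : Null h) (ε : ℝ) (hε : 0 < ε) :
    ∀ᶠ k in atTop, ∀ᶠ z in F, |qt (h k).1 z| ≤ ε := by
  have hd : 0 < dist x y := dist_pos.2 hxy
  have h3 : ∀ᶠ z : α × α in F, dist x y / 2 < dist (ι z.1) (ι z.2) :=
    (h1.dist h2).eventually (lt_mem_nhds (half_lt_self hd))
  have he : 0 < ε * (dist x y / 2) / 2 := by positivity
  filter_upwards [small hι h1 hn he, small hι h2 hn he] with k k1 k2
  filter_upwards [k1, k2, h3] with z z1 z2 z3
  rw [hι.dist_eq] at z3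
  rw [qt, abs_div, abs_of_nonneg (dist_nonneg (x := z.1) (y := z.2))]
  refine div_le_of_le_mul₀ dist_nonneg hε.le ((abs_sub _ _).trans ?_)
  nlinarith

theorem f4 {ι : α → E n} (hι : Isometry ι) {p : α} {F : Filter (α × α)}
    (ht : Tendsto (wt ι) F (𝓝 0)) (f : Lip0 p) (hf : CS ι f.1) : Tendsto (qt f.1) F (𝓝 0) := by
  obtain ⟨R, c, hR⟩ := hf
  obtain ⟨M, hM0, hM⟩ : ∃ M : ℝ, 0 ≤ M ∧ ∀ a, |f.1 a| ≤ M := by
    have hl := ln_nonneg f
    refine ⟨|c| + ln f * (|R| + ‖ι p‖), by positivity, fun a => ?_⟩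
    by_cases ha : R ≤ ‖ι a‖
    · rw [hR a ha]
      exact le_add_of_nonneg_right (by positivity)
    · have h3 : dist a p ≤ |R| + ‖ι p‖ := by
        rw [← hι.dist_eq, dist_eq_norm]
        linarith [norm_sub_le (ι a) (ι p), le_abs_self R, not_le.1 ha]
      exact ((abs_le_ln f a).trans (mul_le_mul_of_nonneg_left h3 hl)).trans
        (le_add_of_nonneg_left (abs_nonneg c))
  rw [Metric.tendsto_nhds]
  intro ε hε
  have hT : 0 < (1 + 2 * |R| + (2 * M + 1) / ε)⁻¹ := by positivity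
  filter_upwards [ht.eventually (gt_mem_nhds hT)] with z hz
  rw [wt, inv_lt_inv₀ (by positivity) (by positivity)] at hz
  rw [Real.dist_eq, sub_zero, qt]
  by_cases hb : R ≤ ‖ι z.1‖ ∧ R ≤ ‖ι z.2‖
  · rw [hR _ hb.1, hR _ hb.2, sub_self, zero_div, abs_zero]
    exact hε
  have hd : (2 * M + 1) / ε < dist z.1 z.2 := by
    rw [← hι.dist_eq, dist_eq_norm]
    have e1 := norm_sub_norm_le (ι z.1) (ι z.2)
    have e2 := norm_sub_norm_le (ι z.2) (ι z.1)
    rw [norm_sub_rev] at e2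
    have e3 := le_abs_self R
    rcases not_and_or.1 hb with h | h <;> linarith [not_le.1 h]
  have hd0 : 0 < dist z.1 z.2 := lt_trans (by positivity) hd
  rw [div_lt_iff₀ hε] at hd
  rw [abs_div, abs_of_pos hd0, div_lt_iff₀ hd0]
  linarith [abs_sub (f.1 z.1) (f.1 z.2), hM z.1, hM z.2]

theorem f5 {ι : α → E n} (hι : Isometry ι) {p : α} {F : Filter (α × α)} [F.NeBot] {x : E n}
    (h1 : Tendsto (fun z : α × α => ι z.1) F (𝓝 x)) (h2 : Tendsto (fun z : α × α => ι z.2) F (𝓝 x))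
    {χ : E n → ℝ} (hχ : Cut χ) {h : ℕ → Lip0 p} (hn : Null h) (ε : ℝ) (hε : 0 < ε) :
    ∀ᶠ k in atTop, ∀ᶠ z in F, |qt (mulL hι hχ p (h k)).1 z - χ x * qt (h k).1 z| ≤ ε := by
  obtain ⟨K, hK⟩ := hχ.1
  obtain ⟨L, hL⟩ := hn.1
  have hL0 : 0 ≤ L := (ln_nonneg _).trans (hL 0)
  have hq : ∀ z, |qt (fun a => χ (ι a)) z| ≤ K := qt_le K.2 fun a b => by
    have := hK.dist_le_mul (ι a) (ι b)
    rwa [Real.dist_eq, hι.dist_eq] at this
  have e1 : 0 < ε / 2 / (K + 1) := by positivity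
  have e2 : 0 < ε / 2 / (L + 1) := by positivity
  have h3 := Metric.tendsto_nhds.1 ((hK.continuous.tendsto x).comp h2) _ e2
  filter_upwards [small hι h1 hn e1] with k k1
  filter_upwards [k1, h3] with z z1 z3
  rw [Real.dist_eq, Function.comp, lt_div_iff₀ (by positivity)] at z3
  rw [le_div_iff₀ (by positivity)] at z1
  have e : qt (mulL hι hχ p (h k)).1 z - χ x * qt (h k).1 z =
      (χ (ι z.2) - χ x) * qt (h k).1 z + (h k).1 z.1 * qt (fun a => χ (ι a)) z := by
    simp only [qt, mulL_apply]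
    ring
  rw [e]
  refine (abs_add_le _ _).trans ?_
  rw [abs_mul, abs_mul]
  have a1 := mul_le_mul_of_nonneg_left ((qt_ln (h k) z).trans (hL k)) (abs_nonneg (χ (ι z.2) - χ x))
  have a2 := mul_le_mul_of_nonneg_left (hq z) (abs_nonneg ((h k).1 z.1))
  nlinarith [abs_nonneg (χ (ι z.2) - χ x), abs_nonneg ((h k).1 z.1)]

theorem ex_phi (p : α) : ∃ Φ : Lip0 p →ₗ[ℝ] C(Ultrafilter (α × α), ℝ),
    ∀ f (U : Ultrafilter (α × α)), Tendsto (qt f.1) U (𝓝 (Φ f U)) := by
  choose L hL using fun f : Lip0 p =>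
    ex_lim (isCompact_Icc (a := -ln f) (b := ln f)) (qt f.1) fun z => abs_le.1 (qt_ln f z)
  refine ⟨⟨⟨L, fun f g => ContinuousMap.ext fun U => ?_⟩,
    fun c f => ContinuousMap.ext fun U => ?_⟩, hL⟩
  · refine tendsto_nhds_unique (hL (f + g) U) (((hL f U).add (hL g U)).congr fun z => ?_)
    simp only [qt, Submodule.coe_add, Pi.add_apply]
    ring
  · refine tendsto_nhds_unique (hL (c • f) U) (((hL f U).const_mul c).congr fun z => ?_)
    simp only [qt, Submodule.coe_smul, Pi.smul_apply, smul_eq_mul]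
    ring

end UFx

open UFx in
theorem p_UF : S_UF := by
  intro n α _ ι hι p
  obtain ⟨Φ, hΦ⟩ := ex_phi p
  obtain ⟨r, hr⟩ := ex_lim isCompact_Icc (wt ι) (wt_mem ι)
  have hB := isCompact_closedBall (0 : E n) 1
  obtain ⟨a, ha⟩ := ex_lim hB (fun z : α × α => wt ι z • ι z.1) fun z =>
    wt_smul ι z (le_add_of_nonneg_right (norm_nonneg _))
  obtain ⟨b, hb⟩ := ex_lim hB (fun z : α × α => wt ι z • ι z.2) fun z =>
    wt_smul ι z (le_add_of_nonneg_left (norm_nonneg _))
  obtain ⟨d, hd⟩ := ex_lim hB (dr ι) (dr_mem hι)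
  let _ : MeasurableSpace (Ultrafilter (α × α)) := borel _
  have : BorelSpace (Ultrafilter (α × α)) := ⟨rfl⟩
  have ta : ∀ U : Ultrafilter (α × α), r U ≠ 0 →
      Tendsto (fun z : α × α => ι z.1) U (𝓝 ((r U)⁻¹ • a U)) :=
    fun U h => unwt (fun z => (wt_pos ι z).ne') h (hr U) (ha U)
  have tb : ∀ U : Ultrafilter (α × α), r U ≠ 0 →
      Tendsto (fun z : α × α => ι z.2) U (𝓝 ((r U)⁻¹ • b U)) :=
    fun U h => unwt (fun z => (wt_pos ι z).ne') h (hr U) (hb U)
  have cF : IsClosed {U | r U = 0} := isClosed_eq r.continuous continuous_const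
  have pu : ∀ (f : Lip0 p) (z : α × α), Φ f (pure z) = qt f.1 z := fun f z =>
    tendsto_nhds_unique (hΦ f (pure z)) (tendsto_pure_nhds _ z)
  refine ⟨{
    K := Ultrafilter (α × α)
    Φ := Φ
    Dg := {U | r U = 0}ᶜ ∩ {U | a U = b U}
    Far := {U | r U = 0}
    mDg := cF.measurableSet.compl.inter (isClosed_eq a.continuous b.continuous).measurableSet
    mFar := cF.measurableSet
    disj := Set.disjoint_left.2 fun U h h' => h.1 h'
    m := fun U => (r U)⁻¹ • a U
    dir := d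
    mm := r.continuous.measurable.inv.smul a.continuous.measurable
    mdir := d.continuous.measurable
    dirb := fun U => mem_closedBall_zero_iff.1
      (Metric.isClosed_closedBall.mem_of_tendsto (hd U) (Eventually.of_forall (dr_mem hι)))
    mcl := fun U h => mem_closure_of_tendsto (ta U h.1)
      (Eventually.of_forall fun z => mem_range_self _)
    f1 := fun f U => le_of_tendsto' (hΦ f U).abs (qt_ln f)
    f1' := fun f c h => ?_
    f2 := fun U h F hF => ?_
    f3 := fun U h h' s hs => ?_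
    f4 := fun U h f hf => tendsto_nhds_unique (hΦ f U) (f4 hι (by have := hr U; rwa [h] at this) f hf)
    f5 := fun U h χ hχ s hs => ?_ }⟩
  · have h0 : 0 ≤ c := by
      have := h (pure (p, p))
      rwa [pu, qt, sub_self, zero_div] at this
    refine lipNorm_le h0 fun x y => ?_
    rcases eq_or_ne x y with rfl | hxy
    · rw [sub_self, dist_self, mul_zero]
    · have := h (pure (x, y))
      rwa [pu, qt, div_le_iff₀ (dist_pos.2 hxy)] at this
  · have h2 := tb U h.1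
    rw [← show a U = b U from h.2] at h2
    exact tendsto_nhds_unique (hΦ _ U)
      (f2 hι (ta U h.1) h2 (hd U) (hF.contDiffAt.hasStrictFDerivAt one_ne_zero) _)
  · refine glue (fun k => hΦ (s k) U) (f3 hι (ta U h') (tb U h') (fun e => h ⟨h', ?_⟩) hs)
    exact smul_right_injective _ (inv_ne_zero h') e
  · have h2 := tb U h.1
    rw [← show a U = b U from h.2] at h2
    exact glue (fun k => (hΦ _ U).sub ((hΦ (s k) U).const_mul _)) (f5 hι (ta U h.1) h2 hχ hs)

end Pool.Agent.P.MP_9aa8f2_an.WS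

namespace Pool.Agent.P.MP_9aa8f2_an.WS

open MeasureTheory Filter Topology Set
open scoped RealInnerProductSpace

theorem p_RZ : S_RZ := by
  intro K _ _ _ _ _ V _ _ Φ β C hC h
  have hk : β ∈ (LinearMap.ker Φ).dualAnnihilator := by
    rw [Submodule.mem_dualAnnihilator]
    intro f hf
    rw [LinearMap.mem_ker] at hf
    have a := h f 0 (fun ξ => by simp [hf])
    have b := h (-f) 0 (fun ξ => by simp [hf])
    rw [map_neg] at b
    linarith
  rw [← LinearMap.range_dualMap_eq_dualAnnihilator_ker] at hk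
  obtain ⟨g0, hg0⟩ := hk
  have hg : ∀ f, g0 (Φ f) = β f := fun f => LinearMap.congr_fun hg0 f
  have bd : ∀ g : C(K, ℝ), BddAbove (range g) := fun g =>
    (isCompact_range g.continuous).bddAbove
  obtain ⟨L, hL, hN⟩ := exists_extension_of_le_sublinear
    (⟨LinearMap.range Φ, g0.domRestrict _⟩ : C(K, ℝ) →ₗ.[ℝ] ℝ) (fun g => C * ⨆ ξ, g ξ)
    (fun c hc g => by
      have : (⨆ ξ, (c • g) ξ) = c * ⨆ ξ, g ξ := by
        rw [Real.mul_iSup_of_nonneg hc.le]; rfl
      rw [this]; ring)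
    (fun g g' => by
      have : (⨆ ξ, (g + g') ξ) ≤ (⨆ ξ, g ξ) + ⨆ ξ, g' ξ := by
        rcases isEmpty_or_nonempty K with e | e
        · simp
        · exact ciSup_le fun ξ => add_le_add (le_ciSup (bd g) ξ) (le_ciSup (bd g') ξ)
      nlinarith)
    (by
      rintro ⟨_, f, rfl⟩
      exact (hg f).le.trans (h f _ fun ξ => le_ciSup (bd _) ξ))
  have hpos : ∀ g : C(K, ℝ), (∀ ξ, 0 ≤ g ξ) → 0 ≤ L g := fun g hg => by
    have a := hN (-g)
    have b : (⨆ ξ, (-g) ξ) ≤ 0 := Real.iSup_nonpos fun ξ => by simpa using hg ξ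
    rw [map_neg] at a
    nlinarith
  let T : CompactlySupportedContinuousMap K ℝ →ₗ[ℝ] ℝ :=
    { toFun := fun f => L f.toContinuousMap
      map_add' := fun f g => by rw [← map_add]; rfl
      map_smul' := fun c f => by rw [RingHom.id_apply, ← map_smul]; rfl }
  let Λ := PositiveLinearMap.mk₀ T fun f hf => hpos _ fun ξ => CompactlySupportedContinuousMap.le_def.1 hf ξ
  refine ⟨RealRMK.rieszMeasure Λ, inferInstance, fun f => ?_⟩
  have := RealRMK.integral_rieszMeasure Λ ⟨Φ f, HasCompactSupport.of_compactSpace _⟩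
  refine Eq.trans ?_ this.symm
  exact (hg f).symm.trans (hL ⟨Φ f, f, rfl⟩).symm

end Pool.Agent.P.MP_9aa8f2_an.WS

namespace Pool.Agent.P.MP_9aa8f2_an.WS

open MeasureTheory Filter Topology Set
open scoped RealInnerProductSpace

namespace CONDx

theorem pos {n : ℕ} {Ω : Type} [MeasurableSpace Ω] (ρ : Measure Ω) [IsFiniteMeasure ρ]
    (m : Ω → E n) (ν : Measure (E n)) [IsFiniteMeasure ν] (φ : Ω → ℝ) (hm : Measurable m)
    (hle : ρ.map m ≤ ν) (hφ : Measurable φ) (h0 : ∀ ω, 0 ≤ φ ω) (h1 : ∀ ω, φ ω ≤ 1) :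
    ∃ g : E n → ℝ, Measurable g ∧ (∀ y, 0 ≤ g y) ∧ (∀ y, g y ≤ 1) ∧
      ∀ ψ : E n → ℝ, Measurable ψ → ∫ ω, ψ (m ω) * φ ω ∂ρ = ∫ y, ψ y * g y ∂ν := by
  set σ := (ρ.withDensity fun ω => ENNReal.ofReal (φ ω)).map m with hσ
  have hw : (ρ.withDensity fun ω => ENNReal.ofReal (φ ω)) ≤ ρ := by
    conv_rhs => rw [← withDensity_one (μ := ρ)]
    exact withDensity_mono (Eventually.of_forall fun ω => by simpa using h1 ω)
  have hσle : σ ≤ ν := (Measure.map_mono hw hm).trans hle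
  have : IsFiniteMeasure σ := isFiniteMeasure_of_le ν hσle
  have hr : σ.rnDeriv ν ≤ᵐ[ν] 1 := Measure.rnDeriv_le_one_of_le hσle
  refine ⟨fun y => min 1 (σ.rnDeriv ν y).toReal,
    measurable_const.min (Measure.measurable_rnDeriv σ ν).ennreal_toReal,
    fun y => le_min zero_le_one ENNReal.toReal_nonneg, fun y => min_le_left _ _, fun ψ hψ => ?_⟩
  have e1 : ∫ y, ψ y * min 1 (σ.rnDeriv ν y).toReal ∂ν = ∫ y, (σ.rnDeriv ν y).toReal • ψ y ∂ν := by
    refine integral_congr_ae (hr.mono fun y hy => ?_)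
    have : (σ.rnDeriv ν y).toReal ≤ 1 := by
      simpa using ENNReal.toReal_mono ENNReal.one_ne_top hy
    simp only [min_eq_right this, smul_eq_mul, mul_comm]
  rw [e1, integral_rnDeriv_smul (Measure.absolutelyContinuous_of_le hσle), hσ,
    integral_map hm.aemeasurable hψ.aestronglyMeasurable,
    integral_withDensity_eq_integral_toReal_smul hφ.ennreal_ofReal
      (Eventually.of_forall fun ω => ENNReal.ofReal_lt_top)]
  refine integral_congr_ae (Eventually.of_forall fun ω => ?_)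
  simp only [ENNReal.toReal_ofReal (h0 ω), smul_eq_mul, mul_comm]

theorem intg {X : Type} [MeasurableSpace X] (μ : Measure X) [IsFiniteMeasure μ] {f g : X → ℝ}
    (hf : Measurable f) (hg : Measurable g) {C : ℝ} (hC : ∀ x, |f x| ≤ C) (h0 : ∀ x, 0 ≤ g x)
    (h1 : ∀ x, g x ≤ 1) : Integrable (fun x => f x * g x) μ := by
  refine Integrable.of_bound (hf.mul hg).aestronglyMeasurable C (Eventually.of_forall fun x => ?_)
  rw [Real.norm_eq_abs, abs_mul, abs_of_nonneg (h0 x)]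
  exact (mul_le_of_le_one_right (abs_nonneg _) (h1 x)).trans (hC x)

end CONDx

theorem p_COND : S_COND := by
  intro n Ω _ ρ _ m ν _ φ hm hle hφ hb
  have mp : Measurable fun ω => max (φ ω) 0 := hφ.max measurable_const
  have mn : Measurable fun ω => max (-φ ω) 0 := hφ.neg.max measurable_const
  have p0 : ∀ ω, 0 ≤ max (φ ω) 0 := fun ω => le_max_right _ _
  have n0 : ∀ ω, 0 ≤ max (-φ ω) 0 := fun ω => le_max_right _ _
  have p1 : ∀ ω, max (φ ω) 0 ≤ 1 := fun ω => max_le (abs_le.1 (hb ω)).2 zero_le_one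
  have n1 : ∀ ω, max (-φ ω) 0 ≤ 1 := fun ω =>
    max_le (by linarith [(abs_le.1 (hb ω)).1]) zero_le_one
  obtain ⟨g, gm, g0, g1, hg⟩ := CONDx.pos ρ m ν _ hm hle mp p0 p1
  obtain ⟨h, hm', h0, h1, hh⟩ := CONDx.pos ρ m ν _ hm hle mn n0 n1
  refine ⟨fun y => g y - h y, gm.sub hm', fun y => abs_le.2 ⟨by linarith [g0 y, h1 y],
    by linarith [g1 y, h0 y]⟩, fun ψ => ?_⟩
  obtain ⟨ψm, C, hC⟩ := ψ.2
  have ψc : Measurable fun ω => ψ.1 (m ω) := ψm.comp hm
  simp only [mul_sub]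
  rw [integral_sub (CONDx.intg ν ψm gm hC g0 g1) (CONDx.intg ν ψm hm' hC h0 h1), ← hg _ ψm,
    ← hh _ ψm, ← integral_sub (CONDx.intg ρ ψc mp (fun x => hC (m x)) p0 p1)
      (CONDx.intg ρ ψc mn (fun x => hC (m x)) n0 n1)]
  refine integral_congr_ae (Eventually.of_forall fun ω => ?_)
  simp only
  rw [← mul_sub, max_zero_sub_max_neg_zero_eq_self]

end Pool.Agent.P.MP_9aa8f2_an.WS

namespace Pool.Agent.P.MP_9aa8f2_an.WS

open MeasureTheory Filter Topology Set
open scoped RealInnerProductSpace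

namespace DERx

variable {Ω : Type} [MeasurableSpace Ω]

theorem intb (μ : Measure Ω) [IsFiniteMeasure μ] {g : Ω → ℝ} (hm : Measurable g) {C : ℝ}
    (h : ∀ ω, |g ω| ≤ C) : Integrable g μ :=
  (integrable_const C).mono' hm.aestronglyMeasurable (Eventually.of_forall h)

theorem intm (μ : Measure Ω) [IsFiniteMeasure μ] {g g' : Ω → ℝ} (hm : Measurable g)
    (hm' : Measurable g') {C C' : ℝ} (h : ∀ ω, |g ω| ≤ C) (h' : ∀ ω, |g' ω| ≤ C') :
    Integrable (fun ω => g ω * g' ω) μ :=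
  intb μ (hm.mul hm') (C := C * C') fun ω => by
    rw [abs_mul]
    exact mul_le_mul (h ω) (h' ω) (abs_nonneg _) ((abs_nonneg _).trans (h ω))

theorem dct (μ : Measure Ω) [IsFiniteMeasure μ] {g : ℕ → Ω → ℝ} (hm : ∀ k, Integrable (g k) μ)
    {C : ℝ} (h : ∀ k ω, |g k ω| ≤ C) (h0 : ∀ ω, Tendsto (fun k => g k ω) atTop (𝓝 0)) :
    Tendsto (fun k => ∫ ω, g k ω ∂μ) atTop (𝓝 0) := by
  simpa using tendsto_integral_of_dominated_convergence (f := fun _ => (0 : ℝ)) (fun _ => C)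
    (fun k => (hm k).aestronglyMeasurable) (integrable_const C)
    (fun k => Eventually.of_forall (h k)) (Eventually.of_forall h0)

omit [MeasurableSpace Ω] in
theorem ind_le {s : Set Ω} {g : Ω → ℝ} {C : ℝ} {ω : Ω} (h : |g ω| ≤ C) : |s.indicator g ω| ≤ C := by
  by_cases e : ω ∈ s
  · rwa [indicator_of_mem e]
  · rw [indicator_of_notMem e, abs_zero]
    exact (abs_nonneg _).trans h

end DERx

open DERx in
theorem p_DER (h1 : S_UF) (h2 : S_RZ) (h3 : S_COND) : S_DER := by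
  intro n α _ ι hι p J _ β hβ
  obtain ⟨u⟩ := h1 n α ι hι p
  let _ := u.top
  let _ := u.ms
  have _ := u.cpt
  have _ := u.sep
  have _ := u.bor
  have hex : ∀ j, ∃ μ : Measure u.K, IsFiniteMeasure μ ∧ ∀ f, β j f = ∫ ξ, u.Φ f ξ ∂μ := fun j => by
    obtain ⟨C, hC, hb⟩ := hβ j
    exact h2 u.K (Lip0 p) u.Φ (β j) C hC fun f c hc =>
      (le_abs_self _).trans ((hb f).trans (mul_le_mul_of_nonneg_left (u.f1' f c hc) hC))
  choose μ hμ hβμ using hex
  obtain ⟨ν, hν⟩ : ∃ ν : Measure (E n), ν = ∑ j, ((μ j).restrict u.Dg).map u.m := ⟨_, rfl⟩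
  have _ : IsFiniteMeasure ν := hν ▸ inferInstance
  have hle : ∀ j, ((μ j).restrict u.Dg).map u.m ≤ ν := fun j => hν ▸
    Finset.single_le_sum (f := fun j => ((μ j).restrict u.Dg).map u.m) (fun _ _ => bot_le)
      (Finset.mem_univ j)
  have hdb : ∀ l ξ, |u.dir ξ l| ≤ 1 := fun l ξ =>
    (PiLp.norm_apply_le (u.dir ξ) l).trans (u.dirb ξ)
  have hdm : ∀ l, Measurable fun ξ => u.dir ξ l := fun l =>
    (EuclideanSpace.proj (𝕜 := ℝ) l).continuous.measurable.comp u.mdir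
  choose V Vm Vb hV using fun j l => h3 n u.K ((μ j).restrict u.Dg) u.m ν (fun ξ => u.dir ξ l)
    u.mm (hle j) (hdm l) (hdb l)
  have hΦ : ∀ f, Measurable (u.Φ f) := fun f => (u.Φ f).continuous.measurable
  have hi : ∀ (ρ : Measure u.K) [IsFiniteMeasure ρ] (ψ : BM n) f,
      Integrable (fun ξ => ψ.1 (u.m ξ) * u.Φ f ξ) ρ := fun ρ _ ψ f => by
    obtain ⟨hm, C, hC⟩ := ψ.2
    exact intm ρ (hm.comp u.mm) (hΦ f) (fun ξ => hC _) (u.f1 f)
  have hi' : ∀ (ρ : Measure u.K) [IsFiniteMeasure ρ] f, Integrable (u.Φ f) ρ := fun ρ _ f =>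
    intb ρ (hΦ f) (u.f1 f)
  refine ⟨{
    ν := ν
    fin := inferInstance
    V := V
    Vm := Vm
    Vb := Vb
    Λ := fun j => LinearMap.mk₂ ℝ (fun ψ f => ∫ ξ in u.Dg, ψ.1 (u.m ξ) * u.Φ f ξ ∂μ j)
      (fun ψ ψ' f => ?_) (fun c ψ f => ?_) (fun ψ f f' => ?_) (fun c ψ f => ?_)
    far := fun j =>
      { toFun := fun f => ∫ ξ in u.Far, u.Φ f ξ ∂μ j
        map_add' := fun f f' => ?_
        map_smul' := fun c f => ?_ }
    supp := ?_
    bd := fun j ψ f => ?_
    sm := fun j ψ F hF => ?_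
    cut := fun j χ hχ h hh => ?_
    tot := fun j h hh => ?_
    farb := fun j => ?_
    farc := fun j f hf => ?_ }⟩
  · rw [← integral_add (hi _ ψ f) (hi _ ψ' f)]
    simp only [Submodule.coe_add, Pi.add_apply, add_mul]
  · rw [smul_eq_mul, ← integral_const_mul]
    simp only [Submodule.coe_smul, Pi.smul_apply, smul_eq_mul, mul_assoc]
  · rw [← integral_add (hi _ ψ f) (hi _ ψ f')]
    simp only [map_add, ContinuousMap.add_apply, mul_add]
  · rw [smul_eq_mul, ← integral_const_mul]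
    simp only [map_smul, ContinuousMap.smul_apply, smul_eq_mul, mul_left_comm]
  · rw [← integral_add (hi' _ f) (hi' _ f')]
    simp only [map_add, ContinuousMap.add_apply]
  · rw [RingHom.id_apply, smul_eq_mul, ← integral_const_mul]
    simp only [map_smul, ContinuousMap.smul_apply, smul_eq_mul]
  · rw [hν, ae_finsetSum_measure_iff]
    exact fun j _ => (ae_map_iff u.mm.aemeasurable isClosed_closure.measurableSet).2
      ((ae_restrict_mem u.mDg).mono u.mcl)
  · rw [LinearMap.mk₂_apply]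
    have e : ∫ ξ in u.Dg, |ψ.1 (u.m ξ)| ∂μ j = ∫ y, |ψ.1 y| ∂((μ j).restrict u.Dg).map u.m :=
      (integral_map u.mm.aemeasurable ψ.2.1.abs.aestronglyMeasurable).symm
    refine abs_integral_le_integral_abs.trans (le_trans ?_ (mul_le_mul_of_nonneg_left
      (integral_mono_measure (hle j) (Eventually.of_forall fun _ => abs_nonneg _)
        (BM.integrable ψ ν).abs) (ln_nonneg f)))
    rw [← e, ← integral_const_mul]
    obtain ⟨hm, C, hC⟩ := ψ.2
    refine integral_mono (hi _ ψ f).abs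
      ((intb _ (hm.comp u.mm) fun ξ => hC _).abs.const_mul _) fun ξ => ?_
    beta_reduce
    rw [abs_mul, mul_comm]
    exact mul_le_mul_of_nonneg_right (u.f1 f ξ) (abs_nonneg _)
  · rw [LinearMap.mk₂_apply]
    obtain ⟨hm, C, hC⟩ := ψ.2
    have hc : ∀ l, Measurable fun y => ψ.1 y * fderiv ℝ F.1 y (ev l) := fun l =>
      hm.mul (measurable_fderiv_apply_const ℝ F.1 _)
    have hb : ∀ l y, |ψ.1 y * fderiv ℝ F.1 y (ev l)| ≤ C * (ln F * ‖ev (n := n) l‖) := fun l y => by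
      rw [abs_mul]
      exact mul_le_mul (hC y) (fderiv_le_ln F y _) (abs_nonneg _) ((abs_nonneg _).trans (hC y))
    calc _ = ∫ ξ in u.Dg, ∑ l, ψ.1 (u.m ξ) * fderiv ℝ F.1 (u.m ξ) (ev l) * u.dir ξ l ∂μ j := by
          refine setIntegral_congr_fun u.mDg fun ξ hξ => ?_
          beta_reduce
          rw [u.f2 ξ hξ F hF]
          conv_lhs => rw [← sum_ev (u.dir ξ)]
          simp only [map_sum, map_smul, smul_eq_mul, Finset.mul_sum]
          exact Finset.sum_congr rfl fun l _ => by ring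
      _ = ∑ l, ∫ y, ψ.1 y * fderiv ℝ F.1 y (ev l) * V j l y ∂ν := by
          refine (integral_finsetSum _ fun l _ =>
            intm _ ((hc l).comp u.mm) (hdm l) (fun ξ => hb l _) (hdb l)).trans ?_
          exact Finset.sum_congr rfl fun l _ => hV j l ⟨_, hc l, _, hb l⟩
      _ = _ := by
          rw [← integral_finsetSum _ fun l _ => intm _ (hc l) (Vm j l) (hb l) (Vb j l)]
          refine integral_congr_ae (Eventually.of_forall fun y => ?_)
          simp only [Finset.mul_sum]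
          exact Finset.sum_congr rfl fun l _ => by ring
  · have hh' := hh.mul hι hχ
    obtain ⟨L, hL⟩ := hh.1
    obtain ⟨L', hL'⟩ := hh'.1
    refine (dct (μ j) (g := fun k ξ => u.Φ (mulL hι hχ p (h k)) ξ -
      u.Dg.indicator (fun ξ => χ (u.m ξ) * u.Φ (h k) ξ) ξ) (C := L' + L)
      (fun k => (hi' _ _).sub ((hi _ hχ.bm (h k)).indicator u.mDg)) (fun k ξ => ?_)
      fun ξ => ?_).congr fun k => ?_
    · refine (abs_sub _ _).trans (add_le_add ((u.f1 _ ξ).trans (hL' k)) (ind_le ?_))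
      rw [abs_mul, ← one_mul L]
      exact mul_le_mul (hχ.2.1 _) ((u.f1 _ ξ).trans (hL k)) (abs_nonneg _) zero_le_one
    · by_cases e : ξ ∈ u.Dg
      · simpa only [indicator_of_mem e] using u.f5 ξ e χ hχ h hh
      · simp only [indicator_of_notMem e, sub_zero]
        by_cases e' : ξ ∈ u.Far
        · simp only [u.f4 ξ e' _ (cs_mul hι hχ _), tendsto_const_nhds_iff]
        · exact u.f3 ξ e e' _ hh'
    · refine (integral_sub (hi' _ _) ((hi _ hχ.bm (h k)).indicator u.mDg)).trans ?_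
      rw [integral_indicator u.mDg, hβμ]
      rfl
  · obtain ⟨L, hL⟩ := hh.1
    refine (dct (μ j) (g := fun k ξ => u.Φ (h k) ξ -
      u.Dg.indicator (fun ξ => 1 * u.Φ (h k) ξ) ξ - u.Far.indicator (u.Φ (h k)) ξ) (C := L + L + L)
      (fun k => ((hi' _ _).sub ((hi _ (oneB n) (h k)).indicator u.mDg)).sub
        ((hi' _ _).indicator u.mFar)) (fun k ξ => ?_) fun ξ => ?_).congr fun k => ?_
    · have := (u.f1 _ ξ).trans (hL k)
      exact (abs_sub _ _).trans (add_le_add ((abs_sub _ _).trans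
        (add_le_add this (ind_le (by rwa [one_mul])))) (ind_le this))
    · by_cases e : ξ ∈ u.Dg
      · simp [indicator_of_mem e, indicator_of_notMem (Set.disjoint_left.1 u.disj e)]
      · by_cases e' : ξ ∈ u.Far
        · simp [indicator_of_notMem e, indicator_of_mem e']
        · simpa only [indicator_of_notMem e, indicator_of_notMem e', sub_zero] using
            u.f3 ξ e e' _ hh
    · refine (integral_sub ((hi' _ _).sub ((hi _ (oneB n) (h k)).indicator u.mDg))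
        ((hi' _ _).indicator u.mFar)).trans ?_
      refine (congrArg (· - _) (integral_sub (hi' _ _)
        ((hi _ (oneB n) (h k)).indicator u.mDg))).trans ?_
      rw [integral_indicator u.mDg, integral_indicator u.mFar, hβμ]
      rfl
  · refine ⟨((μ j).restrict u.Far).real univ, measureReal_nonneg, fun f => ?_⟩
    rw [mul_comm]
    exact norm_integral_le_of_norm_le_const (μ := (μ j).restrict u.Far) (f := u.Φ f)
      (Eventually.of_forall (u.f1 f))
  · exact setIntegral_eq_zero_of_forall_eq_zero fun ξ hξ => u.f4 ξ hξ f hf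

end Pool.Agent.P.MP_9aa8f2_an.WS
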