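import Pool.Agent.P.MP_9aa8f2_an.WB.B0

namespace Pool.Agent.P.MP_9aa8f2_an.WS

open MeasureTheory Filter Topology Set
open scoped RealInnerProductSpace

namespace DYNx

variable {n : ℕ} {ν : Measure (E n)} [IsFiniteMeasure ν] {ℓ : ℕ → BM n →ₗ[ℝ] ℝ} {C : ℝ}

omit [IsFiniteMeasure ν] in
theorem clos (hb : ∀ k ψ, |ℓ k ψ| ≤ C * ∫ y, |ψ.1 y| ∂ν) (ψ : BM n)
    (h : ∀ ε : ℝ, 0 < ε → ∃ φ : BM n, Tendsto (fun k => ℓ k φ) atTop (𝓝 0) ∧
      ∫ y, |ψ.1 y - φ.1 y| ∂ν ≤ ε) : Tendsto (fun k => ℓ k ψ) atTop (𝓝 0) := by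
  rw [Metric.tendsto_atTop]
  intro ε hε
  have hC : 0 < |C| + 1 := by positivity
  obtain ⟨φ, h1, h2⟩ := h (ε / 2 / (|C| + 1)) (by positivity)
  obtain ⟨N, hN⟩ := Metric.tendsto_atTop.1 h1 (ε / 2) (by positivity)
  refine ⟨N, fun k hk => ?_⟩
  have h3 := hN k hk
  have h4 : |ℓ k ψ - ℓ k φ| ≤ C * ∫ y, |ψ.1 y - φ.1 y| ∂ν := by
    rw [← map_sub]
    exact hb k (ψ - φ)
  have h5 : 0 ≤ ∫ y, |ψ.1 y - φ.1 y| ∂ν := integral_nonneg fun _ => abs_nonneg _
  rw [le_div_iff₀ hC] at h2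
  rw [Real.dist_eq, sub_zero] at h3 ⊢
  have h6 := abs_add_le (ℓ k ψ - ℓ k φ) (ℓ k φ)
  rw [sub_add_cancel] at h6
  nlinarith [mul_le_mul_of_nonneg_right (le_abs_self C) h5]

/-- Indicator functions. -/
noncomputable def ind {S : Set (E n)} (hS : MeasurableSet S) : BM n :=
  ⟨S.indicator fun _ => 1, measurable_const.indicator hS, 1, fun y => by
    by_cases h : y ∈ S <;> simp [h]⟩

open Classical in
theorem tent_lim {U : Set (E n)} (hU : IsOpen U) (y : E n) :
    ∀ᶠ m in atTop, tent n ((Finset.range m ×ˢ Finset.range m).filter fun a =>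
      Metric.ball (TopologicalSpace.denseSeq (E n) a.1) (1 / ((a.2 : ℝ) + 1)) ⊆ U) m y
      = U.indicator (fun _ => 1) y := by
  by_cases hy : y ∈ U
  · obtain ⟨ε, hε, hB⟩ := Metric.isOpen_iff.1 hU y hy
    obtain ⟨j, hj⟩ := exists_nat_one_div_lt (half_pos hε)
    obtain ⟨i, hi⟩ := (TopologicalSpace.denseRange_denseSeq (E n)).exists_dist_lt y
      (show (0 : ℝ) < 1 / ((j : ℝ) + 1) by positivity)
    set δ := 1 / ((j : ℝ) + 1) - dist y (TopologicalSpace.denseSeq (E n) i) with hδ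
    have hδ0 : 0 < δ := sub_pos.2 hi
    obtain ⟨N, hN⟩ := exists_nat_ge (1 / δ)
    filter_upwards [eventually_gt_atTop i, eventually_gt_atTop j, eventually_ge_atTop N]
      with m h1 h2 h3
    rw [indicator_of_mem hy, tent, min_eq_left]
    have hm : (i, j) ∈ (Finset.range m ×ˢ Finset.range m).filter fun a =>
        Metric.ball (TopologicalSpace.denseSeq (E n) a.1) (1 / ((a.2 : ℝ) + 1)) ⊆ U := by
      refine Finset.mem_filter.2 ⟨by simp [h1, h2], fun z hz => hB ?_⟩
      rw [Metric.mem_ball] at hz ⊢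
      have := dist_triangle_right z y (TopologicalSpace.denseSeq (E n) i)
      linarith
    have h4 := (le_max_right 0 δ).trans (Finset.single_le_sum (f := fun a : ℕ × ℕ =>
      max 0 (1 / ((a.2 : ℝ) + 1) - dist y (TopologicalSpace.denseSeq (E n) a.1)))
      (fun _ _ => le_max_left _ _) hm)
    have h5 : 1 ≤ (m : ℝ) * δ := by
      rw [← div_le_iff₀ hδ0]
      exact hN.trans (Nat.cast_le.2 h3)
    exact h5.trans (mul_le_mul_of_nonneg_left h4 (Nat.cast_nonneg m))
  · refine Eventually.of_forall fun m => ?_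
    rw [indicator_of_notMem hy, tent, Finset.sum_eq_zero]
    · simp
    · intro a ha
      refine max_eq_left (sub_nonpos.2 (not_lt.1 fun h => hy ?_))
      exact (Finset.mem_filter.1 ha).2 (Metric.mem_ball.2 h)

theorem opn (hb : ∀ k ψ, |ℓ k ψ| ≤ C * ∫ y, |ψ.1 y| ∂ν)
    (ht : ∀ s r, Tendsto (fun k => ℓ k (tent_cut s r).bm) atTop (𝓝 0)) {U : Set (E n)}
    (hU : IsOpen U) : Tendsto (fun k => ℓ k (ind hU.measurableSet)) atTop (𝓝 0) := by
  classical
  refine clos hb _ fun ε hε => ?_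
  set s : ℕ → Finset (ℕ × ℕ) := fun m => (Finset.range m ×ˢ Finset.range m).filter fun a =>
    Metric.ball (TopologicalSpace.denseSeq (E n) a.1) (1 / ((a.2 : ℝ) + 1)) ⊆ U with hs
  have key := tendsto_integral_of_dominated_convergence (μ := ν)
    (F := fun m y => |(ind hU.measurableSet).1 y - (tent_cut (s m) m).bm.1 y|) (f := fun _ => 0)
    (fun _ => 2)
    (fun m => ((ind hU.measurableSet).2.1.sub (tent_cut (s m) m).bm.2.1).abs.aestronglyMeasurable)
    (integrable_const _)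
    (fun m => Eventually.of_forall fun y => by
      rw [Real.norm_eq_abs, abs_abs]
      have h1 : |(ind hU.measurableSet).1 y| ≤ 1 := by by_cases h : y ∈ U <;> simp [ind, h]
      have h2 : |(tent_cut (s m) m).bm.1 y| ≤ 1 := (tent_cut (s m) m).2.1 y
      linarith [abs_sub ((ind hU.measurableSet).1 y) ((tent_cut (s m) m).bm.1 y)])
    (Eventually.of_forall fun y => tendsto_const_nhds.congr' (by
      filter_upwards [tent_lim hU y] with m hm
      change 0 = |U.indicator (fun _ => 1) y - tent n (s m) m y|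
      rw [hs, hm, sub_self, abs_zero]))
  rw [integral_zero] at key
  obtain ⟨m, hm⟩ := (key.eventually_le_const hε).exists
  exact ⟨_, ht (s m) m, hm⟩

theorem msr (hb : ∀ k ψ, |ℓ k ψ| ≤ C * ∫ y, |ψ.1 y| ∂ν)
    (ht : ∀ s r, Tendsto (fun k => ℓ k (tent_cut s r).bm) atTop (𝓝 0)) {S : Set (E n)}
    (hS : MeasurableSet S) : Tendsto (fun k => ℓ k (ind hS)) atTop (𝓝 0) := by
  refine clos hb _ fun ε hε => ?_
  obtain ⟨U, h1, hU, -, h2⟩ := hS.exists_isOpen_sdiff_lt (measure_ne_top ν S)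
    (ENNReal.ofReal_pos.2 hε).ne'
  refine ⟨_, opn hb ht hU, ?_⟩
  have e : (fun y => |(ind hS).1 y - (ind hU.measurableSet).1 y|)
      = (U \ S).indicator fun _ => 1 := by
    funext y
    by_cases h : y ∈ S
    · simp [ind, h, h1 h]
    · by_cases h' : y ∈ U <;> simp [ind, h, h']
  rw [e, integral_indicator (hU.measurableSet.diff hS)]
  simpa [Measure.real] using ENNReal.toReal_le_of_le_ofReal hε.le h2.le

theorem smp (hb : ∀ k ψ, |ℓ k ψ| ≤ C * ∫ y, |ψ.1 y| ∂ν)
    (ht : ∀ s r, Tendsto (fun k => ℓ k (tent_cut s r).bm) atTop (𝓝 0))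
    (g : SimpleFunc (E n) ℝ) :
    ∃ φ : BM n, φ.1 = g ∧ Tendsto (fun k => ℓ k φ) atTop (𝓝 0) := by
  induction g using SimpleFunc.induction with
  | @const c S hS =>
    refine ⟨c • ind hS, ?_, by simpa using (msr hb ht hS).const_mul c⟩
    funext y
    by_cases h : y ∈ S <;> simp [ind, h]
  | add _ h1 h2 =>
    obtain ⟨φ, e1, h1⟩ := h1
    obtain ⟨φ', e2, h2⟩ := h2
    exact ⟨φ + φ', by rw [Submodule.coe_add, e1, e2, SimpleFunc.coe_add],
      by simpa using h1.add h2⟩

end DYNx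

theorem p_DYN : S_DYN := by
  intro n ν _ ℓ C hb ht ψ
  refine DYNx.clos hb ψ fun ε hε => ?_
  obtain ⟨B, hB⟩ := ψ.2.2
  have hi : MemLp ψ.1 1 ν := MemLp.of_bound ψ.2.1.aestronglyMeasurable B (Eventually.of_forall hB)
  obtain ⟨g, h1, h2⟩ := hi.exists_simpleFunc_eLpNorm_sub_lt ENNReal.one_ne_top
    (ENNReal.ofReal_pos.2 hε).ne'
  obtain ⟨φ, e, h3⟩ := DYNx.smp hb ht g
  refine ⟨φ, h3, ?_⟩
  rw [e]
  have h4 := integral_norm_eq_lintegral_enorm (hi.sub h2).aestronglyMeasurable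
  rw [eLpNorm_one_eq_lintegral_enorm] at h1
  exact h4.le.trans (ENNReal.toReal_le_of_le_ofReal hε.le h1.le)

end Pool.Agent.P.MP_9aa8f2_an.WS

namespace Pool.Agent.P.MP_9aa8f2_an.WS

open MeasureTheory Filter Topology Set
open scoped RealInnerProductSpace

namespace MZx

variable {Ω : Type} [MeasurableSpace Ω] {μ : Measure Ω}

theorem int_mul [IsFiniteMeasure μ] {f g : Ω → ℝ} (hf : AEStronglyMeasurable f μ)
    (hg : AEStronglyMeasurable g μ) {C : ℝ} (hf' : ∀ ω, |f ω| ≤ C) (hg' : ∀ ω, |g ω| ≤ C) :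
    Integrable (fun ω => f ω * g ω) μ := by
  refine Integrable.of_bound (hf.mul hg) (C * C) (Eventually.of_forall fun ω => ?_)
  rw [Real.norm_eq_abs, abs_mul]
  exact mul_le_mul (hf' ω) (hg' ω) (abs_nonneg _) ((abs_nonneg _).trans (hf' ω))

theorem int_le [IsFiniteMeasure μ] {f : Ω → ℝ} (hf : AEStronglyMeasurable f μ) {C : ℝ}
    (hf' : ∀ ω, |f ω| ≤ C) : ∫ ω, f ω * f ω ∂μ ≤ C * C * μ.real univ := by
  have h := integral_mono (int_mul hf hf hf' hf') (integrable_const (C * C)) fun ω =>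
    (show f ω * f ω ≤ C * C by
      rw [← abs_mul_abs_self]
      exact mul_self_le_mul_self (abs_nonneg _) (hf' ω))
  rwa [integral_const, smul_eq_mul, mul_comm] at h

theorem expand [IsFiniteMeasure μ] {f g : Ω → ℝ} (hf : AEStronglyMeasurable f μ)
    (hg : AEStronglyMeasurable g μ) {C : ℝ} (hf' : ∀ ω, |f ω| ≤ C) (hg' : ∀ ω, |g ω| ≤ C)
    (a b : ℝ) : ∫ ω, (a * f ω + b * g ω) * (a * f ω + b * g ω) ∂μ =
      a ^ 2 * ∫ ω, f ω * f ω ∂μ + 2 * a * b * ∫ ω, f ω * g ω ∂μ + b ^ 2 * ∫ ω, g ω * g ω ∂μ := by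
  have h1 := (int_mul hf hf hf' hf').const_mul (a ^ 2)
  have h2 := (int_mul hf hg hf' hg').const_mul (2 * a * b)
  have h3 := (int_mul hg hg hg' hg').const_mul (b ^ 2)
  have h4 : Integrable (fun ω => a ^ 2 * (f ω * f ω) + 2 * a * b * (f ω * g ω)) μ := h1.add h2
  rw [← integral_const_mul, ← integral_const_mul, ← integral_const_mul,
    ← integral_add h1 h2, ← integral_add h4 h3]
  refine integral_congr_ae (Eventually.of_forall fun ω => ?_)
  ring

theorem ae_zero {g : ℕ → Ω → ℝ} (hg : ∀ k, Integrable (fun ω => g k ω * g k ω) μ)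
    (hb : ∀ k, ∫ ω, g k ω * g k ω ∂μ ≤ (1 / 2) ^ k) :
    ∀ᵐ ω ∂μ, Tendsto (fun k => g k ω) atTop (𝓝 0) := by
  have hm : ∀ k, AEMeasurable (fun ω => ENNReal.ofReal (g k ω * g k ω)) μ := fun k =>
    (hg k).aestronglyMeasurable.aemeasurable.ennreal_ofReal
  have h1 : ∫⁻ ω, ∑' k, ENNReal.ofReal (g k ω * g k ω) ∂μ ≠ ⊤ := by
    rw [lintegral_tsum hm]
    refine ne_top_of_le_ne_top (b := ∑' k : ℕ, ENNReal.ofReal ((1 / 2 : ℝ) ^ k)) ?_
      (ENNReal.tsum_le_tsum fun k => ?_)
    · rw [← ENNReal.ofReal_tsum_of_nonneg (fun k => by positivity) summable_geometric_two]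
      exact ENNReal.ofReal_ne_top
    · rw [← ofReal_integral_eq_lintegral_ofReal (hg k)
        (Eventually.of_forall fun ω => mul_self_nonneg _)]
      exact ENNReal.ofReal_le_ofReal (hb k)
  filter_upwards [ae_lt_top' (AEMeasurable.tsum hm) h1] with ω hω
  have h2 := (ENNReal.tendsto_toReal ENNReal.zero_ne_top).comp
    (ENNReal.tendsto_atTop_zero_of_tsum_ne_top hω.ne)
  have h3 : Tendsto (fun k => g k ω * g k ω) atTop (𝓝 0) :=
    h2.congr fun k => ENNReal.toReal_ofReal (mul_self_nonneg _)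
  rw [tendsto_zero_iff_abs_tendsto_zero]
  have h4 := h3.sqrt
  rw [Real.sqrt_zero] at h4
  exact h4.congr fun k => Real.sqrt_mul_self_eq_abs _

variable {V : Type} [AddCommGroup V] [Module ℝ V]

omit [MeasurableSpace Ω] in
theorem hull_bd (L : V →ₗ[ℝ] (Ω → ℝ)) {t : ℕ → V} {C : ℝ} (h : ∀ k ω, |L (t k) ω| ≤ C)
    {S : Set ℕ} {v : V} (hv : v ∈ convexHull ℝ (t '' S)) (ω : Ω) : |L v ω| ≤ C := by
  let e : V →ₗ[ℝ] ℝ := LinearMap.proj ω ∘ₗ L
  have := convexHull_min (t := e ⁻¹' Icc (-C) C) (by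
    rintro _ ⟨i, -, rfl⟩
    exact abs_le.1 (h i ω)) ((convex_Icc _ _).linear_preimage e) hv
  exact abs_le.2 this

theorem small [IsFiniteMeasure μ] (L : ℕ → V →ₗ[ℝ] (Ω → ℝ)) (t : ℕ → V)
    (hm : ∀ i v, AEStronglyMeasurable (L i v) μ) (C : ℕ → ℝ) (hC : ∀ i k ω, |L i (t k) ω| ≤ C i)
    (hw : ∀ i (ψ : Ω → ℝ), AEStronglyMeasurable ψ μ → (∃ C, ∀ ω, |ψ ω| ≤ C) →
      Tendsto (fun k => ∫ ω, ψ ω * L i (t k) ω ∂μ) atTop (𝓝 0)) (n N : ℕ) {ε : ℝ} (hε : 0 < ε) :
    ∃ s ∈ convexHull ℝ (t '' Ici n), ∑ i ∈ Finset.range N, ∫ ω, L i s ω * L i s ω ∂μ ≤ ε := by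
  set D := ∑ i ∈ Finset.range N, C i * C i * μ.real univ with hD
  have hQ : ∀ k, ∑ i ∈ Finset.range N, ∫ ω, L i (t k) ω * L i (t k) ω ∂μ ≤ D := fun k =>
    Finset.sum_le_sum fun i _ => int_le (hm i _) (hC i k)
  have key : ∀ m : ℕ, ∃ s ∈ convexHull ℝ (t '' Ici n),
      ((m : ℝ) + 1) * ∑ i ∈ Finset.range N, ∫ ω, L i s ω * L i s ω ∂μ ≤ D + 1 := by
    intro m
    induction m with
    | zero => exact ⟨t n, subset_convexHull ℝ _ ⟨n, self_mem_Ici, rfl⟩, by
        have := hQ n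
        simp only [Nat.cast_zero, zero_add, one_mul]
        linarith⟩
    | succ m ih =>
      obtain ⟨s, hs, hb⟩ := ih
      have h0 : Tendsto (fun k => 2 * ((m : ℝ) + 1) *
          ∑ i ∈ Finset.range N, ∫ ω, L i s ω * L i (t k) ω ∂μ) atTop (𝓝 0) := by
        have := (tendsto_finsetSum (Finset.range N) fun i _ =>
          hw i (L i s) (hm i s) ⟨C i, hull_bd (L i) (hC i) hs⟩).const_mul (2 * ((m : ℝ) + 1))
        simpa using this
      obtain ⟨k, hk, hk'⟩ := ((h0.eventually (gt_mem_nhds zero_lt_one)).and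
        (eventually_ge_atTop n)).exists
      have hp : (0 : ℝ) < (m : ℝ) + 2 := by positivity
      refine ⟨(((m : ℝ) + 1) / (m + 2)) • s + (1 / ((m : ℝ) + 2)) • t k,
        convex_convexHull ℝ _ hs (subset_convexHull ℝ _ ⟨k, hk', rfl⟩) (by positivity)
          (by positivity) (by field_simp; ring), ?_⟩
      simp only [map_add, map_smul, Pi.add_apply, Pi.smul_apply, smul_eq_mul]
      rw [Finset.sum_congr rfl fun i _ => expand (hm i s) (hm i (t k))
        (hull_bd (L i) (hC i) hs) (hC i k) _ _, Finset.sum_add_distrib, Finset.sum_add_distrib,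
        ← Finset.mul_sum, ← Finset.mul_sum, ← Finset.mul_sum]
      have h1 := hQ k
      set X := ∑ i ∈ Finset.range N, ∫ ω, L i s ω * L i s ω ∂μ
      set Y := ∑ i ∈ Finset.range N, ∫ ω, L i s ω * L i (t k) ω ∂μ
      set Z := ∑ i ∈ Finset.range N, ∫ ω, L i (t k) ω * L i (t k) ω ∂μ
      have e : (((m + 1 : ℕ) : ℝ) + 1) * ((((m : ℝ) + 1) / (m + 2)) ^ 2 * X +
          2 * (((m : ℝ) + 1) / (m + 2)) * (1 / ((m : ℝ) + 2)) * Y + (1 / ((m : ℝ) + 2)) ^ 2 * Z) =
          ((m + 1) * ((m + 1) * X) + 2 * (m + 1) * Y + Z) / (m + 2) := by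
        push_cast
        field_simp
        ring
      rw [e, div_le_iff₀ hp]
      have h2 := mul_le_mul_of_nonneg_left hb (by positivity : (0 : ℝ) ≤ (m : ℝ) + 1)
      nlinarith
  obtain ⟨m, hm'⟩ := exists_nat_ge ((D + 1) / ε)
  obtain ⟨s, hs, hb⟩ := key m
  refine ⟨s, hs, le_of_mul_le_mul_left (hb.trans ?_) (by positivity : (0 : ℝ) < (m : ℝ) + 1)⟩
  rw [div_le_iff₀ hε] at hm'
  nlinarith

end MZx

theorem p_MZ : S_MZ := by
  intro Ω _ μ _ V _ _ L t hm hC hw
  choose C hC using hC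
  choose s hs hb using fun n =>
    MZx.small L t hm C hC hw n n (by positivity : (0 : ℝ) < (1 / 2) ^ n)
  refine ⟨s, hs, fun i => ?_⟩
  have hi : ∀ j k, Integrable (fun ω => L j (s k) ω * L j (s k) ω) μ := fun j k =>
    MZx.int_mul (hm j _) (hm j _) (MZx.hull_bd (L j) (hC j) (hs k))
      (MZx.hull_bd (L j) (hC j) (hs k))
  have h := MZx.ae_zero (μ := μ) (g := fun k => L i (s (k + (i + 1)))) (fun k => hi i _) fun k => by
    refine le_trans (Finset.single_le_sum
      (f := fun j => ∫ ω, L j (s (k + (i + 1))) ω * L j (s (k + (i + 1))) ω ∂μ)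
      (fun j _ => integral_nonneg fun ω => mul_self_nonneg _)
      (Finset.mem_range.2 (by omega : i < k + (i + 1)))) ((hb _).trans ?_)
    exact pow_le_pow_of_le_one (by norm_num) (by norm_num) (by omega)
  filter_upwards [h] with ω hω
  exact (tendsto_add_atTop_iff_nat (i + 1)).1 hω

end Pool.Agent.P.MP_9aa8f2_an.WS

namespace Pool.Agent.P.MP_9aa8f2_an.WS

open MeasureTheory Filter Topology Set
open scoped RealInnerProductSpace

namespace WNx

variable {n : ℕ}

/-- A cut-off function: one on the unit ball, zero outside the ball of radius `3/2`. -/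
noncomputable def om (x : E n) : ℝ := min 1 (max 0 (3 - 2 * ‖x‖))

theorem om_lip : ∃ K : NNReal, LipschitzWith K (om : E n → ℝ) := by
  have h : ∃ K : NNReal, LipschitzWith K fun x : E n => 3 - 2 * ‖x‖ := by
    refine lip_of_abs_le (K := 2) (by norm_num) fun x y => ?_
    have e : 3 - 2 * ‖x‖ - (3 - 2 * ‖y‖) = -2 * (‖x‖ - ‖y‖) := by ring
    rw [e, abs_mul, dist_eq_norm]
    have := abs_norm_sub_norm_le x y
    norm_num
    linarith
  obtain ⟨K, hK⟩ := h
  exact ⟨K, (hK.const_max 0).const_min 1⟩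

theorem om_abs (x : E n) : |om x| ≤ 1 := by
  rw [abs_le]
  exact ⟨le_min (by norm_num) ((by norm_num : (-1 : ℝ) ≤ 0).trans (le_max_left _ _)),
    min_le_left _ _⟩

theorem om_one {x : E n} (hx : ‖x‖ < 1) : om x = 1 :=
  min_eq_left (le_max_of_le_right (by linarith))

theorem om_zero {x : E n} (hx : 3 / 2 ≤ ‖x‖) : om x = 0 := by
  rw [om, max_eq_left (by linarith), min_eq_right zero_le_one]

theorem mul_lip {χ : E n → ℝ} (h : Cut χ) :
    ∃ K : NNReal, LipschitzWith K fun x => χ x * om x := by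
  obtain ⟨⟨K, hK⟩, h1, -⟩ := h
  obtain ⟨L, hL⟩ := om_lip (n := n)
  refine lip_of_abs_le (K := L + K) (by positivity) fun a b => ?_
  have e : χ a * om a - χ b * om b = χ a * (om a - om b) + (χ a - χ b) * om b := by ring
  have h2 := hK.dist_le_mul a b
  have h3 := hL.dist_le_mul a b
  rw [Real.dist_eq] at h2 h3
  rw [e]
  refine (abs_add_le _ _).trans ?_
  rw [abs_mul, abs_mul]
  have h4 : |χ a| * |om a - om b| ≤ 1 * (L * dist a b) :=
    mul_le_mul (h1 a) h3 (abs_nonneg _) zero_le_one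
  have h5 : |χ a - χ b| * |om b| ≤ K * dist a b * 1 :=
    mul_le_mul h2 (om_abs b) (abs_nonneg _) (by positivity)
  linarith

/-- Lebesgue measure on the ball of radius two. -/
noncomputable abbrev nu (n : ℕ) : Measure (E n) := volume.restrict (Metric.ball 0 2)

instance : IsFiniteMeasure (nu n) := isFiniteMeasure_restrict.2 measure_ball_lt_top.ne

theorem ae_nu : ∀ᵐ x ∂nu n, ‖x‖ < 2 :=
  (ae_restrict_mem Metric.isOpen_ball.measurableSet).mono fun _ hx => mem_ball_zero_iff.1 hx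

theorem cut_tendsto (h : ℕ → Lip0 (0 : E n)) (q : E n) (C : ℝ)
    (hb : ∀ k x, ‖x‖ < 2 → |(h k).1 x| ≤ C)
    (h0 : ∀ᵐ x, ‖x‖ < 2 → Tendsto (fun k => (h k).1 x) atTop (𝓝 0)) {χ : E n → ℝ} (hχ : Cut χ) :
    Tendsto (fun k => ∫ x, χ x * (om x * lam x q (h k)) ∂nu n) atTop (𝓝 0) := by
  obtain ⟨K, hK⟩ := mul_lip hχ
  have hz : ∀ x : E n, 3 / 2 ≤ ‖x‖ → χ x * om x = 0 := fun x hx => by rw [om_zero hx, mul_zero]
  have hc : HasCompactSupport fun x => χ x * om x := by
    refine HasCompactSupport.intro (isCompact_closedBall (0 : E n) 2) fun x hx => hz x ?_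
    rw [mem_closedBall_zero_iff, not_le] at hx
    linarith
  have hd : ∀ x : E n, x ∉ Metric.ball (0 : E n) 2 →
      lineDeriv ℝ (fun x => χ x * om x) x (-q) = 0 := by
    intro x hx
    rw [mem_ball_zero_iff, not_lt] at hx
    have he : (fun x => χ x * om x) =ᶠ[𝓝 x] fun _ => (0 : ℝ) := by
      have : ∀ᶠ y in 𝓝 x, 3 / 2 < ‖y‖ :=
        continuous_norm.continuousAt.eventually (lt_mem_nhds (by linarith))
      exact this.mono fun y hy => hz y hy.le
    rw [he.lineDeriv_eq]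
    simp [lineDeriv]
  have e : ∀ k, ∫ x, χ x * (om x * lam x q (h k)) ∂nu n =
      ∫ x, lineDeriv ℝ (fun x => χ x * om x) x (-q) * (h k).1 x ∂nu n := by
    intro k
    rw [setIntegral_eq_integral_of_forall_compl_eq_zero, setIntegral_eq_integral_of_forall_compl_eq_zero,
      ← (lipschitzWith_ln (h k)).integral_lineDeriv_mul_eq hK hc q]
    · refine integral_congr_ae ((ae_diff (h k)).mono fun x hx => ?_)
      simp only
      rw [lam_of_diff hx, hx.lineDeriv_eq_fderiv]
      ring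
    · intro x hx
      rw [hd x hx, zero_mul]
    · intro x hx
      rw [mem_ball_zero_iff, not_lt] at hx
      rw [← mul_assoc, hz x (by linarith), zero_mul]
  simp only [e]
  have := tendsto_integral_of_dominated_convergence (μ := nu n)
    (F := fun k x => lineDeriv ℝ (fun x => χ x * om x) x (-q) * (h k).1 x) (f := fun _ => (0 : ℝ))
    (fun _ => K * ‖-q‖ * C)
    (fun k => (measurable_lineDeriv hK.continuous).aestronglyMeasurable.mul
      (lipschitzWith_ln (h k)).continuous.aestronglyMeasurable)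
    (integrable_const _)
    (fun k => ae_nu.mono fun x hx => by
      rw [norm_mul]
      exact mul_le_mul (norm_lineDeriv_le_of_lipschitz ℝ hK) (hb k x hx) (norm_nonneg _)
        (by positivity))
    (by
      filter_upwards [ae_nu, ae_restrict_of_ae h0] with x hx hx'
      simpa using (hx' hx).const_mul (lineDeriv ℝ (fun x => χ x * om x) x (-q)))
  simpa using this

end WNx

open WNx in
theorem p_WN (h : S_DYN) : S_WN := by
  intro n f q C hb h0 ψ hψ ⟨D, hD⟩
  have hm : ∀ k, AEStronglyMeasurable (fun x => om x * lam x q (f k)) (nu n) := fun k => by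
    obtain ⟨L, hL⟩ := om_lip (n := n)
    exact hL.continuous.aestronglyMeasurable.mul (lam_aemeas (f k) q).restrict
  have hw : ∀ k, ∀ᵐ x ∂nu n, ‖om x * lam x q (f k)‖ ≤ C := fun k => ae_nu.mono fun x hx => by
    rw [norm_mul, ← one_mul C]
    exact mul_le_mul (om_abs x) (hb k x hx).2 (norm_nonneg _) zero_le_one
  have hi : ∀ k (φ : BM n), Integrable (fun x => φ.1 x * (om x * lam x q (f k))) (nu n) :=
    fun k φ => (BM.integrable φ (nu n)).mul_bdd (hm k) (hw k)
  let l : ℕ → BM n →ₗ[ℝ] ℝ := fun k =>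
    { toFun := fun φ => ∫ x, φ.1 x * (om x * lam x q (f k)) ∂nu n
      map_add' := fun φ φ' => by
        rw [← integral_add (hi k φ) (hi k φ')]
        simp only [Submodule.coe_add, Pi.add_apply, add_mul]
      map_smul' := fun c φ => by
        simp only [Submodule.coe_smul, Pi.smul_apply, smul_eq_mul, mul_assoc, RingHom.id_apply]
        rw [integral_const_mul] }
  have key := h n (nu n) l C (fun k φ => by
      rw [← integral_const_mul, ← Real.norm_eq_abs]
      show ‖∫ x, φ.1 x * (om x * lam x q (f k)) ∂nu n‖ ≤ _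
      refine norm_integral_le_of_norm_le ((BM.integrable φ (nu n)).abs.const_mul C) ?_
      refine (hw k).mono fun x hx => ?_
      rw [norm_mul, mul_comm]
      exact mul_le_mul_of_nonneg_right hx (norm_nonneg _))
    (fun s r => cut_tendsto f q C (fun k x hx => (hb k x hx).1) h0 (tent_cut s r))
  have hD0 : 0 ≤ D := (abs_nonneg _).trans (hD 0)
  have hB : MeasurableSet (Metric.ball (0 : E n) 1) := Metric.isOpen_ball.measurableSet
  let φ : BM n := ⟨(Metric.ball (0 : E n) 1).indicator fun x => max (-D) (min D (hψ.mk ψ x)),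
    (measurable_const.max (measurable_const.min hψ.stronglyMeasurable_mk.measurable)).indicator hB,
    D, fun y => by
      by_cases hy : y ∈ Metric.ball (0 : E n) 1
      · rw [indicator_of_mem hy, abs_le]
        exact ⟨le_max_left _ _, max_le (by linarith) (min_le_left _ _)⟩
      · rw [indicator_of_notMem hy, abs_zero]
        exact hD0⟩
  refine (key φ).congr fun k => ?_
  show ∫ x, (Metric.ball (0 : E n) 1).indicator (fun x => max (-D) (min D (hψ.mk ψ x))) x *
    (om x * lam x q (f k)) ∂nu n = _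
  have e : ∀ x, (Metric.ball (0 : E n) 1).indicator (fun x => max (-D) (min D (hψ.mk ψ x))) x *
      (om x * lam x q (f k)) = (Metric.ball (0 : E n) 1).indicator
        (fun x => max (-D) (min D (hψ.mk ψ x)) * (om x * lam x q (f k))) x := fun x =>
    (indicator_mul_left _ _ fun x => om x * lam x q (f k)).symm
  simp only [e]
  rw [integral_indicator hB, Measure.restrict_restrict hB,
    inter_eq_left.2 (Metric.ball_subset_ball (by norm_num))]
  refine integral_congr_ae ?_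
  filter_upwards [hψ.ae_eq_mk, ae_restrict_mem hB] with x hx hx'
  rw [← hx, om_one (mem_ball_zero_iff.1 hx'), one_mul, min_eq_right (abs_le.1 (hD x)).2,
    max_eq_right (abs_le.1 (hD x)).1]

end Pool.Agent.P.MP_9aa8f2_an.WS

namespace Pool.Agent.P.MP_9aa8f2_an.WS

open MeasureTheory Filter Topology Set
open scoped RealInnerProductSpace

theorem p_MZL (h1 : S_MZ) (h2 : S_WN) : S_MZL := by
  intro n V _ _ I _ U q t hN
  rcases isEmpty_or_nonempty I with hI | hI
  · refine ⟨t, fun k => subset_convexHull ℝ _ ⟨k, mem_Ici.2 le_rfl, rfl⟩, ?_⟩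
    exact Eventually.of_forall fun x i => isEmptyElim i
  obtain ⟨e, he⟩ := exists_surjective_nat I
  have : IsFiniteMeasure (vb n) :=
    isFiniteMeasure_restrict.2 measure_ball_lt_top.ne
  let L : ℕ → V →ₗ[ℝ] (E n → ℝ) := fun i =>
    LinearMap.pi fun x => lam x (q (e i)) ∘ₗ U (e i)
  obtain ⟨t', ht, hc⟩ := h1 (E n) (vb n) V L t
    (fun i v => (lam_aemeas (U (e i) v) (q (e i))).restrict)
    (fun i => by
      obtain ⟨⟨C, hC⟩, -⟩ := hN (e i)
      exact ⟨C * ‖q (e i)‖, fun k x => (lam_bound x _ _).trans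
        (mul_le_mul_of_nonneg_right (hC k) (norm_nonneg _))⟩)
    (fun i ψ hψ hb => by
      obtain ⟨⟨C, hC⟩, h0⟩ := hN (e i)
      have hC0 : 0 ≤ C := (ln_nonneg _).trans (hC 0)
      refine h2 n (fun k => U (e i) (t k)) (q (e i)) (C * 2 + C * ‖q (e i)‖)
        (fun k x hx => ⟨?_, ?_⟩) (Eventually.of_forall fun x _ => h0 x) ψ hψ hb
      · have h3 := abs_le_ln (U (e i) (t k)) x
        rw [dist_zero_right] at h3
        have h4 : ln (U (e i) (t k)) * ‖x‖ ≤ C * 2 :=
          mul_le_mul (hC k) hx.le (norm_nonneg _) hC0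
        have h5 : 0 ≤ C * ‖q (e i)‖ := mul_nonneg hC0 (norm_nonneg _)
        linarith
      · have h3 := (lam_bound x (q (e i)) (U (e i) (t k))).trans
          (mul_le_mul_of_nonneg_right (hC k) (norm_nonneg _))
        linarith)
  refine ⟨t', ht, ?_⟩
  filter_upwards [ae_all_iff.2 hc] with x hx i
  obtain ⟨j, rfl⟩ := he i
  exact hx j

end Pool.Agent.P.MP_9aa8f2_an.WS

namespace Pool.Agent.P.MP_9aa8f2_an.WS

open MeasureTheory Filter Topology Set
open scoped RealInnerProductSpace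

namespace MOLx

theorem avg_ge {n : ℕ} (φ : ContDiffBump (0 : E n)) {H : E n → ℝ} (hH : Continuous H) {b : ℝ}
    (h : ∀ z, ‖z‖ < φ.rOut → b ≤ H z) : b ≤ ∫ z, φ.normed volume z * H z := by
  have h1 : b = ∫ z, φ.normed volume z * b := by
    rw [integral_mul_const, φ.integral_normed, one_mul]
  have hi : Integrable (fun z => φ.normed volume z * H z) :=
    (φ.continuous_normed.mul hH).integrable_of_hasCompactSupport
      (φ.hasCompactSupport_normed.mul_right)
  rw [h1]
  refine integral_mono (φ.integrable_normed.mul_const b) hi fun z => ?_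
  by_cases hz : ‖z‖ < φ.rOut
  · exact mul_le_mul_of_nonneg_left (h z hz) (φ.nonneg_normed z)
  · have : φ.normed volume z = 0 := by
      by_contra hne
      have hm : z ∈ Function.support (φ.normed volume) := hne
      rw [φ.support_normed_eq, mem_ball_zero_iff] at hm
      exact hz hm
    simp only [this, zero_mul, le_refl]

end MOLx

theorem p_MOL : S_MOL := by
  intro n F hF δ hδ
  let φ : ContDiffBump (0 : E n) := ⟨δ / 2, δ, half_pos hδ, half_lt_self hδ⟩
  have hi : ∀ y, Integrable (fun z => φ.normed volume z * F (y - z)) := fun y =>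
    (φ.continuous_normed.mul (hF.comp (continuous_const.sub continuous_id))).integrable_of_hasCompactSupport
      (φ.hasCompactSupport_normed.mul_right)
  refine ⟨fun y => ∫ z, φ.normed volume z * F (y - z), ?_, fun y y' b h => ?_, fun y b h => ?_,
    fun y b h => ?_⟩
  · have := HasCompactSupport.contDiff_convolution_left (μ := volume) (n := 1)
      (ContinuousLinearMap.lsmul ℝ ℝ) φ.hasCompactSupport_normed
      (φ.contDiff_normed (μ := volume) (n := 1)) (hF.locallyIntegrable (μ := volume))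
    exact this
  · have := MOLx.avg_ge φ (H := fun z => F (y' - z) - F (y - z))
      ((hF.comp (continuous_const.sub continuous_id)).sub
        (hF.comp (continuous_const.sub continuous_id))) h
    simp only [mul_sub] at this
    rwa [integral_sub (hi y') (hi y)] at this
  · exact MOLx.avg_ge φ (H := fun z => F (y - z)) (hF.comp (continuous_const.sub continuous_id)) h
  · have := MOLx.avg_ge φ (H := fun z => -F (y - z)) (b := -b)
      (hF.comp (continuous_const.sub continuous_id)).neg fun z hz => neg_le_neg (h z hz)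
    simp only [mul_neg, integral_neg] at this
    exact neg_le_neg_iff.1 this

end Pool.Agent.P.MP_9aa8f2_an.WS

namespace Pool.Agent.P.MP_9aa8f2_an.WS

open MeasureTheory Filter Topology Set
open scoped RealInnerProductSpace

namespace APXx

theorem ext {n : ℕ} {α : Type} [MetricSpace α] {ι : α → E n} (hι : Isometry ι) {p : α}
    (f : Lip0 p) : ∃ F0 : E n → ℝ, LipschitzWith ⟨ln f, ln_nonneg f⟩ F0 ∧
      ∀ a, F0 (ι a) = f.1 a := by
  have : Nonempty α := ⟨p⟩
  have hl := Function.leftInverse_invFun hι.injective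
  have h : LipschitzOnWith ⟨ln f, ln_nonneg f⟩ (fun y => f.1 (Function.invFun ι y)) (range ι) := by
    refine LipschitzOnWith.of_dist_le_mul ?_
    rintro _ ⟨a, rfl⟩ _ ⟨b, rfl⟩
    rw [hl, hl, hι.dist_eq, Real.dist_eq]
    exact abs_sub_le_ln f a b
  obtain ⟨g, hg, he⟩ := h.extend_real
  exact ⟨g, hg, fun a => by rw [← he ⟨a, rfl⟩]; simp only [hl a]⟩

theorem clamp {n : ℕ} {L : NNReal} {F0 : E n → ℝ} (hF : LipschitzWith L F0) {x : E n}
    (h0 : F0 x = 0) (r : ℝ) : ∃ F1 : E n → ℝ, LipschitzWith L F1 ∧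
      (∀ y, dist y x ≤ r → F1 y = F0 y) ∧ ∀ y, 2 * r ≤ dist y x → F1 y = 0 := by
  set c : E n → ℝ := fun y => L * max 0 (2 * r - dist y x) with hc
  have hL : (0 : ℝ) ≤ L := L.2
  have h1 : LipschitzWith L c := by
    refine LipschitzWith.of_dist_le_mul fun a b => ?_
    rw [Real.dist_eq, hc, ← mul_sub, abs_mul, abs_of_nonneg hL]
    refine mul_le_mul_of_nonneg_left ?_ hL
    refine (abs_max_sub_max_le_max _ _ _ _).trans (max_le (by simp) ?_)
    have := abs_dist_sub_le b a x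
    rw [dist_comm b a] at this
    rwa [show 2 * r - dist a x - (2 * r - dist b x) = dist b x - dist a x by ring]
  refine ⟨fun y => max (-c y) (min (F0 y) (c y)), ?_, fun y hy => ?_, fun y hy => ?_⟩
  · simpa using h1.neg.max (hF.min h1)
  · have h2 := hF.dist_le_mul y x
    rw [Real.dist_eq, h0, sub_zero, abs_le] at h2
    have h3 : L * dist y x ≤ c y :=
      mul_le_mul_of_nonneg_left (le_max_of_le_right (by linarith)) hL
    simp only
    rw [min_eq_left (by linarith), max_eq_right (by linarith)]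
  · have h3 : c y = 0 := by
      simp only [hc]
      rw [max_eq_left (by linarith), mul_zero]
    simp only [h3, neg_zero]
    exact max_eq_left (min_le_right _ _)

theorem smooth (h : S_MOL) {n : ℕ} {L : NNReal} {F1 : E n → ℝ} (hF : LipschitzWith L F1)
    {x : E n} {r : ℝ} (h0 : ∀ y, r ≤ dist y x → F1 y = 0) {δ : ℝ} (hδ : 0 < δ) :
    ∃ G : E n → ℝ, ContDiff ℝ 1 G ∧ LipschitzWith L G ∧ (∀ y, |G y - F1 y| ≤ L * δ) ∧
      ∀ y, r + δ + ‖x‖ ≤ ‖y‖ → G y = 0 := by
  obtain ⟨G, g0, g1, g2, g3⟩ := h n F1 hF.continuous δ hδ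
  have hL : (0 : ℝ) ≤ L := L.2
  have near : ∀ y z : E n, ‖z‖ < δ → |F1 (y - z) - F1 y| ≤ L * δ := fun y z hz => by
    have := hF.dist_le_mul (y - z) y
    rw [Real.dist_eq, dist_eq_norm, sub_sub_cancel_left, norm_neg] at this
    exact this.trans (mul_le_mul_of_nonneg_left hz.le hL)
  refine ⟨G, g0, LipschitzWith.of_le_add_mul _ fun a b => ?_, fun y => ?_, fun y hy => ?_⟩
  · have := g1 a b (-(L * dist a b)) fun z _ => by
      have := hF.dist_le_mul (a - z) (b - z)
      rw [dist_sub_right, Real.dist_eq, abs_le] at this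
      linarith [this.2]
    linarith
  · have h1 := g2 y (F1 y - L * δ) fun z hz => by linarith [(abs_le.1 (near y z hz)).1]
    have h2 := g3 y (F1 y + L * δ) fun z hz => by linarith [(abs_le.1 (near y z hz)).2]
    rw [abs_le]
    constructor <;> linarith
  · have hz : ∀ z : E n, ‖z‖ < δ → F1 (y - z) = 0 := fun z hz => h0 _ (by
      have h1 : ‖y‖ ≤ ‖y - z - x‖ + ‖x‖ + ‖z‖ := by
        calc ‖y‖ = ‖y - z - x + x + z‖ := by congr 1; abel
          _ ≤ _ := norm_add₃_le
      rw [dist_eq_norm]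
      linarith)
    exact le_antisymm (g3 y 0 fun z h => (hz z h).le) (g2 y 0 fun z h => (hz z h).ge)

end APXx

theorem p_APX (h : S_MOL) : S_APX := by
  intro n α _ ι hι p f
  obtain ⟨F0, hF0, e0⟩ := APXx.ext hι f
  have h0 : F0 (ι p) = 0 := by rw [e0, f.2.2]
  choose F1 l1 e1 z1 using fun k : ℕ => APXx.clamp hF0 h0 (k : ℝ)
  choose G cG lG aG zG using fun k : ℕ =>
    APXx.smooth h (l1 k) (z1 k) (δ := 1 / ((k : ℝ) + 1)) (by positivity)
  have hm : ∀ k y, (mk0 (G k)).1 y = G k y - G k 0 := fun k => mk0_apply ⟨_, lG k⟩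
  refine ⟨fun k => mk0 (G k), fun k => ⟨?_, ln_mk0 (lG k), ?_⟩, ⟨ln f + ln f, fun k => ?_⟩,
    fun a => ?_⟩
  · rw [show (mk0 (G k)).1 = fun y => G k y - G k 0 from funext (hm k)]
    exact (cG k).sub contDiff_const
  · exact ⟨_, -G k 0, fun y hy => by rw [hm, zG k y hy, zero_sub]⟩
  · exact (ln_sub _ _).trans (add_le_add ((ln_resL hι p _).trans (ln_mk0 (lG k))) le_rfl)
  · have t0 : Tendsto (fun k : ℕ => 2 * ln f * (1 / ((k : ℝ) + 1))) atTop (𝓝 0) := by
      simpa using tendsto_one_div_add_atTop_nhds_zero_nat.const_mul (2 * ln f)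
    refine squeeze_zero_norm' ?_ t0
    filter_upwards [(tendsto_natCast_atTop_atTop (R := ℝ)).eventually_ge_atTop
      (dist (ι a) (ι p))] with k hk
    have a1 := aG k (ι a)
    have a2 := aG k (ι p)
    rw [e1 k _ hk, e0] at a1
    rw [e1 k _ (by simp), h0] at a2
    have e : (resL hι p (mk0 (G k)) - f).1 a = (G k (ι a) - f.1 a) - (G k (ι p) - 0) := by
      simp only [Submodule.coe_sub, Pi.sub_apply, resL_apply, hm]
      ring
    rw [Real.norm_eq_abs, e]
    refine (abs_sub _ _).trans ?_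
    change _ ≤ ln f * _ at a1 a2
    linarith

end Pool.Agent.P.MP_9aa8f2_an.WS

namespace Pool.Agent.P.MP_9aa8f2_an.WS

open MeasureTheory Filter Topology Set
open scoped RealInnerProductSpace

namespace GAPXx

theorem conv {n : ℕ} (L : ℝ) : Convex ℝ {v : Lip0 (0 : E n) × ℝ |
    v.2 = 1 ∧ ContDiff ℝ 1 v.1.1 ∧ ln v.1 ≤ L ∧ CS id v.1.1} := by
  rintro v ⟨v1, v2, v3, R, c, v4⟩ w ⟨w1, w2, w3, R', c', w4⟩ a b ha hb hab
  refine ⟨by simp [v1, w1, hab], (v2.const_smul a).add (w2.const_smul b),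
    convex_ln L v3 w3 ha hb hab, max R R', a * c + b * c', fun y hy => ?_⟩
  change a * v.1.1 y + b * w.1.1 y = _
  rw [v4 y ((le_max_left _ _).trans hy), w4 y ((le_max_right _ _).trans hy)]

end GAPXx

theorem p_GAPX (h1 : S_APX) (h2 : S_MZL) : S_GAPX := by
  intro n α _ ι hι p A hA f
  obtain ⟨F, hF, hN⟩ := h1 n α ι hι p f
  let T : Lip0 (0 : E n) × ℝ →ₗ[ℝ] Lip0 p :=
    resL hι p ∘ₗ LinearMap.fst ℝ _ _ - (LinearMap.snd ℝ _ _).smulRight f
  have hT : ∀ v : Lip0 (0 : E n) × ℝ, v.2 = 1 → T v = resL hι p v.1 - f := fun v e => by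
    change resL hι p v.1 - v.2 • f = _
    rw [e, one_smul]
  have hN' : Null fun k => T (F k, 1) := by
    simpa only [fun k => hT (F k, 1) rfl] using hN
  obtain ⟨t, ht, hx⟩ := h2 n (Lip0 (0 : E n) × ℝ) (Fin n × Option (Finset (ℕ × ℕ) × ℕ))
    (fun i => i.2.elim (A ∘ₗ T) fun a => A ∘ₗ mulL hι (tent_cut a.1 a.2) p ∘ₗ T)
    (fun i => ev i.1) (fun k => (F k, 1)) (by
      rintro ⟨j, _ | a⟩
      · exact hA _ hN'
      · exact hA _ (hN'.mul hι (tent_cut a.1 a.2)))
  have hc := fun k => convexHull_min (by rintro _ ⟨i, -, rfl⟩; exact ⟨rfl, hF i⟩)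
    (GAPXx.conv (ln f)) (ht k)
  have e : ∀ k, resL hι p (t k).1 - f = T (t k) := fun k => (hT _ (hc k).1).symm
  refine hx.mono fun x hx => ⟨fun k => (t k).1, fun k => (hc k).2, ?_, fun j => ?_, fun j s r => ?_⟩
  · simp only [e]
    exact Null.hull T hN' ht
  · simp only [e]
    exact hx (j, none)
  · simp only [e]
    exact hx (j, some (s, r))

end Pool.Agent.P.MP_9aa8f2_an.WS
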