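import Pool.Agent.P.MP_9aa8f2_an.WB.B0

namespace Pool.Agent.P.MP_9aa8f2_an.WS

open MeasureTheory Filter Topology Set
open scoped RealInnerProductSpace

namespace WF1x

variable {n : ℕ}

/-- The ridge factor. -/
noncomputable def ra (p : E n) (t : ℝ) (N : ℕ) (y : E n) : ℝ :=
  Real.arctan (((N : ℝ) + 1) * (⟪p, y⟫ - t)) / ((N : ℝ) + 1)

theorem wf_eq (p : E n) (t : ℝ) (N : ℕ) (ζ : Bump n) :
    Wf p t N ζ = fun y => ra p t N y * ζ.f y := rfl

theorem ra_abs (p : E n) (t : ℝ) (N : ℕ) (y : E n) : |ra p t N y| ≤ 2 / ((N : ℝ) + 1) := by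
  have hM : (0 : ℝ) < (N : ℝ) + 1 := by positivity
  rw [ra, abs_div, abs_of_pos hM]
  refine div_le_div_of_nonneg_right ?_ hM.le
  have h1 := Real.arctan_lt_pi_div_two (((N : ℝ) + 1) * (⟪p, y⟫ - t))
  have h2 := Real.neg_pi_div_two_lt_arctan (((N : ℝ) + 1) * (⟪p, y⟫ - t))
  have h3 := Real.pi_le_four
  rw [abs_le]
  constructor <;> linarith

theorem arctan_lip (u v : ℝ) : |Real.arctan u - Real.arctan v| ≤ |u - v| := by
  have h : LipschitzWith 1 Real.arctan := by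
    refine lipschitzWith_of_nnnorm_deriv_le Real.differentiable_arctan fun x => ?_
    rw [← NNReal.coe_le_coe, coe_nnnorm, Real.deriv_arctan, Real.norm_eq_abs,
      abs_of_pos (by positivity), NNReal.coe_one, div_le_one (by positivity)]
    nlinarith [sq_nonneg x]
  have := h.dist_le_mul u v
  simpa [Real.dist_eq] using this

theorem ra_lip (p : E n) (t : ℝ) (N : ℕ) (y z : E n) :
    |ra p t N y - ra p t N z| ≤ ‖p‖ * dist y z := by
  have hM : (0 : ℝ) < (N : ℝ) + 1 := by positivity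
  rw [ra, ra, ← sub_div, abs_div, abs_of_pos hM, div_le_iff₀ hM]
  refine (arctan_lip _ _).trans ?_
  have e : ((N : ℝ) + 1) * (⟪p, y⟫ - t) - ((N : ℝ) + 1) * (⟪p, z⟫ - t) =
      ((N : ℝ) + 1) * ⟪p, y - z⟫ := by
    rw [inner_sub_right]; ring
  rw [e, abs_mul, abs_of_pos hM, dist_eq_norm, mul_comm]
  exact mul_le_mul_of_nonneg_right (abs_real_inner_le_norm p (y - z)) hM.le

theorem wf_bound (p : E n) (t : ℝ) (N : ℕ) (ζ : Bump n) (y z : E n) :
    |Wf p t N ζ y - Wf p t N ζ z| ≤ (‖p‖ + 2 * ζ.K / ((N : ℝ) + 1)) * dist y z := by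
  have e : Wf p t N ζ y - Wf p t N ζ z =
      (ra p t N y - ra p t N z) * ζ.f y + ra p t N z * (ζ.f y - ζ.f z) := by
    simp only [wf_eq]; ring
  have h2 : |ζ.f y - ζ.f z| ≤ ζ.K * dist y z := by
    have := ζ.lip.dist_le_mul y z
    rwa [Real.dist_eq] at this
  have h3 : |ra p t N y - ra p t N z| * |ζ.f y| ≤ ‖p‖ * dist y z * 1 :=
    mul_le_mul (ra_lip p t N y z) (ζ.bd y) (abs_nonneg _) (by positivity)
  have h4 : |ra p t N z| * |ζ.f y - ζ.f z| ≤ 2 / ((N : ℝ) + 1) * (ζ.K * dist y z) :=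
    mul_le_mul (ra_abs p t N z) h2 (abs_nonneg _) (by positivity)
  rw [e]
  refine (abs_add_le _ _).trans ?_
  rw [abs_mul, abs_mul]
  refine (add_le_add h3 h4).trans (le_of_eq ?_)
  ring

theorem wf_lip (p : E n) (t : ℝ) (N : ℕ) (ζ : Bump n) :
    ∃ K : NNReal, LipschitzWith K (Wf p t N ζ) :=
  ⟨⟨‖p‖ + 2 * ζ.K / ((N : ℝ) + 1), by positivity⟩, LipschitzWith.of_dist_le_mul fun y z => by
    rw [Real.dist_eq]; exact wf_bound p t N ζ y z⟩

theorem w_eq (p : E n) (t : ℝ) (N : ℕ) (ζ : Bump n) :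
    (W p t N ζ).1 = fun y => ra p t N y * ζ.f y - Wf p t N ζ 0 :=
  funext fun y => mk0_apply (wf_lip p t N ζ) y

theorem w_ln (p : E n) (t : ℝ) (ζ : Bump n) (N : ℕ) :
    ln (W p t N ζ) ≤ ‖p‖ + 2 * ζ.K / ((N : ℝ) + 1) := by
  refine ln_le (by positivity) fun a b => ?_
  rw [W, mk0_apply (wf_lip p t N ζ), mk0_apply (wf_lip p t N ζ), sub_sub_sub_cancel_right]
  exact wf_bound p t N ζ a b

theorem ra_cd (p : E n) (t : ℝ) (N : ℕ) : ContDiff ℝ 1 (ra p t N) := by
  have h1 : ContDiff ℝ 1 fun y : E n => ⟪p, y⟫ := (innerSL ℝ p).contDiff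
  exact (Real.contDiff_arctan.comp (contDiff_const.mul (h1.sub contDiff_const))).div_const _

theorem ra_fderiv (p : E n) (t : ℝ) (N : ℕ) (y : E n) :
    HasFDerivAt (ra p t N) ((1 / (1 + (((N : ℝ) + 1) * (⟪p, y⟫ - t)) ^ 2)) • innerSL ℝ p) y := by
  have hM : ((N : ℝ) + 1) ≠ 0 := by positivity
  have h1 : HasFDerivAt (fun y : E n => ⟪p, y⟫) (innerSL ℝ p) y := (innerSL ℝ p).hasFDerivAt
  have h2 := ((h1.sub_const t).const_mul ((N : ℝ) + 1)).arctan
  have h3 := h2.const_mul (((N : ℝ) + 1)⁻¹)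
  have e1 : ra p t N = fun y : E n =>
      ((N : ℝ) + 1)⁻¹ * Real.arctan (((N : ℝ) + 1) * (⟪p, y⟫ - t)) := by
    funext z; rw [ra, div_eq_inv_mul]
  rw [e1]
  refine h3.congr_fderiv ?_
  ext v
  simp only [smul_apply, smul_eq_mul]
  field_simp

theorem w_fderiv (p : E n) (t : ℝ) (N : ℕ) (ζ : Bump n) (y v : E n) :
    fderiv ℝ (W p t N ζ).1 y v = ra p t N y * fderiv ℝ ζ.f y v +
      ζ.f y * (1 / (1 + (((N : ℝ) + 1) * (⟪p, y⟫ - t)) ^ 2) * ⟪p, v⟫) := by
  have h1 : HasFDerivAt ζ.f (fderiv ℝ ζ.f y) y :=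
    (ζ.cd.differentiable one_ne_zero y).hasFDerivAt
  have h2 := ((ra_fderiv p t N y).mul h1).sub_const (Wf p t N ζ 0)
  rw [w_eq]
  have h3 := h2.fderiv
  simp only [Pi.mul_apply] at h3
  rw [h3]
  simp

theorem two_div : Tendsto (fun N : ℕ => 2 / ((N : ℝ) + 1)) atTop (𝓝 0) := by
  have := (tendsto_one_div_add_atTop_nhds_zero_nat (𝕜 := ℝ)).const_mul 2
  simpa [div_eq_mul_inv] using this

theorem ra_zero (p : E n) (t : ℝ) (y : E n) : Tendsto (fun N => ra p t N y) atTop (𝓝 0) :=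
  squeeze_zero_norm (fun N => ra_abs p t N y) two_div

theorem inv_zero {c : ℝ} (hc : c ≠ 0) :
    Tendsto (fun N : ℕ => 1 / (1 + (((N : ℝ) + 1) * c) ^ 2)) atTop (𝓝 0) := by
  have h1 : Tendsto (fun N : ℕ => ((N : ℝ) + 1)) atTop atTop :=
    tendsto_atTop_add_const_right _ _ tendsto_natCast_atTop_atTop
  have h2 : Tendsto (fun N : ℕ => 1 + (((N : ℝ) + 1) * c) ^ 2) atTop atTop := by
    refine tendsto_atTop_add_const_left _ _ ?_
    have h3 := ((tendsto_pow_atTop two_ne_zero).comp h1).atTop_mul_const (sq_pos_of_ne_zero hc)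
    refine h3.congr fun N => ?_
    simp only [Function.comp]
    ring
  exact h2.inv_tendsto_atTop.congr fun N => by simp only [Pi.inv_apply, one_div]

end WF1x

open WF1x in
theorem p_WF1 : S_WF1 := by
  intro n p t ζ
  have hcd : ∀ N, ContDiff ℝ 1 (W p t N ζ).1 := fun N => by
    rw [w_eq]
    exact ((ra_cd p t N).mul ζ.cd).sub contDiff_const
  refine ⟨w_ln p t ζ, hcd, fun N => ⟨ζ.R, -Wf p t N ζ 0, fun a ha => ?_⟩,
    ⟨⟨‖p‖ + 2 * ζ.K, fun N => (w_ln p t ζ N).trans ?_⟩, fun a => ?_⟩, fun y v => ?_,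
    fun N x q hx h1 => ?_⟩
  · rw [w_eq]
    simp only [ζ.supp a ha, mul_zero, zero_sub]
  · have h1 : (1 : ℝ) ≤ (N : ℝ) + 1 := by linarith [Nat.cast_nonneg (α := ℝ) N]
    have := div_le_self (a := 2 * (ζ.K : ℝ)) (by positivity) h1
    linarith
  · simp only [w_eq, wf_eq]
    simpa using ((ra_zero p t a).mul_const (ζ.f a)).sub ((ra_zero p t 0).mul_const (ζ.f 0))
  · simp only [w_fderiv]
    have h0 := (ra_zero p t y).mul_const (fderiv ℝ ζ.f y v)
    split_ifs with hy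
    · simpa [hy] using h0.add_const (ζ.f y * ⟪p, v⟫)
    · simpa using h0.add (((inv_zero (sub_ne_zero.2 hy)).mul_const ⟪p, v⟫).const_mul (ζ.f y))
  · rw [lam_of_diff ((hcd N).differentiable one_ne_zero x), w_fderiv, h1, ra, hx]
    simp

end Pool.Agent.P.MP_9aa8f2_an.WS

namespace Pool.Agent.P.MP_9aa8f2_an.WS

open MeasureTheory Filter Topology Set
open scoped RealInnerProductSpace

namespace WF2x

theorem mvt {f f' : ℝ → ℝ} {C : ℝ} (hf : ∀ u, HasDerivAt f (f' u) u) (hC : ∀ u, |f' u| ≤ C)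
    (u v : ℝ) : |f u - f v| ≤ C * |u - v| :=
  convex_univ.norm_image_sub_le_of_norm_hasDerivWithin_le (f := f) (f' := f')
    (fun x _ => (hf x).hasDerivWithinAt) (fun x _ => hC x) (mem_univ v) (mem_univ u)

noncomputable def A (M t u : ℝ) : ℝ := Real.arctan (M * (u - t)) / M

theorem A_deriv {M : ℝ} (hM : 0 < M) (t u : ℝ) :
    HasDerivAt (A M t) (1 / (1 + (M * (u - t)) ^ 2)) u := by
  have h := ((((hasDerivAt_id' u).sub_const t).const_mul M).arctan).div_const M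
  have e : 1 / (1 + (M * (u - t)) ^ 2) = 1 / (1 + (M * (u - t)) ^ 2) * (M * 1) / M := by
    field_simp
  rw [e]
  exact h

theorem A_lip {M : ℝ} (hM : 0 < M) (t u v : ℝ) : |A M t u - A M t v| ≤ |u - v| := by
  have := mvt (C := 1) (A_deriv hM t) (fun u => by
    rw [abs_of_pos (by positivity), div_le_one (by positivity)]
    nlinarith [sq_nonneg (M * (u - t))]) u v
  rwa [one_mul] at this

theorem A_shift {M : ℝ} (hM : 0 < M) (t t' u : ℝ) : |A M t u - A M t' u| ≤ |t - t'| := by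
  have := A_lip hM 0 (u - t) (u - t')
  simp only [A, sub_zero] at this ⊢
  rwa [show u - t - (u - t') = -(t - t') by ring, abs_neg] at this

theorem A_bd {M : ℝ} (hM : 1 ≤ M) (t u : ℝ) : |A M t u| ≤ 2 := by
  rw [A, abs_div, abs_of_pos (by linarith : 0 < M), div_le_iff₀ (by linarith), abs_le]
  have h1 := Real.arctan_lt_pi_div_two (M * (u - t))
  have h2 := Real.neg_pi_div_two_lt_arctan (M * (u - t))
  have h3 := Real.pi_le_four
  constructor <;> linarith

theorem inv_lip (a b : ℝ) : |1 / (1 + a ^ 2) - 1 / (1 + b ^ 2)| ≤ |a - b| := by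
  have e : 1 / (1 + a ^ 2) - 1 / (1 + b ^ 2) = -((a - b) * ((a + b) / ((1 + a ^ 2) * (1 + b ^ 2)))) := by
    field_simp
    ring
  rw [e, abs_neg, abs_mul]
  refine mul_le_of_le_one_right (abs_nonneg _) ?_
  rw [abs_div, abs_of_pos (by positivity : 0 < (1 + a ^ 2) * (1 + b ^ 2)),
    div_le_one (by positivity), abs_le]
  constructor <;> nlinarith [sq_nonneg (a * b), sq_nonneg (a - 1), sq_nonneg (a + 1),
    sq_nonneg (b - 1), sq_nonneg (b + 1), sq_nonneg a, sq_nonneg b]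

theorem A_mixed {M : ℝ} (hM : 0 < M) (t t' u v : ℝ) :
    |(A M t u - A M t' u) - (A M t v - A M t' v)| ≤ M * |t - t'| * |u - v| := by
  refine mvt (f := fun u => A M t u - A M t' u) (fun u => (A_deriv hM t u).sub (A_deriv hM t' u))
    (fun u => (inv_lip _ _).trans (le_of_eq ?_)) u v
  rw [show M * (u - t) - M * (u - t') = -(M * (t - t')) by ring, abs_neg, abs_mul, abs_of_pos hM]

variable {n : ℕ}

theorem inner_lip (p a b : E n) : |⟪p, a⟫ - ⟪p, b⟫| ≤ ‖p‖ * dist a b := by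
  rw [← inner_sub_right, dist_eq_norm]
  exact abs_real_inner_le_norm _ _

theorem prod_lip (ζ : Bump n) {g : E n → ℝ} {L B : ℝ} (hL : ∀ a b, |g a - g b| ≤ L * dist a b)
    (hB : ∀ a, |g a| ≤ B) (a b : E n) :
    |g a * ζ.f a - g b * ζ.f b| ≤ (L + B * ζ.K) * dist a b := by
  have h1 : |ζ.f a - ζ.f b| ≤ ζ.K * dist a b := by
    have := ζ.lip.dist_le_mul a b
    rwa [Real.dist_eq] at this
  rw [show g a * ζ.f a - g b * ζ.f b = (g a - g b) * ζ.f a + g b * (ζ.f a - ζ.f b) by ring]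
  refine (abs_add_le _ _).trans ?_
  rw [abs_mul, abs_mul]
  have h2 : |g a - g b| * |ζ.f a| ≤ L * dist a b * 1 :=
    mul_le_mul (hL a b) (ζ.bd a) (abs_nonneg _) ((abs_nonneg _).trans (hL a b))
  have h3 : |g b| * |ζ.f a - ζ.f b| ≤ B * (ζ.K * dist a b) :=
    mul_le_mul (hB b) h1 (abs_nonneg _) ((abs_nonneg _).trans (hB b))
  linarith

theorem Wf_lip (p : E n) (t : ℝ) (N : ℕ) (ζ : Bump n) :
    ∃ K : NNReal, LipschitzWith K (Wf p t N ζ) := by
  have hM : (1 : ℝ) ≤ (N : ℝ) + 1 := by linarith [Nat.cast_nonneg (α := ℝ) N]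
  refine ⟨⟨‖p‖ + 2 * ζ.K, by positivity⟩, LipschitzWith.of_dist_le_mul fun a b => ?_⟩
  rw [Real.dist_eq]
  exact prod_lip ζ (g := fun y => A ((N : ℝ) + 1) t ⟪p, y⟫)
    (fun a b => (A_lip (by linarith) t _ _).trans (inner_lip p a b)) (fun a => A_bd hM t _) a b

end WF2x

open WF2x in
theorem p_WF2 : S_WF2 := by
  intro n p N ζ
  have hM : (0 : ℝ) < (N : ℝ) + 1 := by positivity
  refine ⟨((N : ℝ) + 1) * ‖p‖ + ζ.K, by positivity, fun t t' => ln_le (by positivity) fun a b => ?_⟩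
  have h := prod_lip ζ (g := fun y => A ((N : ℝ) + 1) t ⟪p, y⟫ - A ((N : ℝ) + 1) t' ⟪p, y⟫)
    (L := ((N : ℝ) + 1) * |t - t'| * ‖p‖) (B := |t - t'|)
    (fun a b => (A_mixed hM t t' _ _).trans (by
      rw [mul_assoc _ ‖p‖]
      exact mul_le_mul_of_nonneg_left (inner_lip p a b) (by positivity)))
    (fun a => A_shift hM t t' _) a b
  simp only [Submodule.coe_sub, Pi.sub_apply, W, mk0_apply (Wf_lip p _ N ζ)]
  convert h using 2
  · simp only [Wf, A]
    ring
  · ring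

end Pool.Agent.P.MP_9aa8f2_an.WS

namespace Pool.Agent.P.MP_9aa8f2_an.WS

open MeasureTheory Filter Topology Set
open scoped RealInnerProductSpace

namespace XW0x

theorem meas_hyper {n : ℕ} (p : E n) (t : ℝ) : MeasurableSet {y : E n | ⟪p, y⟫ = t} :=
  (isClosed_eq (continuous_const.inner continuous_id) continuous_const).measurableSet

theorem sum_bound {n : ℕ} {V : Fin n → E n → ℝ} (hV : ∀ l y, |V l y| ≤ 1) (p y : E n) :
    |∑ l, p l * V l y| ≤ ∑ l, |p l| := by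
  refine (Finset.abs_sum_le_sum_abs _ _).trans (Finset.sum_le_sum fun l _ => ?_)
  rw [abs_mul]
  exact mul_le_of_le_one_right (abs_nonneg _) (hV l y)

end XW0x

open XW0x

theorem p_XW0 (h1 : S_DER) (h2 : S_WF1) : S_XW0 := by
  intro n β hβ
  obtain ⟨D⟩ := h1 n (E n) id isometry_id 0 Unit (fun _ => β) (fun _ => hβ)
  have := D.fin
  refine ⟨D.ν, D.V (), D.fin, D.Vm (), D.Vb (), fun p t ζ => ?_⟩
  obtain ⟨-, hc, hcs, hnull, hder, -⟩ := h2 n p t ζ
  have htot := D.tot () _ hnull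
  obtain ⟨⟨L, hL⟩, -⟩ := hnull
  have hΛ : ∀ N, D.Λ () (oneB n) (W p t N ζ) =
      ∫ y, ∑ l, D.V () l y * fderiv ℝ (W p t N ζ).1 y (ev l) ∂D.ν := by
    intro N
    have := D.sm () (oneB n) (W p t N ζ) (hc N)
    rw [resL_id] at this
    rw [this]
    simp only [oneB, one_mul]
  have hlim : Tendsto (fun N => ∫ y, ∑ l, D.V () l y * fderiv ℝ (W p t N ζ).1 y (ev l) ∂D.ν) atTop
      (𝓝 (∫ y in {y | ⟪p, y⟫ = t}, ζ.f y * ∑ l, p l * D.V () l y ∂D.ν)) := by
    rw [← integral_indicator (meas_hyper p t)]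
    refine tendsto_integral_of_dominated_convergence (fun _ => ∑ _l : Fin n, L) ?_
      (integrable_const _) ?_ ?_
    · intro N
      refine (Finset.measurable_sum _ fun l _ => (D.Vm () l).mul ?_).aestronglyMeasurable
      exact measurable_fderiv_apply_const ℝ _ _
    · intro N
      refine Eventually.of_forall fun y => ?_
      rw [Real.norm_eq_abs]
      refine (Finset.abs_sum_le_sum_abs _ _).trans (Finset.sum_le_sum fun l _ => ?_)
      rw [abs_mul]
      have h3 := fderiv_le_ln (W p t N ζ) y (ev l)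
      rw [norm_ev, mul_one] at h3
      exact (mul_le_of_le_one_left (abs_nonneg _) (D.Vb () l y)).trans (h3.trans (hL N))
    · refine Eventually.of_forall fun y => ?_
      have h4 := tendsto_finsetSum (Finset.univ : Finset (Fin n))
        fun l _ => (hder y (ev l)).const_mul (D.V () l y)
      convert h4 using 2
      by_cases hy : ⟪p, y⟫ = t
      · rw [indicator_of_mem (show y ∈ {y : E n | ⟪p, y⟫ = t} from hy), Finset.mul_sum]
        refine Finset.sum_congr rfl fun l _ => ?_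
        rw [if_pos hy, inner_ev]
        ring
      · rw [indicator_of_notMem (show y ∉ {y : E n | ⟪p, y⟫ = t} from hy)]
        simp [hy]
  have h5 := htot.add hlim
  rw [zero_add] at h5
  refine h5.congr fun N => ?_
  rw [D.farc () _ (hcs N), hΛ N]
  ring

theorem p_XW2 (h : S_XW0) : S_XW2 := by
  intro n β hβ x ζ hx hy
  obtain ⟨ν, V, hν, hVm, hVb, hT⟩ := h n β hβ
  refine ⟨fun l => ν.real {x} * V l x, fun p => ⟨_, fun i => hT p ⟪p, x⟫ (ζ i), ?_⟩⟩
  have e : ∑ l, p l * (ν.real {x} * V l x) =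
      ∫ y, ({x} : Set (E n)).indicator (fun y => ∑ l, p l * V l y) y ∂ν := by
    rw [integral_indicator (measurableSet_singleton x), integral_singleton, smul_eq_mul,
      Finset.mul_sum]
    exact Finset.sum_congr rfl fun l _ => by ring
  rw [e]
  simp only [← integral_indicator (meas_hyper p _)]
  refine tendsto_integral_of_dominated_convergence (fun _ => ∑ l, |p l|) ?_
    (integrable_const _) ?_ ?_
  · intro i
    refine (Measurable.indicator ?_ (meas_hyper p _)).aestronglyMeasurable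
    exact (ζ i).cd.continuous.measurable.mul
      (Finset.measurable_sum _ fun l _ => (hVm l).const_mul _)
  · intro i
    refine Eventually.of_forall fun y => ?_
    refine (norm_indicator_le_norm_self _ _).trans ?_
    rw [Real.norm_eq_abs, abs_mul]
    exact (mul_le_of_le_one_left (abs_nonneg _) ((ζ i).bd y)).trans (sum_bound hVb p y)
  · refine Eventually.of_forall fun y => ?_
    by_cases hyx : y = x
    · subst hyx
      have hm : y ∈ {z : E n | ⟪p, z⟫ = ⟪p, y⟫} := rfl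
      simp only [indicator_of_mem hm, indicator_of_mem (mem_singleton y), hx, one_mul]
      exact tendsto_const_nhds
    · rw [indicator_of_notMem (show y ∉ ({x} : Set (E n)) from hyx)]
      by_cases hm : y ∈ {z : E n | ⟪p, z⟫ = ⟪p, x⟫}
      · simp only [indicator_of_mem hm]
        simpa using (hy y hyx).mul_const (∑ l, p l * V l y)
      · simp only [indicator_of_notMem hm]
        exact tendsto_const_nhds

end Pool.Agent.P.MP_9aa8f2_an.WS

namespace Pool.Agent.P.MP_9aa8f2_an.WS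

open MeasureTheory Filter Topology Set
open scoped RealInnerProductSpace

namespace PT0x

theorem hyper_null {n : ℕ} {p : E n} (hp : p ≠ 0) (t : ℝ) :
    volume {x : E n | ⟪p, x⟫ = t} = 0 := by
  have hn : (0 : ℝ) < ‖p‖ ^ 2 := by positivity
  have h0 : volume {x : E n | ⟪p, x⟫ = 0} = 0 := by
    have := Measure.addHaar_submodule (volume : Measure (E n))
      (LinearMap.ker (innerSL ℝ p).toLinearMap) (by
        intro h
        have h1 : p ∈ LinearMap.ker (innerSL ℝ p).toLinearMap := h ▸ Submodule.mem_top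
        rw [LinearMap.mem_ker] at h1
        exact hp (inner_self_eq_zero.1 h1))
    exact this
  have e : {x : E n | ⟪p, x⟫ = t} =
      (fun x => x + -((t / ‖p‖ ^ 2) • p)) ⁻¹' {x : E n | ⟪p, x⟫ = 0} := by
    ext x
    simp only [mem_ofPred_eq, mem_preimage, inner_add_right, inner_neg_right, inner_smul_right,
      real_inner_self_eq_norm_sq]
    rw [div_mul_cancel₀ _ hn.ne']
    constructor <;> intro h <;> linarith
  rw [e, measure_preimage_add_right, h0]

end PT0x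

theorem p_PT0 (h1 : S_XW0) (h2 : S_WF1) : S_PT0 := by
  intro n γ _ _ b U hU p hp
  obtain ⟨C, hC, hU⟩ := hU
  haveI : Nonempty γ := ⟨b⟩
  let a : ℕ → γ := TopologicalSpace.denseSeq γ
  let β : ℕ → Lip0 (0 : E n) →ₗ[ℝ] ℝ := fun j =>
    (LinearMap.proj (a j) ∘ₗ (Lip0 b).subtype) ∘ₗ U
  have hβ : ∀ j, BddF (β j) := fun j => ⟨C * dist (a j) b, by positivity, fun f => by
    have h3 := abs_le_ln (U f) (a j)
    have h4 := mul_le_mul_of_nonneg_right (hU f) (dist_nonneg (x := a j) (y := b))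
    calc |β j f| = |(U f).1 (a j)| := rfl
      _ ≤ C * ln f * dist (a j) b := h3.trans h4
      _ = _ := by ring⟩
  choose ν V hν _ _ hlim using fun j => h1 n (β j) (hβ j)
  have hm : Measurable fun y : E n => ⟪p, y⟫ := (continuous_const.inner continuous_id).measurable
  have hT : (⋃ j, {t | 0 < ν j {y | ⟪p, y⟫ = t}}).Countable :=
    countable_iUnion fun j => by
      haveI := hν j
      exact Measure.countable_meas_level_set_pos hm
  have hae : ∀ᵐ x : E n, ∀ t ∈ ⋃ j, {t | 0 < ν j {y | ⟪p, y⟫ = t}}, ⟪p, x⟫ ≠ t :=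
    (ae_ball_iff hT).2 fun t _ => by
      rw [ae_iff]
      simpa only [not_not] using PT0x.hyper_null hp t
  filter_upwards [hae] with x hx ζ
  have hL : ∀ N, ln (U (W p ⟪p, x⟫ N ζ)) ≤ C * (‖p‖ + 2 * ζ.K) := fun N => by
    refine (hU _).trans (mul_le_mul_of_nonneg_left (((h2 n p ⟪p, x⟫ ζ).1 N).trans ?_) hC)
    have : 2 * (ζ.K : ℝ) / ((N : ℝ) + 1) ≤ 2 * ζ.K :=
      div_le_self (by positivity) (by linarith [Nat.cast_nonneg (α := ℝ) N])
    linarith
  have hj : ∀ j, Tendsto (fun N => (U (W p ⟪p, x⟫ N ζ)).1 (a j)) atTop (𝓝 0) := fun j => by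
    have h0 : ν j {y | ⟪p, y⟫ = ⟪p, x⟫} = 0 := by
      by_contra h
      exact hx _ (mem_iUnion.2 ⟨j, pos_iff_ne_zero.2 h⟩) rfl
    have h3 := hlim j p ⟪p, x⟫ ζ
    rw [setIntegral_measure_zero _ h0] at h3
    exact h3
  refine ⟨⟨_, hL⟩, fun c => ?_⟩
  set L := C * (‖p‖ + 2 * ζ.K) with hLd
  have hL0 : 0 ≤ L := by positivity
  rw [Metric.tendsto_atTop]
  intro ε hε
  obtain ⟨j, hjc⟩ := (TopologicalSpace.denseRange_denseSeq γ).exists_dist_lt c
    (show 0 < ε / 2 / (L + 1) by positivity)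
  obtain ⟨N, hN⟩ := Metric.tendsto_atTop.1 (hj j) (ε / 2) (by positivity)
  refine ⟨N, fun k hk => ?_⟩
  have h3 := hN k hk
  have h4 := abs_sub_le_ln (U (W p ⟪p, x⟫ k ζ)) c (a j)
  rw [Real.dist_eq, sub_zero] at h3 ⊢
  have h5 : ln (U (W p ⟪p, x⟫ k ζ)) * dist c (a j) ≤ (L + 1) * dist c (a j) :=
    mul_le_mul_of_nonneg_right (by linarith [hL k]) dist_nonneg
  have h6 : (L + 1) * dist c (a j) < ε / 2 := by
    rw [lt_div_iff₀ (by positivity)] at hjc
    linarith [show dist c (a j) = dist c (TopologicalSpace.denseSeq γ j) from rfl, mul_comm (L + 1) (dist c (a j))]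
  have h7 := abs_add_le ((U (W p ⟪p, x⟫ k ζ)).1 c - (U (W p ⟪p, x⟫ k ζ)).1 (a j))
    ((U (W p ⟪p, x⟫ k ζ)).1 (a j))
  rw [sub_add_cancel] at h7
  linarith

end Pool.Agent.P.MP_9aa8f2_an.WS

namespace Pool.Agent.P.MP_9aa8f2_an.WS

open MeasureTheory Filter Topology Set
open scoped RealInnerProductSpace

namespace SCx

theorem ext {n : ℕ} (h4 : S_WF2) (U : Lip0 (0 : E n) →ₗ[ℝ] Lip0 (0 : E n)) (C : ℝ) (hC : 0 ≤ C)
    (hU : ∀ f, ln (U f) ≤ C * ln f) (p : E n) (ζ : Bump n) (N : ℕ) (M : ℝ) (hM : 0 ≤ M)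
    (hb : ∀ t, ln (U (W p t N ζ)) ≤ M) :
    ∃ G : Lip0 (0 : E n), ∀ x : E n, ‖x‖ < 3 → G.1 x = (U (W p ⟪p, x⟫ N ζ)).1 x := by
  obtain ⟨D, hD, hd⟩ := h4 n p N ζ
  have hK : 0 ≤ M + C * (D * ‖p‖) * 3 := by positivity
  have hl : LipschitzOnWith ⟨M + C * (D * ‖p‖) * 3, hK⟩
      (fun x : E n => (U (W p ⟪p, x⟫ N ζ)).1 x) (Metric.ball 0 3) := by
    refine LipschitzOnWith.of_dist_le_mul fun x _ x' hx' => ?_
    rw [Real.dist_eq]
    have h1 := abs_sub_le_ln (U (W p ⟪p, x⟫ N ζ)) x x'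
    have h2 := abs_le_ln (U (W p ⟪p, x⟫ N ζ - W p ⟪p, x'⟫ N ζ)) x'
    have h3 : (U (W p ⟪p, x⟫ N ζ - W p ⟪p, x'⟫ N ζ)).1 x' =
        (U (W p ⟪p, x⟫ N ζ)).1 x' - (U (W p ⟪p, x'⟫ N ζ)).1 x' := by
      rw [map_sub]; rfl
    have h5 : |⟪p, x⟫ - ⟪p, x'⟫| ≤ ‖p‖ * dist x x' := by
      rw [← inner_sub_right, dist_eq_norm]
      exact abs_real_inner_le_norm _ _
    have h6 : ln (U (W p ⟪p, x⟫ N ζ - W p ⟪p, x'⟫ N ζ)) ≤ C * (D * (‖p‖ * dist x x')) :=
      (hU _).trans (mul_le_mul_of_nonneg_left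
        ((hd _ _).trans (mul_le_mul_of_nonneg_left h5 hD)) hC)
    have h7 : dist x' 0 ≤ 3 := (Metric.mem_ball.1 hx').le
    have h8 := h2.trans (mul_le_mul h6 h7 dist_nonneg (by positivity))
    have h9 := h1.trans (mul_le_mul_of_nonneg_right (hb _) dist_nonneg)
    rw [h3] at h8
    have h10 := abs_sub_le ((U (W p ⟪p, x⟫ N ζ)).1 x) ((U (W p ⟪p, x⟫ N ζ)).1 x')
      ((U (W p ⟪p, x'⟫ N ζ)).1 x')
    show _ ≤ (M + C * (D * ‖p‖) * 3) * dist x x'
    nlinarith
  obtain ⟨g, hg, he⟩ := hl.extend_real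
  have h0 : g 0 = 0 := by
    rw [← he (Metric.mem_ball_self (by norm_num))]
    exact (U (W p ⟪p, (0 : E n)⟫ N ζ)).2.2
  refine ⟨⟨g, ⟨_, hg⟩, h0⟩, fun x hx => ?_⟩
  exact (he (by simpa using hx)).symm

theorem lam_same {n : ℕ} (F : ℝ → Lip0 (0 : E n)) (G : Lip0 (0 : E n)) (p q : E n)
    (hpq : ⟪p, q⟫ = 0) (hG : ∀ x : E n, ‖x‖ < 3 → G.1 x = (F ⟪p, x⟫).1 x) (x : E n)
    (hx : ‖x‖ < 2) : lam x q G = lam x q (F ⟪p, x⟫) := by
  refine lam_congr ?_
  have h1 : Tendsto (fun k : ℕ => 1 / ((k : ℝ) + 1) * ‖q‖) atTop (𝓝 0) := by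
    simpa using (tendsto_one_div_add_atTop_nhds_zero_nat (𝕜 := ℝ)).mul_const ‖q‖
  filter_upwards [h1.eventually (gt_mem_nhds one_pos)] with k hk
  have h2 : ‖x + (1 / ((k : ℝ) + 1)) • q‖ < 3 := by
    refine (norm_add_le _ _).trans_lt ?_
    rw [norm_smul, Real.norm_eq_abs, abs_of_pos (by positivity : (0 : ℝ) < 1 / ((k : ℝ) + 1))]
    linarith
  have h3 : ⟪p, x + (1 / ((k : ℝ) + 1)) • q⟫ = ⟪p, x⟫ := by
    rw [inner_add_right, real_inner_smul_right, hpq, mul_zero, add_zero]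
  rw [dq, dq, hG _ h2, hG x (by linarith), h3]

end SCx

theorem p_SC (h0 : S_XW0) (h1 : S_PT0) (h2 : S_WN) (h3 : S_WF1) (h4 : S_WF2) : S_SC := by
  intro n U hU p q ζ hp hpq
  have hpt := h1 n (E n) 0 U hU p hp
  obtain ⟨C, hC, hCU⟩ := id hU
  set M : ℝ := C * (‖p‖ + 2 * ζ.K) with hMdef
  have hM : 0 ≤ M := by positivity
  have hb : ∀ N t, ln (U (W p t N ζ)) ≤ M := by
    intro N t
    refine (hCU _).trans (mul_le_mul_of_nonneg_left (((h3 n p t ζ).1 N).trans ?_) hC)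
    have : 2 * (ζ.K : ℝ) / ((N : ℝ) + 1) ≤ 2 * ζ.K :=
      div_le_self (by positivity) (by linarith [Nat.cast_nonneg (α := ℝ) N])
    linarith
  choose G hG using fun N => SCx.ext h4 U C hC hCU p ζ N M hM (hb N)
  have hl : ∀ N x, ‖x‖ < 2 → lam x q (G N) = lam x q (U (W p ⟪p, x⟫ N ζ)) := fun N x hx =>
    SCx.lam_same (fun t => U (W p t N ζ)) (G N) p q hpq (hG N) x hx
  have hlb : ∀ N x, |lam x q (U (W p ⟪p, x⟫ N ζ))| ≤ M * ‖q‖ := fun N x =>
    (lam_bound _ _ _).trans (mul_le_mul_of_nonneg_right (hb _ _) (norm_nonneg q))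
  have hg : ∀ x : E n, ∃ c : ℝ,
      Tendsto (fun N => lam x q (U (W p ⟪p, x⟫ N ζ))) atTop (𝓝 c) := by
    intro x
    obtain ⟨ν, V, -, -, -, h⟩ := h0 n (lam x q ∘ₗ U) ((lam_bdd x q).comp hU)
    exact ⟨_, h p ⟪p, x⟫ ζ⟩
  choose g hg using hg
  have hgb : ∀ x, |g x| ≤ M * ‖q‖ := fun x => le_of_tendsto' (hg x).abs fun N => hlb N x
  have hfin : IsFiniteMeasure (vb n) :=
    isFiniteMeasure_restrict.2 measure_ball_lt_top.ne
  have hball : ∀ᵐ x ∂vb n, ‖x‖ < 2 := by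
    filter_upwards [ae_restrict_mem (μ := (volume : Measure (E n)))
      (measurableSet_ball (x := (0 : E n)) (ε := 1))] with x hx
    have : ‖x‖ < 1 := by simpa using hx
    linarith
  have hconv : ∀ᵐ x ∂vb n, Tendsto (fun N => lam x q (G N)) atTop (𝓝 (g x)) :=
    hball.mono fun x hx => (hg x).congr fun N => (hl N x hx).symm
  have hGm : ∀ N, AEStronglyMeasurable (fun x => lam x q (G N)) (vb n) := fun N =>
    (lam_aemeas (G N) q).restrict
  have hgm : AEStronglyMeasurable g (vb n) :=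
    aestronglyMeasurable_of_tendsto_ae atTop hGm hconv
  have hq : 0 ≤ M * ‖q‖ := by positivity
  have hz := h2 n G q (M * 2 + M * ‖q‖) (fun k x hx => by
    constructor
    · rw [hG k x (by linarith)]
      have := abs_le_ln (U (W p ⟪p, x⟫ k ζ)) x
      rw [dist_zero_right] at this
      have h5 := this.trans (mul_le_mul (hb k _) hx.le (norm_nonneg x) hM)
      linarith
    · rw [hl k x hx]
      have := hlb k x
      linarith) (by
    filter_upwards [hpt] with x hx hx2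
    refine ((hx ζ).2 x).congr fun k => ?_
    exact (hG k x (by linarith)).symm) g hgm ⟨_, hgb⟩
  have hd : Tendsto (fun k => ∫ x, g x * lam x q (G k) ∂vb n) atTop
      (𝓝 (∫ x, g x * g x ∂vb n)) := by
    refine tendsto_integral_of_dominated_convergence (fun _ => M * ‖q‖ * (M * ‖q‖))
      (fun k => hgm.mul (hGm k)) (integrable_const _) (fun k => ?_) ?_
    · filter_upwards [hball] with x hx
      rw [Real.norm_eq_abs, abs_mul, hl k x hx]
      exact mul_le_mul (hgb x) (hlb k x) (abs_nonneg _) hq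
    · exact hconv.mono fun x hx => hx.const_mul (g x)
  have hi : ∫ x, g x * g x ∂vb n = 0 := tendsto_nhds_unique hd hz
  have hint : Integrable (fun x => g x * g x) (vb n) := by
    refine (integrable_const (M * ‖q‖ * (M * ‖q‖))).mono' (hgm.mul hgm)
      (Eventually.of_forall fun x => ?_)
    rw [Real.norm_eq_abs, abs_mul]
    exact mul_le_mul (hgb x) (hgb x) (abs_nonneg _) hq
  rw [integral_eq_zero_iff_of_nonneg_ae
    (Eventually.of_forall fun x => mul_self_nonneg (g x)) hint] at hi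
  filter_upwards [hi] with x hx
  have : g x = 0 := mul_self_eq_zero.1 hx
  rw [← this]
  exact hg x

end Pool.Agent.P.MP_9aa8f2_an.WS

namespace Pool.Agent.P.MP_9aa8f2_an.WS

open MeasureTheory Filter Topology Set
open scoped RealInnerProductSpace

theorem p_ADD (h : S_WF2) : S_ADD := by
  intro n U hU p ζ
  have h1 : ∀ᵐ x : E n, ∀ a : ℕ × ℚ, DifferentiableAt ℝ (U (W p a.2 a.1 ζ)).1 x :=
    ae_all_iff.2 fun a => ae_diff _
  filter_upwards [h1] with x hx N t q
  obtain ⟨D, hD, hW⟩ := h n p N ζ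
  have hc : ∀ v : E n, Continuous fun t : ℝ => lam x v (U (W p t N ζ)) := by
    intro v
    obtain ⟨C, hC, hb⟩ := (lam_bdd x v).comp hU
    refine (LipschitzWith.of_dist_le_mul (K := ⟨C * D, mul_nonneg hC hD⟩) fun s t => ?_).continuous
    have e := hb (W p s N ζ - W p t N ζ)
    rw [map_sub] at e
    rw [Real.dist_eq, Real.dist_eq]
    refine e.trans ((mul_le_mul_of_nonneg_left (hW s t) hC).trans_eq ?_)
    exact (mul_assoc _ _ _).symm
  refine Rat.denseRange_cast.induction_on (p := fun t : ℝ =>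
    lam x q (U (W p t N ζ)) = ∑ j, q j * lam x (ev j) (U (W p t N ζ))) t ?_ fun r => ?_
  · exact isClosed_eq (hc q) (continuous_finsetSum _ fun j _ => continuous_const.mul (hc _))
  · have hd := hx (N, r)
    simp only [lam_of_diff hd]
    conv_lhs => rw [← sum_ev q, map_sum]
    simp only [map_smul, smul_eq_mul]

end Pool.Agent.P.MP_9aa8f2_an.WS
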