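import Pool.Agent.P.MP_9aa8f2_an.WB.B0

namespace Pool.Agent.P.MP_9aa8f2_an.WS

open MeasureTheory Filter Topology Set
open scoped RealInnerProductSpace

namespace DILx

open Classical in
/-- Largest size of a steep chain in the cone below `(x, s + 2 δ)`. -/
noncomputable def N (Q : Finset (ℝ × ℝ)) (δ x s : ℝ) : ℕ :=
  (((Q.filter fun q => q.2 + |q.1 - x| < s + 2 * δ).powerset).filter VCh).sup Finset.card

theorem le_N {Q : Finset (ℝ × ℝ)} {δ x s : ℝ} {C : Finset (ℝ × ℝ)} (h1 : C ⊆ Q)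
    (h2 : ∀ q ∈ C, q.2 + |q.1 - x| < s + 2 * δ) (h3 : VCh C) : C.card ≤ N Q δ x s := by
  classical
  unfold N
  refine Finset.le_sup (f := Finset.card) ?_
  simp only [Finset.mem_filter, Finset.mem_powerset]
  exact ⟨fun q hq => Finset.mem_filter.2 ⟨h1 hq, h2 q hq⟩, h3⟩

theorem N_le {Q : Finset (ℝ × ℝ)} {δ x s : ℝ} {m : ℕ}
    (h : ∀ C ⊆ Q, (∀ q ∈ C, q.2 + |q.1 - x| < s + 2 * δ) → VCh C → C.card ≤ m) :
    N Q δ x s ≤ m := by
  classical
  unfold N
  refine Finset.sup_le fun C hC => ?_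
  simp only [Finset.mem_filter, Finset.mem_powerset] at hC
  exact h C (fun q hq => (Finset.mem_filter.1 (hC.1 hq)).1)
    (fun q hq => (Finset.mem_filter.1 (hC.1 hq)).2) hC.2

theorem N_shift (Q : Finset (ℝ × ℝ)) (δ x x' s s' : ℝ) (h : s' + |x - x'| ≤ s) :
    N Q δ x' s' ≤ N Q δ x s := by
  refine N_le fun C h1 h2 h3 => le_N h1 (fun q hq => ?_) h3
  have := h2 q hq
  have h4 : |q.1 - x| ≤ |q.1 - x'| + |x - x'| := by
    rw [abs_sub_comm x x']
    exact abs_sub_le _ _ _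
  linarith

theorem N_mono (Q : Finset (ℝ × ℝ)) (δ x s s' : ℝ) (h : s' ≤ s) : N Q δ x s' ≤ N Q δ x s :=
  N_shift Q δ x x s s' (by simpa using h)

theorem N_step {Q : Finset (ℝ × ℝ)} {δ x s : ℝ} (hδ : 0 < δ) {q : ℝ × ℝ} (hq : q ∈ Q)
    (hx : |x - q.1| ≤ δ) (hs : q.2 - δ < s) : N Q δ x (q.2 - 3 * δ) + 1 ≤ N Q δ x s := by
  classical
  have hq' : q.2 + |q.1 - x| < s + 2 * δ := by rw [abs_sub_comm]; linarith
  have h0 : 1 ≤ N Q δ x s := by
    have := le_N (Q := Q) (δ := δ) (x := x) (s := s) (C := {q}) (by simpa using hq)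
      (by simpa using hq') (fun a ha b hb hab => by
        rw [Finset.mem_singleton] at ha hb
        exact absurd (ha.trans hb.symm) hab)
    simpa using this
  have h1 : N Q δ x (q.2 - 3 * δ) ≤ N Q δ x s - 1 := by
    refine N_le fun C h1 h2 h3 => ?_
    have key : ∀ p ∈ C, |p.1 - q.1| < q.2 - p.2 := by
      intro p hp
      have h4 := h2 p hp
      have h5 : |p.1 - q.1| ≤ |p.1 - x| + |x - q.1| := abs_sub_le _ _ _
      linarith
    have hn : q ∉ C := fun h => by simpa using key q h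
    have h6 : (insert q C).card ≤ N Q δ x s := by
      refine le_N (Finset.insert_subset hq h1) (fun p hp => ?_) (fun a ha b hb hab => ?_)
      · rcases Finset.mem_insert.1 hp with rfl | hp
        · exact hq'
        · have := h2 p hp
          linarith
      · rcases Finset.mem_insert.1 ha with rfl | ha' <;>
          rcases Finset.mem_insert.1 hb with rfl | hb'
        · exact absurd rfl hab
        · rw [abs_sub_comm]
          exact (key b hb').trans_le (le_abs_self _)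
        · rw [abs_sub_comm a.2]
          exact (key a ha').trans_le (le_abs_self _)
        · exact h3 a ha' b hb' hab
    rw [Finset.card_insert_of_notMem hn] at h6
    omega
  omega

/-- The function with unit slope near the points of `Q`. -/
noncomputable def f (Q : Finset (ℝ × ℝ)) (δ x y : ℝ) : ℝ :=
  sInf {t | ∃ s ≤ y, t = (y - s) + 5 * δ * N Q δ x s}

theorem f_le (Q : Finset (ℝ × ℝ)) {δ : ℝ} (hδ : 0 < δ) (x : ℝ) {y s : ℝ} (h : s ≤ y) :
    f Q δ x y ≤ (y - s) + 5 * δ * N Q δ x s := by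
  refine csInf_le ⟨0, ?_⟩ ⟨s, h, rfl⟩
  rintro t ⟨r, hr, rfl⟩
  have : 0 ≤ y - r := sub_nonneg.2 hr
  positivity

theorem le_f (Q : Finset (ℝ × ℝ)) {δ x y c : ℝ}
    (h : ∀ s ≤ y, c ≤ (y - s) + 5 * δ * N Q δ x s) : c ≤ f Q δ x y := by
  refine le_csInf ⟨_, y, le_rfl, rfl⟩ ?_
  rintro t ⟨r, hr, rfl⟩
  exact h r hr

theorem cast_le {δ : ℝ} (hδ : 0 < δ) {a b : ℕ} (h : a ≤ b) : 5 * δ * a ≤ 5 * δ * b :=
  mul_le_mul_of_nonneg_left (Nat.cast_le.2 h) (by positivity)

theorem f_mono (Q : Finset (ℝ × ℝ)) {δ : ℝ} (hδ : 0 < δ) (x : ℝ) {y y' : ℝ} (h : y ≤ y') :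
    f Q δ x y ≤ f Q δ x y' := by
  refine le_f Q fun s hs => ?_
  rcases le_total s y with h1 | h1
  · linarith [f_le Q hδ x h1]
  · linarith [f_le Q hδ x (le_refl y), cast_le hδ (N_mono Q δ x s y h1)]

theorem f_up (Q : Finset (ℝ × ℝ)) {δ : ℝ} (hδ : 0 < δ) (x : ℝ) {y y' : ℝ} (h : y ≤ y') :
    f Q δ x y' ≤ f Q δ x y + (y' - y) := by
  have : f Q δ x y' - (y' - y) ≤ f Q δ x y :=
    le_f Q fun s hs => by linarith [f_le Q hδ x (hs.trans h)]
  linarith

theorem f_side (Q : Finset (ℝ × ℝ)) {δ : ℝ} (hδ : 0 < δ) (x x' y : ℝ) :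
    f Q δ x' y ≤ f Q δ x y + |x - x'| := by
  have h0 := abs_nonneg (x - x')
  have h1 : f Q δ x' y ≤ f Q δ x (y + |x - x'|) := by
    refine le_f Q fun s hs => ?_
    have h2 := f_le Q hδ x' (y := y) (s := s - |x - x'|) (by linarith)
    have h3 := cast_le hδ (N_shift Q δ x x' s (s - |x - x'|) (by linarith))
    linarith
  have h2 := f_up Q hδ x (y := y) (y' := y + |x - x'|) (by linarith)
  linarith

theorem f_lip (Q : Finset (ℝ × ℝ)) {δ : ℝ} (hδ : 0 < δ) (x y x' y' : ℝ) :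
    f Q δ x' y' ≤ f Q δ x y + (|x - x'| + |y - y'|) := by
  have h1 := f_side Q hδ x x' y'
  rcases le_total y y' with h | h
  · have h2 := f_up Q hδ x h
    have h3 := neg_le_abs (y - y')
    linarith
  · linarith [f_mono Q hδ x h, abs_nonneg (y - y')]

end DILx

theorem p_DIL : S_DIL := by
  classical
  intro j k
  induction k with
  | zero =>
    intro P hP
    refine ⟨∅, P, fun a ha => Or.inr ha, fun C hC _ => ?_, fun C hC _ => ?_⟩
    · simpa using Finset.card_le_card hC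
    · have := Finset.card_le_card hC
      omega
  | succ k ih =>
    intro P hP
    by_cases h : ∃ C0 ⊆ P, VCh C0 ∧ j < C0.card
    · obtain ⟨C0, h0, h1, h2⟩ := h
      obtain ⟨P1, P2, a1, a2, a3⟩ := ih (P \ C0) (by
        rw [Finset.card_sdiff_of_subset h0]
        rw [Nat.mul_succ] at hP
        omega)
      refine ⟨P1 ∪ C0, P2, fun a ha => ?_, fun C hC hH => ?_, a3⟩
      · by_cases hc : a ∈ C0
        · exact Or.inl (Finset.mem_union_right _ hc)
        · exact (a1 a (Finset.mem_sdiff.2 ⟨ha, hc⟩)).imp_left (Finset.mem_union_left _)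
      · have b1 : (C \ C0).card ≤ k := by
          refine a2 _ (fun a ha => ?_) (fun a ha b hb => hH a (Finset.mem_sdiff.1 ha).1 b
            (Finset.mem_sdiff.1 hb).1)
          obtain ⟨c1, c2⟩ := Finset.mem_sdiff.1 ha
          exact (Finset.mem_union.1 (hC c1)).resolve_right c2
        have b2 : (C ∩ C0).card ≤ 1 := by
          refine Finset.card_le_one.2 fun a ha b hb => ?_
          by_contra hab
          obtain ⟨c1, c2⟩ := Finset.mem_inter.1 ha
          obtain ⟨d1, d2⟩ := Finset.mem_inter.1 hb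
          exact lt_asymm (hH a c1 b d1 hab) (h1 a c2 b d2 hab)
        have b3 := Finset.card_sdiff_add_card_inter C C0
        omega
    · refine ⟨∅, P, fun a ha => Or.inr ha, fun C hC _ => ?_, fun C hC hV => ?_⟩
      · have := Finset.card_le_card hC
        simp only [Finset.card_empty] at this
        omega
      · by_contra hc
        exact h ⟨C, hC, hV, not_le.1 hc⟩

theorem p_QUE : S_QUE := by
  intro Q j δ hδ hQ
  refine ⟨DILx.f Q δ, fun x y => ⟨?_, ?_⟩, fun x y x' y' => ?_,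
    fun x y y' h => DILx.f_mono Q hδ x h, fun q hq x y y' hx h1 h2 h3 => ?_⟩
  · refine DILx.le_f Q fun s hs => ?_
    have : 0 ≤ y - s := sub_nonneg.2 hs
    positivity
  · have h1 := DILx.f_le Q hδ x (le_refl y)
    have h2 : DILx.N Q δ x y ≤ j := DILx.N_le fun C c1 _ c3 => hQ C c1 c3
    linarith [DILx.cast_le hδ h2]
  · have h1 := DILx.f_lip Q hδ x y x' y'
    have h2 := DILx.f_lip Q hδ x' y' x y
    rw [abs_sub_comm x' x, abs_sub_comm y' y] at h2
    exact abs_le.2 ⟨by linarith, by linarith⟩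
  · have : DILx.f Q δ x y + (y' - y) ≤ DILx.f Q δ x y' := by
      refine DILx.le_f Q fun s hs => ?_
      rcases le_or_gt s y with h4 | h4
      · linarith [DILx.f_le Q hδ x h4]
      · have h5 := DILx.f_le Q hδ x (y := y) (s := q.2 - 3 * δ) (by linarith)
        have h6 := DILx.cast_le hδ (DILx.N_step (s := s) hδ hq hx (by linarith))
        push_cast at h6
        linarith
    linarith

end Pool.Agent.P.MP_9aa8f2_an.WS

namespace Pool.Agent.P.MP_9aa8f2_an.WS

open MeasureTheory Filter Topology Set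
open scoped RealInnerProductSpace

namespace CNTx

theorem pack {Z : Set (E 2)} {h : ℝ} (hh : 0 < h) (S : Finset (E 2)) (hS : ↑S ⊆ Z)
    (hsep : (S : Set (E 2)).Pairwise fun x y => h ≤ dist x y) :
    ENNReal.ofReal (S.card * (h / 2) ^ 2) ≤ volume (Metric.cthickening h Z) := by
  have h1 : volume (⋃ x ∈ S, Metric.ball x (h / 2)) = ∑ x ∈ S, volume (Metric.ball x (h / 2)) :=
    measure_biUnion_finset (fun x hx y hy e => Metric.ball_disjoint_ball (by
      have := hsep hx hy e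
      linarith)) fun _ _ => measurableSet_ball
  have h2 : (⋃ x ∈ S, Metric.ball x (h / 2)) ⊆ Metric.cthickening h Z :=
    iUnion₂_subset fun x hx y hy => Metric.mem_cthickening_of_dist_le y x h Z (hS hx) (by
      have := Metric.mem_ball.1 hy
      linarith)
  refine le_trans ?_ (measure_mono h2)
  rw [h1, ENNReal.ofReal_mul (Nat.cast_nonneg _), ENNReal.ofReal_natCast, ← nsmul_eq_mul]
  refine Finset.card_nsmul_le_sum _ _ _ fun x _ => ?_
  rw [EuclideanSpace.volume_ball_fin_two, ENNReal.ofReal_pow (by linarith)]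
  refine le_mul_of_one_le_right' ?_
  rw [← ENNReal.ofReal_one]
  exact ENNReal.ofReal_le_ofReal (by linarith [Real.pi_gt_three])

theorem net {Z : Set (E 2)} {h : ℝ} (hh : 0 < h) {N : ℕ}
    (hN : ∀ S : Finset (E 2), ↑S ⊆ Z → ((S : Set (E 2)).Pairwise fun x y => h ≤ dist x y) →
      S.card ≤ N) :
    ∃ S : Finset (E 2), S.card ≤ N ∧ ∀ z ∈ Z, ∃ x ∈ S, dist z x ≤ h := by
  classical
  let Q : ℕ → Prop := fun m => ∃ S : Finset (E 2), ↑S ⊆ Z ∧
    ((S : Set (E 2)).Pairwise fun x y => h ≤ dist x y) ∧ S.card = m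
  obtain ⟨S, h1, h2, h3⟩ : Q (Nat.findGreatest Q N) :=
    Nat.findGreatest_spec (Nat.zero_le N) ⟨∅, by simp, by simp, rfl⟩
  refine ⟨S, hN S h1 h2, fun z hz => ?_⟩
  by_contra hc
  push Not at hc
  have hz' : z ∉ S := fun e => by
    have := hc z e
    rw [dist_self] at this
    linarith
  have h4 : ((insert z S : Finset (E 2)) : Set (E 2)) ⊆ Z := by
    rw [Finset.coe_insert]
    exact insert_subset hz h1
  have h5 : ((insert z S : Finset (E 2)) : Set (E 2)).Pairwise fun x y => h ≤ dist x y := by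
    rw [Finset.coe_insert]
    exact h2.insert fun b hb _ => ⟨(hc b hb).le, by rw [dist_comm]; exact (hc b hb).le⟩
  have h6 := Nat.le_findGreatest (P := Q) (hN _ h4 h5) ⟨_, h4, h5, rfl⟩
  rw [Finset.card_insert_of_notMem hz'] at h6
  omega

end CNTx

theorem p_CNT : S_CNT := by
  classical
  intro Z hZ h0 ε hε
  have ht := tendsto_measure_cthickening_of_isCompact (μ := (volume : Measure (E 2))) hZ
  rw [h0] at ht
  have hp : (0 : ENNReal) < ENNReal.ofReal (ε ^ 2 / 64) := ENNReal.ofReal_pos.2 (by positivity)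
  obtain ⟨r, hr, hr'⟩ := Metric.eventually_nhds_iff.1 (ht.eventually (gt_mem_nhds hp))
  obtain ⟨j, hj⟩ := exists_nat_gt (ε / r)
  have hj0 : (0 : ℝ) < j := (div_pos hε hr).trans hj
  have hh : 0 < ε / j / 4 := by positivity
  have hlt : dist (ε / j / 4) 0 < r := by
    rw [Real.dist_eq, sub_zero, abs_of_pos hh]
    have : ε / j < r := by
      rw [div_lt_iff₀ hj0]
      rw [div_lt_iff₀ hr] at hj
      linarith
    linarith
  obtain ⟨S, hS, hc⟩ := CNTx.net (Z := Z) hh (N := j * j) fun S h1 h2 => by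
    have h3 := (ENNReal.ofReal_lt_ofReal_iff (by positivity)).1
      ((CNTx.pack hh S h1 h2).trans_lt (hr' hlt))
    have e : (ε / j / 4 / 2) ^ 2 = ε ^ 2 / 64 / (j * j) := by field_simp; norm_num
    rw [e, ← mul_div_assoc, div_lt_iff₀ (by positivity), mul_comm] at h3
    have h4 := lt_of_mul_lt_mul_left h3 (by positivity)
    exact_mod_cast h4.le
  refine ⟨ε / j, j, S.image fun x => (x 0, x 1), by positivity, Finset.card_image_le.trans hS,
    by rw [div_mul_cancel₀ _ hj0.ne'], fun z hz => ?_⟩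
  obtain ⟨x, hx, hd⟩ := hc z hz
  refine ⟨_, Finset.mem_image_of_mem _ hx, ?_, ?_⟩
  · exact (Real.dist_eq _ _).symm.trans_le ((PiLp.dist_apply_le z x 0).trans hd)
  · exact (Real.dist_eq _ _).symm.trans_le ((PiLp.dist_apply_le z x 1).trans hd)

end Pool.Agent.P.MP_9aa8f2_an.WS

namespace Pool.Agent.P.MP_9aa8f2_an.WS

open MeasureTheory Filter Topology Set
open scoped RealInnerProductSpace

namespace ACPx

theorem le_fderiv {n : ℕ} {G : E n → ℝ} (hG : ContDiff ℝ 1 G) {y v : E n} {c η : ℝ} (hη : 0 < η)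
    (h : ∀ s, 0 < s → s < η → c * s ≤ G (y + s • v) - G y) : c ≤ fderiv ℝ G y v := by
  have hd : HasLineDerivAt ℝ G (fderiv ℝ G y v) y v :=
    (hG.differentiable one_ne_zero y).hasFDerivAt.hasLineDerivAt v
  refine ge_of_tendsto hd.tendsto_slope_zero_right ?_
  filter_upwards [Ioo_mem_nhdsGT hη] with s hs
  rw [smul_eq_mul, inv_mul_eq_div, le_div_iff₀ hs.1]
  exact h s hs.1 hs.2

theorem abs_coord {n : ℕ} (z : E n) (a : Fin n) : |z a| ≤ ‖z‖ := by
  simpa using PiLp.norm_apply_le z a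

theorem one_dir (h2 : S_QUE) (h4 : S_MOL) {n : ℕ} {a b : Fin n} (hab : a ≠ b)
    (Q : Finset (ℝ × ℝ)) (j : ℕ) {δ ε : ℝ} (hδ : 0 < δ) (hε : δ * j ≤ ε / 5)
    (hQ : ∀ C ⊆ Q, VCh C → C.card ≤ j) :
    ∃ G : E n → ℝ, ContDiff ℝ 1 G ∧ LipschitzWith 2 G ∧ (∀ y, |G y| ≤ ε) ∧
      (∀ y, 0 ≤ fderiv ℝ G y (ev b)) ∧
      ∀ q ∈ Q, ∀ y : E n, |y a - q.1| ≤ δ / 4 → |y b - q.2| ≤ δ / 4 →
        1 ≤ fderiv ℝ G y (ev b) := by
  obtain ⟨f, f0, fl, fm, fq⟩ := h2 Q j δ hδ hQ
  have hl : ∀ y y' : E n, |f (y a) (y b) - f (y' a) (y' b)| ≤ 2 * dist y y' := by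
    intro y y'
    have e1 := abs_coord (y - y') a
    have e2 := abs_coord (y - y') b
    rw [PiLp.sub_apply, ← dist_eq_norm] at e1 e2
    linarith [fl (y a) (y b) (y' a) (y' b)]
  have hc : Continuous fun y : E n => f (y a) (y b) :=
    (LipschitzWith.of_dist_le_mul (K := 2) fun y y' => by
      rw [Real.dist_eq]; exact_mod_cast hl y y').continuous
  have hδ4 : 0 < δ / 4 := by positivity
  obtain ⟨G, g1, g2, g3, g4⟩ := h4 n _ hc (δ / 4) hδ4
  have ea : ∀ (y z : E n) (s : ℝ), (y + s • ev b - z) a = (y - z) a := by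
    intro y z s
    simp [ev_apply, hab]
  have eb : ∀ (y z : E n) (s : ℝ), (y + s • ev b - z) b = (y - z) b + s := by
    intro y z s
    simp [ev_apply]
    ring
  refine ⟨G, g1, ?_, fun y => ?_, fun y => ?_, fun q hq y ha hb => ?_⟩
  · refine LipschitzWith.of_le_add_mul 2 fun y y' => ?_
    have := g2 y y' (-(2 * dist y y')) fun z _ => by
      have e := hl (y - z) (y' - z)
      rw [dist_sub_right] at e
      linarith [(abs_le.1 e).2]
    push_cast
    linarith
  · have e1 := g3 y 0 fun z _ => (f0 _ _).1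
    have e2 := g4 y ε fun z _ => (f0 _ _).2.trans (by linarith)
    rw [abs_of_nonneg e1]
    exact e2
  · refine le_fderiv g1 hδ4 fun s hs _ => g2 _ _ _ fun z _ => ?_
    rw [ea, eb, zero_mul, sub_nonneg]
    exact fm _ _ _ (by linarith)
  · refine le_fderiv g1 hδ4 fun s hs hs' => g2 _ _ _ fun z hz => ?_
    have za := abs_le.1 ((abs_coord z a).trans hz.le)
    have zb := abs_le.1 ((abs_coord z b).trans hz.le)
    have ya := abs_le.1 ha
    have yb := abs_le.1 hb
    rw [ea, eb, one_mul]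
    have := fq q hq ((y - z) a) ((y - z) b) ((y - z) b + s)
      (by rw [PiLp.sub_apply, abs_le]; constructor <;> linarith)
      (by rw [PiLp.sub_apply]; linarith) (by linarith) (by rw [PiLp.sub_apply]; linarith)
    linarith

end ACPx

theorem p_ACP (h1 : S_DIL) (h2 : S_QUE) (h3 : S_CNT) (h4 : S_MOL) : S_ACP := by
  classical
  intro k Z hZ h0 ε hε
  obtain ⟨δ, j, P, hδ, hP, hj, hc⟩ := h3 Z hZ h0 (ε / 5) (by positivity)
  obtain ⟨P1, P2, hcov, hH, hV⟩ := h1 j j P hP
  have h01 : (0 : Fin (k + 2)) ≠ 1 := by simp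
  obtain ⟨F, F1, F2, F3, F4, F5⟩ := ACPx.one_dir h2 h4 h01 P2 j hδ hj hV
  obtain ⟨G, G1, G2, G3, G4, G5⟩ := ACPx.one_dir h2 h4 h01.symm (P1.image Prod.swap) j hδ hj (by
    intro C hC hv
    rw [← Finset.card_image_of_injective C Prod.swap_injective]
    refine hH _ (fun x hx => ?_) ?_
    · obtain ⟨u, hu, rfl⟩ := Finset.mem_image.1 hx
      obtain ⟨w, hw, rfl⟩ := Finset.mem_image.1 (hC hu)
      exact hw
    · intro x hx y hy hxy
      obtain ⟨u, hu, rfl⟩ := Finset.mem_image.1 hx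
      obtain ⟨w, hw, rfl⟩ := Finset.mem_image.1 hy
      exact hv u hu w hw fun e => hxy (by rw [e]))
  refine ⟨F, G, F1, G1, F2, G2, fun y => ⟨F3 y, G3 y⟩, fun y hy => ?_⟩
  obtain ⟨q, hq, q0, q1⟩ := hc _ hy
  have e0 : pr y 0 = y 0 := rfl
  have e1 : pr y 1 = y 1 := rfl
  rw [e0] at q0
  rw [e1] at q1
  rcases hcov q hq with h | h
  · linarith [F4 y, G5 q.swap (Finset.mem_image_of_mem _ h) y q1 q0]
  · linarith [G4 y, F5 q h y q0 q1]

end Pool.Agent.P.MP_9aa8f2_an.WS

namespace Pool.Agent.P.MP_9aa8f2_an.WS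

open MeasureTheory Filter Topology Set
open scoped RealInnerProductSpace

namespace GSTRx

theorem pr_cont {k : ℕ} : Continuous (pr : E (k + 2) → E 2) := by
  unfold pr
  refine (PiLp.continuous_toLp 2 _).comp (continuous_pi fun i => ?_)
  fin_cases i <;> simp <;> fun_prop

theorem pr_norm {k : ℕ} (y : E (k + 2)) : ‖pr y‖ ≤ ‖y‖ := by
  rw [EuclideanSpace.norm_eq, EuclideanSpace.norm_eq]
  refine Real.sqrt_le_sqrt ?_
  rw [Fin.sum_univ_two, Fin.sum_univ_succ, Fin.sum_univ_succ]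
  have : 0 ≤ ∑ i : Fin k, ‖y i.succ.succ‖ ^ 2 := Finset.sum_nonneg fun _ _ => sq_nonneg _
  simp only [pr, Fin.succ_zero_eq_one] at this ⊢
  simp only [Matrix.cons_val_zero, Matrix.cons_val_one, Matrix.cons_val_fin_one]
  linarith

theorem null_mk {n : ℕ} {α : Type} [MetricSpace α] {ι : α → E n} (hι : Isometry ι) (p : α)
    {F : ℕ → E n → ℝ} (hL : ∀ k, LipschitzWith 2 (F k))
    (hb : ∀ (k : ℕ) y, |F k y| ≤ 1 / ((k : ℝ) + 1)) : Null fun k => resL hι p (mk0 (F k)) := by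
  refine ⟨⟨2, fun k => (ln_resL hι p _).trans (by simpa using ln_mk0 (hL k))⟩, fun a => ?_⟩
  have h := tendsto_one_div_add_atTop_nhds_zero_nat (𝕜 := ℝ)
  refine squeeze_zero_norm (fun k => ?_) (by simpa only [add_zero] using h.add h)
  rw [resL_apply, mk0_apply ⟨_, hL k⟩, mk0_apply ⟨_, hL k⟩, sub_sub_sub_cancel_right]
  exact (abs_sub _ _).trans (add_le_add (hb k _) (hb k _))

theorem fd {n : ℕ} {f g : Lip0 (0 : E n)} (hf : ContDiff ℝ 1 f.1) (hg : ContDiff ℝ 1 g.1)
    (a b : ℝ) : ContDiff ℝ 1 (a • f + b • g).1 ∧ ∀ y v,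
      fderiv ℝ (a • f + b • g).1 y v = a * fderiv ℝ f.1 y v + b * fderiv ℝ g.1 y v := by
  refine ⟨(hf.const_smul a).add (hg.const_smul b), fun y v => ?_⟩
  have h1 := (hf.differentiable one_ne_zero y).hasFDerivAt.const_smul a
  have h2 := (hg.differentiable one_ne_zero y).hasFDerivAt.const_smul b
  exact DFunLike.congr_fun (h1.add h2).fderiv v

end GSTRx

open GSTRx in
theorem p_GSTR (h1 : S_ACP) (h2 : S_MZL) : S_GSTR := by
  intro k α _ ι hι p A hA h0 R
  choose F G cF cG lF lG hb hd using fun m : ℕ =>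
    h1 k (closure (pr '' range ι) ∩ Metric.closedBall 0 R)
      ((isCompact_closedBall 0 R).inter_left isClosed_closure)
      (measure_mono_null inter_subset_left h0) (1 / ((m : ℝ) + 1)) (by positivity)
  have nF := null_mk hι p lF fun m y => (hb m y).1
  have nG := null_mk hι p lG fun m y => (hb m y).2
  let sel : Bool → Lip0 (0 : E (k + 2)) × Lip0 (0 : E (k + 2)) →ₗ[ℝ] Lip0 (0 : E (k + 2)) :=
    fun b => cond b (LinearMap.fst _ _ _) (LinearMap.snd _ _ _)
  obtain ⟨t', ht, hae⟩ := h2 (k + 2) _ (Bool × Fin (k + 2) × Finset (ℕ × ℕ) × ℕ)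
    (fun i => A ∘ₗ mulL hι (tent_cut i.2.2.1 i.2.2.2) p ∘ₗ resL hι p ∘ₗ sel i.1)
    (fun i => ev i.2.1) (fun m => (mk0 (F m), mk0 (G m)))
    (by
      rintro ⟨_ | _, j, s, r⟩
      · exact hA _ (nG.mul hι (tent_cut s r))
      · exact hA _ (nF.mul hι (tent_cut s r)))
  have a1 := Null.hull (resL hι p ∘ₗ sel true) (t := fun m => (mk0 (F m), mk0 (G m))) nF ht
  have a2 := Null.hull (resL hι p ∘ₗ sel false) (t := fun m => (mk0 (F m), mk0 (G m))) nG ht
  refine hae.mono fun x hx => ⟨fun m => (t' m).1, fun m => (t' m).2, fun m => ?_, a1, a2,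
    fun j s r => ⟨hx (true, j, s, r), hx (false, j, s, r)⟩⟩
  refine convexHull_min (t := {v : Lip0 (0 : E (k + 2)) × Lip0 (0 : E (k + 2)) |
    ContDiff ℝ 1 v.1.1 ∧ ContDiff ℝ 1 v.2.1 ∧ ∀ y ∈ closure (range ι), ‖y‖ ≤ R →
      1 ≤ fderiv ℝ v.1.1 y (ev 1) + fderiv ℝ v.2.1 y (ev 0)}) ?_ ?_ (ht m)
  · rintro _ ⟨i, -, rfl⟩
    have eF : (mk0 (F i)).1 = fun y => F i y - F i 0 := funext (mk0_apply ⟨_, lF i⟩)
    have eG : (mk0 (G i)).1 = fun y => G i y - G i 0 := funext (mk0_apply ⟨_, lG i⟩)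
    change ContDiff ℝ 1 (mk0 (F i)).1 ∧ ContDiff ℝ 1 (mk0 (G i)).1 ∧ ∀ y ∈ closure (range ι),
      ‖y‖ ≤ R → 1 ≤ fderiv ℝ (mk0 (F i)).1 y (ev 1) + fderiv ℝ (mk0 (G i)).1 y (ev 0)
    rw [eF, eG]
    refine ⟨(cF i).sub contDiff_const, (cG i).sub contDiff_const, fun y hy hR => ?_⟩
    rw [fderiv_sub_const, fderiv_sub_const]
    exact hd i y ⟨image_closure_subset_closure_image pr_cont ⟨y, hy, rfl⟩,
      mem_closedBall_zero_iff.2 ((pr_norm y).trans hR)⟩
  · rintro u ⟨u1, u2, u3⟩ v ⟨v1, v2, v3⟩ a b ha hb hab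
    refine ⟨(fd u1 v1 a b).1, (fd u2 v2 a b).1, fun y hy hR => ?_⟩
    have e1 := (fd u1 v1 a b).2 y (ev 1)
    have e2 := (fd u2 v2 a b).2 y (ev 0)
    have p1 := mul_le_mul_of_nonneg_left (u3 y hy hR) ha
    have p2 := mul_le_mul_of_nonneg_left (v3 y hy hR) hb
    change 1 ≤ fderiv ℝ (a • u.1 + b • v.1).1 y (ev 1) + fderiv ℝ (a • u.2 + b • v.2).1 y (ev 0)
    linarith

end Pool.Agent.P.MP_9aa8f2_an.WS

namespace Pool.Agent.P.MP_9aa8f2_an.WS

open MeasureTheory Filter Topology Set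
open scoped RealInnerProductSpace

namespace PORx

theorem ratio {M : Set (E 2)} {l r : ℝ} (hl : 0 < l) (hr : 0 < r) {x z : E 2}
    (h : Metric.closedBall z (l * r) ⊆ Metric.closedBall x r \ M) :
    volume (closure M ∩ Metric.closedBall x r) / volume (Metric.closedBall x r) +
      ENNReal.ofReal (l ^ Module.finrank ℝ (E 2)) ≤ 1 := by
  have b0 : volume (Metric.closedBall x r) ≠ 0 := (Metric.measure_closedBall_pos _ _ hr).ne'
  have b1 : volume (Metric.closedBall x r) ≠ ⊤ := measure_closedBall_lt_top.ne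
  have sub : Metric.ball z (l * r) ⊆ Metric.closedBall x r \ M :=
    Metric.ball_subset_closedBall.trans h
  have dj : Disjoint (closure M ∩ Metric.closedBall x r) (Metric.ball z (l * r)) :=
    (Disjoint.closure_left (disjoint_left.2 fun y hy hy' => (sub hy').2 hy)
      Metric.isOpen_ball).mono_left inter_subset_left
  have e : volume (Metric.ball z (l * r)) =
      ENNReal.ofReal (l ^ Module.finrank ℝ (E 2)) * volume (Metric.closedBall x r) := by
    rw [Measure.addHaar_ball_mul_of_pos _ _ hl, Measure.addHaar_closedBall_eq_addHaar_ball,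
      Measure.addHaar_ball_center _ x]
  have le := measure_mono (μ := volume)
    (union_subset (inter_subset_right (s := closure M)) (sub.trans sdiff_subset))
  rw [measure_union dj measurableSet_ball, e] at le
  rw [← ENNReal.mul_div_cancel_right (a := ENNReal.ofReal _) b0 b1, ENNReal.div_add_div_same]
  exact ENNReal.div_le_of_le_mul (by rwa [one_mul])

end PORx

theorem p_POR : S_POR := by
  rintro M ⟨l, hl, h⟩
  have key : ∀ x : E 2, ¬ Tendsto (fun r => volume (closure M ∩ Metric.closedBall x r) /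
      volume (Metric.closedBall x r)) (𝓝[>] 0) (𝓝 1) := by
    intro x hx
    have le := le_of_tendsto (hx.add_const (ENNReal.ofReal (l ^ Module.finrank ℝ (E 2))))
      (eventually_mem_nhdsWithin.mono fun r hr => by
        obtain ⟨z, hz⟩ := h x r hr
        exact PORx.ratio hl hr hz)
    exact absurd le (not_le.2 (ENNReal.lt_add_right ENNReal.one_ne_top
      (ENNReal.ofReal_pos.2 (pow_pos hl _)).ne'))
  have a := (Besicovitch.ae_tendsto_measure_inter_div volume (closure M)).mono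
    fun x hx => key x hx
  rwa [eventually_false_iff_eq_bot, ae_eq_bot, Measure.restrict_eq_zero] at a

end Pool.Agent.P.MP_9aa8f2_an.WS
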