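import Pool.Agent.P.MP_9aa8f2_an.WB.B1
import Pool.Agent.P.MP_9aa8f2_an.WB.B2
import Pool.Agent.P.MP_9aa8f2_an.WB.B3
import Pool.Agent.P.MP_9aa8f2_an.WB.B4

namespace Pool.Agent.P.MP_9aa8f2_an.WS

open MeasureTheory Filter Topology Set
open scoped RealInnerProductSpace

namespace RKx

variable {n : ℕ}

/-- Bounded and measurable. -/
def Bm (f : E n → ℝ) : Prop := Measurable f ∧ ∃ C, ∀ y, |f y| ≤ C

theorem Bm.const (c : ℝ) : Bm fun _ : E n => c := ⟨measurable_const, |c|, fun _ => le_rfl⟩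

theorem Bm.mul {f g : E n → ℝ} (hf : Bm f) (hg : Bm g) : Bm fun y => f y * g y := by
  obtain ⟨h1, C, hC⟩ := hf
  obtain ⟨h2, D, hD⟩ := hg
  refine ⟨h1.mul h2, C * D, fun y => ?_⟩
  rw [abs_mul]
  exact mul_le_mul (hC y) (hD y) (abs_nonneg _) ((abs_nonneg _).trans (hC y))

theorem Bm.add {f g : E n → ℝ} (hf : Bm f) (hg : Bm g) : Bm fun y => f y + g y :=
  (BM n).add_mem hf hg

theorem Bm.abs {f : E n → ℝ} (hf : Bm f) : Bm fun y => |f y| := by
  obtain ⟨h1, C, hC⟩ := hf
  exact ⟨continuous_abs.measurable.comp h1, C, fun y => by rw [abs_abs]; exact hC y⟩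

theorem Bm.sum {J : Type} (s : Finset J) {f : J → E n → ℝ} (hf : ∀ j, Bm (f j)) :
    Bm fun y => ∑ j ∈ s, f j y := by
  classical
  induction s using Finset.induction_on with
  | empty => simpa using Bm.const 0
  | insert a s ha ih => simpa only [Finset.sum_insert ha] using (hf a).add ih

theorem Bm.prod {J : Type} (s : Finset J) {f : J → E n → ℝ} (hf : ∀ j, Bm (f j)) :
    Bm fun y => ∏ j ∈ s, f j y := by
  classical
  induction s using Finset.induction_on with
  | empty => simpa using Bm.const 1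
  | insert a s ha ih => simpa only [Finset.prod_insert ha] using (hf a).mul ih

theorem Bm.det {m : ℕ} {M : E n → Matrix (Fin m) (Fin m) ℝ} (h : ∀ i j, Bm fun y => M y i j) :
    Bm fun y => (M y).det := by
  simp only [Matrix.det_apply']
  exact Bm.sum _ fun σ => (Bm.const _).mul (Bm.prod _ fun i => h _ _)

theorem Bm.adj {m : ℕ} {M : E n → Matrix (Fin m) (Fin m) ℝ} (h : ∀ i j, Bm fun y => M y i j)
    (a b : Fin m) : Bm fun y => (M y).adjugate a b := by
  simp only [Matrix.adjugate_apply]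
  refine Bm.det fun i j => ?_
  simp only [Matrix.updateRow_apply]
  by_cases hi : i = b
  · simp only [if_pos hi]
    exact Bm.const _
  · simp only [if_neg hi]
    exact h i j

theorem Bm.int {f : E n → ℝ} (hf : Bm f) (ν : Measure (E n)) [IsFiniteMeasure ν] :
    Integrable f ν := BM.integrable ⟨f, hf⟩ ν

theorem bm_d (F : Lip0 (0 : E n)) (l : Fin n) : Bm fun y => fderiv ℝ F.1 y (ev l) :=
  ⟨measurable_fderiv_apply_const ℝ F.1 _, _, fun y => fderiv_le_ln F y _⟩

variable {α : Type} [MetricSpace α] {ι : α → E n} {hι : Isometry ι} {p : α} {J : Type}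
  {β : J → Lip0 p →ₗ[ℝ] ℝ}

theorem bm_V (D : Der hι β) (j : J) (l : Fin n) : Bm (D.V j l) := ⟨D.Vm j l, 1, D.Vb j l⟩

theorem lam0 (h : S_DYN) (D : Der hι β) {g : ℕ → Lip0 p} (hg : Null g) (j : J)
    (ht : ∀ s r, Tendsto (fun k => β j (mulL hι (tent_cut s r) p (g k))) atTop (𝓝 0)) (ψ : BM n) :
    Tendsto (fun k => D.Λ j ψ (g k)) atTop (𝓝 0) := by
  have := D.fin
  obtain ⟨L, hL⟩ := hg.1
  refine h n D.ν (fun k => (D.Λ j).flip (g k)) L (fun k φ => ?_) (fun s r => ?_) ψ
  · exact (D.bd j φ (g k)).trans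
      (mul_le_mul_of_nonneg_right (hL k) (integral_nonneg fun _ => abs_nonneg _))
  · have := (ht s r).sub (D.cut j _ (tent_cut s r) g hg)
    simpa using this

theorem sumsm [Fintype J] (D : Der hι β) (ψ : J → BM n) (F : Lip0 (0 : E n))
    (hF : ContDiff ℝ 1 F.1) : ∑ j, D.Λ j (ψ j) (resL hι p F) =
      ∫ y, ∑ l, (∑ j, (ψ j).1 y * D.V j l y) * fderiv ℝ F.1 y (ev l) ∂D.ν := by
  have := D.fin
  simp only [D.sm _ _ F hF]
  rw [← integral_finsetSum _ fun j _ =>
    (Bm.mul (ψ j).2 (Bm.sum _ fun l => (bm_V D j l).mul (bm_d F l))).int D.ν]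
  refine integral_congr_ae (Eventually.of_forall fun y => ?_)
  simp only [Finset.mul_sum, Finset.sum_mul, mul_assoc]
  exact Finset.sum_comm

theorem col (h : S_DYN) {β : Fin n → Lip0 p →ₗ[ℝ] ℝ} (D : Der hι β) {w : E n → ℝ} (hw : Bm w)
    (a : Fin n) {F : ℕ → Lip0 (0 : E n)} (hF : ∀ k, ContDiff ℝ 1 (F k).1)
    (hN : Null fun k => resL hι p (F k))
    (ht : ∀ j s r, Tendsto (fun k => β j (mulL hι (tent_cut s r) p (resL hι p (F k)))) atTop
      (𝓝 0)) :
    Tendsto (fun k => ∫ y, w y * (Matrix.of fun j l => D.V j l y).det *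
      fderiv ℝ (F k).1 y (ev a) ∂D.ν) atTop (𝓝 0) := by
  let ψ : Fin n → BM n := fun j => ⟨fun y => w y * (Matrix.of fun j l => D.V j l y).adjugate a j,
    hw.mul (Bm.adj (fun i l => bm_V D i l) a j)⟩
  have h1 := tendsto_finsetSum Finset.univ fun j _ => lam0 h D hN j (ht j) (ψ j)
  rw [Finset.sum_const_zero] at h1
  refine h1.congr fun k => ?_
  rw [sumsm D ψ _ (hF k)]
  refine integral_congr_ae (Eventually.of_forall fun y => ?_)
  have e : ∀ l, ∑ j, (ψ j).1 y * D.V j l y =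
      if a = l then w y * (Matrix.of fun j l => D.V j l y).det else 0 := by
    intro l
    have h2 := congrFun (congrFun (Matrix.adjugate_mul (Matrix.of fun j l => D.V j l y)) a) l
    rw [Matrix.mul_apply, Matrix.smul_apply, Matrix.one_apply, smul_eq_mul] at h2
    simp only [ψ, mul_assoc, ← Finset.mul_sum]
    simp only [Matrix.of_apply] at h2
    rw [h2]
    split_ifs <;> simp
  simp only [e, ite_mul, zero_mul, Finset.sum_ite_eq, Finset.mem_univ, if_true]

end RKx

open RKx in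
theorem p_RK (h : S_DYN) : S_RK := by
  intro n α _ ι hι p J _ β D f ⟨F, hF, hN, h0, ht⟩
  have := D.fin
  have hl := fun j ψ => lam0 h D hN j (ht j) ψ
  refine ⟨fun j => ?_, fun ψ => ?_⟩
  · have h1 := ((h0 j).sub (hl j (oneB n))).sub (D.tot j _ hN)
    have h2 : Tendsto (fun _ : ℕ => -D.far j f) atTop (𝓝 0) := by
      rw [sub_zero, sub_zero] at h1
      refine h1.congr fun k => ?_
      rw [sub_sub_cancel, map_sub, D.farc j _ (CS.res hι p (hF k).2.2), zero_sub]
    exact neg_eq_zero.1 (tendsto_nhds_unique tendsto_const_nhds h2)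
  · have h1 := (tendsto_finsetSum Finset.univ fun j _ => hl j (ψ j)).add_const
      (∑ j, D.Λ j (ψ j) f)
    rw [Finset.sum_const_zero, zero_add] at h1
    refine le_of_tendsto' h1.abs fun k => ?_
    have e : ∑ j, D.Λ j (ψ j) (resL hι p (F k) - f) + ∑ j, D.Λ j (ψ j) f =
        ∑ j, D.Λ j (ψ j) (resL hι p (F k)) := by
      simp only [map_sub, Finset.sum_sub_distrib, sub_add_cancel]
    have hb : ∀ l, Bm fun y => ∑ j, (ψ j).1 y * D.V j l y := fun l =>
      Bm.sum _ fun j => Bm.mul (ψ j).2 (bm_V D j l)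
    rw [e, sumsm D ψ _ (hF k).1, ← integral_const_mul]
    refine abs_integral_le_integral_abs.trans (integral_mono
      ((Bm.sum _ fun l => (hb l).mul (bm_d (F k) l)).abs.int _)
      (((Bm.const _).mul (Bm.sum _ fun l => (hb l).abs)).int _) fun y => ?_)
    refine (Finset.abs_sum_le_sum_abs _ _).trans ?_
    rw [Finset.mul_sum]
    refine Finset.sum_le_sum fun l _ => ?_
    rw [abs_mul, mul_comm]
    refine mul_le_mul_of_nonneg_right ((fderiv_le_ln _ _ _).trans ?_) (abs_nonneg _)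
    rw [norm_ev, mul_one]
    exact (hF k).2.1

open RKx in
theorem p_SING (h : S_DYN) : S_SING := by
  intro n α _ ι hι p β D a b hS
  have := D.fin
  have hd : Bm fun y => (Matrix.of fun j l => D.V j l y).det := Bm.det fun i l => bm_V D i l
  have key : ∀ R : ℕ, ∀ᵐ y ∂D.ν, ‖y‖ ≤ R → (Matrix.of fun j l => D.V j l y).det = 0 := by
    intro R
    obtain ⟨F, G, hF, hN, hN', ht⟩ := hS R
    have hi : Bm fun y : E n => if ‖y‖ ≤ R then (1 : ℝ) else 0 :=
      ⟨Measurable.ite (measurableSet_le measurable_norm measurable_const) measurable_const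
        measurable_const, 1, fun y => by beta_reduce; split_ifs <;> simp⟩
    have hw := hi.mul hd
    have h1 := (col h D hw a (fun k => (hF k).1) hN fun j s r => (ht j s r).1).add
      (col h D hw b (fun k => (hF k).2.1) hN' fun j s r => (ht j s r).2)
    rw [add_zero] at h1
    have hnn : ∀ y : E n, 0 ≤ (if ‖y‖ ≤ R then (1 : ℝ) else 0) *
        (Matrix.of fun j l => D.V j l y).det * (Matrix.of fun j l => D.V j l y).det := by
      intro y
      rw [mul_assoc]
      exact mul_nonneg (by split_ifs <;> norm_num) (mul_self_nonneg _)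
    have h2 : ∫ y, (if ‖y‖ ≤ R then (1 : ℝ) else 0) * (Matrix.of fun j l => D.V j l y).det *
        (Matrix.of fun j l => D.V j l y).det ∂D.ν ≤ 0 := by
      refine ge_of_tendsto' h1 fun k => ?_
      rw [← integral_add (((hw.mul hd).mul (bm_d _ _)).int _) (((hw.mul hd).mul (bm_d _ _)).int _)]
      refine integral_mono_ae ((hw.mul hd).int _)
        ((((hw.mul hd).mul (bm_d _ _)).add ((hw.mul hd).mul (bm_d _ _))).int _) ?_
      filter_upwards [D.supp] with y hy
      rw [← mul_add]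
      by_cases hR : ‖y‖ ≤ R
      · exact le_mul_of_one_le_right (hnn y) ((hF k).2.2 y hy hR)
      · simp [hR]
    have h3 := (integral_eq_zero_iff_of_nonneg hnn ((hw.mul hd).int _)).1
      (le_antisymm h2 (integral_nonneg hnn))
    filter_upwards [h3] with y hy hR
    simpa [hR] using hy
  filter_upwards [ae_all_iff.2 key] with y hy
  obtain ⟨R, hR⟩ := exists_nat_ge ‖y‖
  exact hy R hR

end Pool.Agent.P.MP_9aa8f2_an.WS

namespace Pool.Agent.P.MP_9aa8f2_an.WS

open MeasureTheory Filter Topology Set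
open scoped RealInnerProductSpace

namespace KERx

variable {m : ℕ}

/-- The vector `w` is nonzero and nearly in the left kernel of `M` if `M` is singular. -/
def Good (ε : ℝ) (M : Fin m → Fin m → ℝ) (w : Fin m → ℝ) : Prop :=
  0 < ∑ a, w a ^ 2 ∧ ((Matrix.of M).det = 0 →
    ∀ i, ∑ l, |∑ j, w i * w j * M j l| < ε * ∑ a, w a ^ 2)

theorem good_open (ε : ℝ) (M : Fin m → Fin m → ℝ) : IsOpen {w | Good ε M w} := by
  have h0 : IsOpen {w : Fin m → ℝ | 0 < ∑ a, w a ^ 2} := isOpen_lt continuous_const (by fun_prop)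
  have h1 : IsOpen {w : Fin m → ℝ | (Matrix.of M).det = 0 →
      ∀ i, ∑ l, |∑ j, w i * w j * M j l| < ε * ∑ a, w a ^ 2} := by
    by_cases h : (Matrix.of M).det = 0
    · simp only [h, forall_true_left, ofPred_forall]
      exact isOpen_iInter_of_finite fun i => isOpen_lt (by fun_prop) (by fun_prop)
    · simp [h]
  exact h0.inter h1

theorem good_ex {ε : ℝ} (hε : 0 < ε) (M : Fin (m + 1) → Fin (m + 1) → ℝ) : ∃ w, Good ε M w := by
  by_cases h : (Matrix.of M).det = 0
  · obtain ⟨w, hw, h0⟩ := Matrix.exists_vecMul_eq_zero_iff.2 h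
    obtain ⟨a, ha⟩ := Function.ne_iff.1 hw
    have hp : 0 < ∑ a, w a ^ 2 :=
      Finset.sum_pos' (fun _ _ => sq_nonneg _) ⟨a, Finset.mem_univ a, sq_pos_of_ne_zero ha⟩
    refine ⟨w, hp, fun _ i => ?_⟩
    have h1 : ∀ l, ∑ j, w i * w j * M j l = 0 := fun l => by
      have h2 : ∑ j, w j * M j l = 0 := congrFun h0 l
      simp only [mul_assoc, ← Finset.mul_sum, h2, mul_zero]
    simp only [h1, abs_zero, Finset.sum_const_zero]
    positivity
  · exact ⟨fun _ => 1, by simp; positivity, fun h' => absurd h' h⟩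

theorem good_meas {X : Type} [MeasurableSpace X] (ε : ℝ) {V : Fin m → Fin m → X → ℝ}
    (hV : ∀ j l, Measurable (V j l)) (w : Fin m → ℝ) :
    MeasurableSet {y | Good ε (fun j l => V j l y) w} := by
  have hd : Measurable fun y => (Matrix.of fun j l => V j l y).det := by
    simp only [Matrix.det_apply', Matrix.of_apply]
    exact Finset.measurable_sum _ fun σ _ =>
      (Finset.measurable_prod _ fun i _ => hV _ _).const_mul _
  refine measurableSet_setOfPred.2 (measurable_const.and (Measurable.imp ?_ ?_))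
  · exact measurableSet_setOfPred.1 (measurableSet_eq_fun hd measurable_const)
  · refine Measurable.forall fun i =>
      measurableSet_setOfPred.1 (measurableSet_lt ?_ measurable_const)
    exact Finset.measurable_sum _ fun l _ =>
      (Finset.measurable_sum _ fun j _ => (hV j l).const_mul _).abs

theorem q_le (w : Fin m → ℝ) (i j : Fin m) : |w i * w j / ∑ a, w a ^ 2| ≤ 1 := by
  have h : ∀ i, w i ^ 2 ≤ ∑ a, w a ^ 2 := fun i =>
    Finset.single_le_sum (f := fun a => w a ^ 2) (fun _ _ => sq_nonneg _) (Finset.mem_univ i)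
  have h0 : 0 ≤ ∑ a, w a ^ 2 := (sq_nonneg _).trans (h i)
  rw [abs_div, abs_of_nonneg h0]
  refine div_le_one_of_le₀ (abs_le.2 ⟨?_, ?_⟩) h0
  · nlinarith [h i, h j, sq_nonneg (w i + w j)]
  · nlinarith [h i, h j, sq_nonneg (w i - w j)]

/-- A smooth bump with centre `c`. -/
noncomputable def cb {n : ℕ} (c : E n) (r : ℕ) : ContDiffBump c :=
  ⟨1 / ((r : ℝ) + 1), 2 * (1 / ((r : ℝ) + 1)), by positivity, by
    have : (0 : ℝ) < 1 / ((r : ℝ) + 1) := by positivity
    linarith⟩

theorem bump_ex {n : ℕ} (c : E n) (r : ℕ) : ∃ Z : Bump n, Z.f = cb c r := by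
  have h1 : ContDiff ℝ 1 (cb c r) := (cb c r).contDiff
  obtain ⟨K, hK⟩ := h1.lipschitzWith_of_hasCompactSupport (cb c r).hasCompactSupport one_ne_zero
  refine ⟨⟨cb c r, K, (cb c r).rOut + ‖c‖, h1, hK, fun y => ?_, fun y hy => ?_⟩, rfl⟩
  · rw [abs_of_nonneg (cb c r).nonneg]
    exact (cb c r).le_one
  · refine (cb c r).zero_of_le_dist ?_
    rw [dist_eq_norm]
    linarith [norm_sub_norm_le y c]

end KERx

open KERx TopologicalSpace

theorem p_KER : S_KER := by
  classical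
  intro n V hV _ ε hε
  have hex : ∀ y, ∃ k, Good ε (fun j l => V j l y) (denseSeq (Fin (n + 1) → ℝ) k) := fun y =>
    (denseRange_denseSeq _).exists_mem_open (good_open ε _) (good_ex hε _)
  have hm : Measurable fun y => Nat.find (hex y) := measurable_find hex fun k => good_meas ε hV _
  let w : E (n + 1) → Fin (n + 1) → ℝ := fun y => denseSeq (Fin (n + 1) → ℝ) (Nat.find (hex y))
  have hw : ∀ y, Good ε (fun j l => V j l y) (w y) := fun y => Nat.find_spec (hex y)
  refine ⟨fun i j => ⟨fun y => w y i * w y j / ∑ a, w y a ^ 2,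
    (measurable_of_countable fun k => denseSeq (Fin (n + 1) → ℝ) k i *
      denseSeq (Fin (n + 1) → ℝ) k j / ∑ a, denseSeq (Fin (n + 1) → ℝ) k a ^ 2).comp hm,
    1, fun y => q_le _ i j⟩, fun y => ?_, fun y hy i => ?_⟩
  · simp only [← Finset.sum_div, ← sq]
    exact div_self (hw y).1.ne'
  · simp only [div_mul_eq_mul_div, ← Finset.sum_div, abs_div, abs_of_pos (hw y).1]
    exact (div_le_iff₀ (hw y).1).2 ((hw y).2 hy i).le

theorem p_BMP : S_BMP := by
  intro n
  choose Z hZ using fun a : ℕ × ℕ => bump_ex (denseSeq (E n) a.1) a.2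
  refine ⟨Z, fun x => ?_⟩
  choose a ha using fun i : ℕ => (denseRange_denseSeq (E n)).exists_dist_lt x
    (show (0 : ℝ) < 1 / ((i : ℝ) + 1) by positivity)
  refine ⟨fun i => (a i, i), fun i => ?_, fun y hy => ?_⟩
  · rw [hZ]
    exact (cb _ i).one_of_mem_closedBall (ha i).le
  · have h1 : ∀ᶠ i : ℕ in atTop, 1 / ((i : ℝ) + 1) < dist y x / 3 :=
      tendsto_one_div_add_atTop_nhds_zero_nat.eventually
        (gt_mem_nhds (div_pos (dist_pos.2 hy) (by norm_num)))
    refine tendsto_const_nhds.congr' (h1.mono fun i hi => ?_)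
    simp only [hZ]
    refine ((cb _ i).zero_of_le_dist ?_).symm
    have h2 := dist_triangle y (denseSeq (E n) (a i)) x
    have h3 := ha i
    rw [dist_comm] at h3
    change 2 * (1 / ((i : ℝ) + 1)) ≤ _
    linarith

end Pool.Agent.P.MP_9aa8f2_an.WS

namespace Pool.Agent.P.MP_9aa8f2_an.WS

open MeasureTheory Filter Topology Set
open scoped RealInnerProductSpace

namespace SCAx

theorem sum_ev_mul {n : ℕ} (a : Fin n) (g : Fin n → ℝ) : ∑ l, ev a l * g l = g a := by
  simp [ev_apply]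

theorem ev_ne {n : ℕ} (a : Fin n) : ev a ≠ 0 := fun h => by
  have := norm_ev a
  rw [h, norm_zero] at this
  exact zero_ne_one this

end SCAx

open SCAx in
theorem p_SCA (h1 : S_DYN) (h2 : S_XW2) : S_SCA := by
  intro n α _ ι hι p β D B hB x ζ hζ1 hζ0 hN hT
  have _ := D.fin
  have hb : ∀ ψ j, BddF (D.Λ j ψ ∘ₗ B) := fun ψ j =>
    BddF.comp ⟨∫ y, |ψ.1 y| ∂D.ν, integral_nonneg fun _ => abs_nonneg _,
      fun f => by rw [mul_comm]; exact D.bd j ψ f⟩ hB
  choose v hv using fun ψ j => h2 n _ (hb ψ j) x ζ hζ1 hζ0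
  have key : ∀ u ∈ Pn n, ∀ q ∈ Pn n, u ≠ 0 → ⟪u, q⟫ = 0 → ∀ ψ,
      ∑ j, q j * ∑ l, u l * v ψ j l = 0 := by
    intro u hu q hq hu0 huq ψ
    refine (IL.sum (fun j => hv ψ j u) fun j => q j).unique (IL.const fun i => ?_)
    obtain ⟨L, hL⟩ := (hN u hu hu0 i).1
    have := h1 n D.ν (fun N => ∑ j, q j • (D.Λ j).flip (B (W u ⟪u, x⟫ N (ζ i))))
      (∑ j, |q j| * L) (fun k ψ => ?_) (fun s r => ?_) ψ
    · simpa only [LinearMap.sum_apply, LinearMap.smul_apply, LinearMap.flip_apply, smul_eq_mul,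
        LinearMap.comp_apply] using this
    · simp only [LinearMap.sum_apply, LinearMap.smul_apply, LinearMap.flip_apply, smul_eq_mul,
        Finset.sum_mul]
      refine (Finset.abs_sum_le_sum_abs _ _).trans (Finset.sum_le_sum fun j _ => ?_)
      rw [abs_mul, mul_assoc]
      exact mul_le_mul_of_nonneg_left ((D.bd j ψ _).trans (mul_le_mul_of_nonneg_right (hL k)
        (integral_nonneg fun _ => abs_nonneg _))) (abs_nonneg _)
    · have h3 := (hT u hu q hq hu0 huq i s r).sub (tendsto_finsetSum Finset.univ fun j _ =>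
        (D.cut j _ (tent_cut s r) _ (hN u hu hu0 i)).const_mul (q j))
      simp only [mul_zero, Finset.sum_const_zero, sub_zero] at h3
      refine h3.congr fun k => ?_
      simp only [LinearMap.sum_apply, LinearMap.smul_apply, LinearMap.flip_apply, smul_eq_mul,
        ← Finset.sum_sub_distrib]
      exact Finset.sum_congr rfl fun j _ => by ring
  have off : ∀ ψ a j, a ≠ j → v ψ j a = 0 := fun ψ a j h => by
    have := key (ev a) ⟨a, a, Or.inl rfl⟩ (ev j) ⟨j, j, Or.inl rfl⟩ (ev_ne a)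
      (by rw [inner_ev, ev_apply, if_neg h.symm]) ψ
    simpa only [sum_ev_mul] using this
  have dia : ∀ ψ a j, v ψ a a = v ψ j j := fun ψ a j => by
    by_cases h : a = j
    · rw [h]
    have := key (ev a + ev j) ⟨a, j, Or.inr (Or.inl rfl)⟩ (ev a - ev j)
      ⟨a, j, Or.inr (Or.inr rfl)⟩ (fun e => ?_) ?_ ψ
    · simp only [PiLp.add_apply, PiLp.sub_apply, add_mul, sub_mul, Finset.sum_add_distrib,
        Finset.sum_sub_distrib, sum_ev_mul, mul_add] at this
      rw [off ψ a j h, off ψ j a (Ne.symm h)] at this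
      linarith
    · have := congrArg (fun y : E n => y a) e
      simp [ev_apply, h] at this
    · simp [inner_sub_right, inner_ev, ev_apply, h, Ne.symm h]
  refine ⟨fun ψ => if h : 0 < n then v ψ ⟨0, h⟩ ⟨0, h⟩ else 0, fun ψ a j => ?_⟩
  have := hv ψ j (ev a)
  rw [sum_ev_mul] at this
  have e : (if a = j then (if h : 0 < n then v ψ ⟨0, h⟩ ⟨0, h⟩ else 0) else 0) = v ψ j a := by
    rw [dif_pos a.pos]
    split_ifs with h
    · rw [h]
      exact dia ψ _ _
    · exact (off ψ a j h).symm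
  rw [e]
  exact this

end Pool.Agent.P.MP_9aa8f2_an.WS

namespace Pool.Agent.P.MP_9aa8f2_an.WS

open MeasureTheory Filter Topology Set
open scoped RealInnerProductSpace

namespace COREx

theorem ratext (h5 : S_WF2) {n : ℕ} {γ : Lip0 (0 : E n) →ₗ[ℝ] ℝ} (hγ : BddF γ) (u : E n) (N : ℕ)
    (z : Bump n) (b : ℝ) (h : ∀ t : ℚ, |γ (W u t N z)| ≤ b) (t : ℝ) : |γ (W u t N z)| ≤ b := by
  obtain ⟨D, hD, hW⟩ := h5 n u N z
  obtain ⟨C, hC, hb⟩ := hγ
  have hl : LipschitzWith ⟨C * D, mul_nonneg hC hD⟩ fun s : ℝ => γ (W u s N z) := by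
    refine LipschitzWith.of_dist_le_mul fun s s' => ?_
    rw [Real.dist_eq, Real.dist_eq, ← map_sub]
    refine (hb _).trans ?_
    show _ ≤ C * D * |s - s'|
    rw [mul_assoc]
    exact mul_le_mul_of_nonneg_left (hW s s') hC
  exact Rat.denseRange_cast.induction_on (p := fun s : ℝ => |γ (W u s N z)| ≤ b) t
    (isClosed_le hl.continuous.abs continuous_const) h

theorem bdd_sum {α : Type} [MetricSpace α] {p : α} {J : Type} [Fintype J]
    {γ : J → Lip0 p →ₗ[ℝ] ℝ} (h : ∀ j, BddF (γ j)) : BddF (∑ j, γ j) := by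
  choose C hC hb using h
  refine ⟨∑ j, C j, Finset.sum_nonneg fun j _ => hC j, fun f => ?_⟩
  rw [LinearMap.sum_apply, Finset.sum_mul]
  exact (Finset.abs_sum_le_sum_abs _ _).trans (Finset.sum_le_sum fun j _ => hb j f)

theorem ev_mem {n : ℕ} (a : Fin n) : ev a ∈ Pn n := ⟨a, a, Or.inl rfl⟩

theorem ev_ne {n : ℕ} (a : Fin n) : ev a ≠ 0 := by
  intro h
  have := norm_ev a
  rw [h, norm_zero] at this
  exact zero_ne_one this

end COREx

open COREx in
theorem p_CORE (h1 : S_SCA) (h2 : S_RK) (h3 : S_KER) (h4 : S_WF1) (h5 : S_WF2) : S_CORE := by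
  intro n α _ ι hι p β D B hB x ζ hζ1 hζ2 hNull hTent hApx hdet hone
  obtain ⟨c, hc⟩ := h1 (n + 1) α ι hι p β D B hB x ζ hζ1 hζ2 hNull hTent
  have := D.fin
  have hfar : ∀ a N i, D.far a (B (W (ev a) ⟪ev a, x⟫ N (ζ i))) = 0 := by
    intro a N i
    have := ratext h5 ((D.farb a).comp hB) (ev a) N (ζ i) 0 (fun t => by
      rw [LinearMap.comp_apply, (h2 _ α ι hι p _ β D _ (hApx a t N i)).1 a, abs_zero]) ⟪ev a, x⟫
    exact abs_nonpos_iff.1 this
  have hc1 : c (oneB (n + 1)) = 1 := by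
    have hlim : IL (fun i N => D.Λ 0 (oneB (n + 1)) (B (W (ev 0) ⟪ev 0, x⟫ N (ζ i)))) 1 := by
      refine IL.const fun i => ?_
      have h := D.tot 0 _ (hNull (ev 0) (ev_mem 0) (ev_ne 0) i)
      have h' := (tendsto_const_nhds (x := (1 : ℝ))).sub h
      rw [sub_zero] at h'
      refine h'.congr fun N => ?_
      rw [hone, hfar]
      ring
    have := hc (oneB (n + 1)) 0 0
    rw [if_pos rfl] at this
    exact this.unique hlim
  obtain ⟨C, hC, hBb⟩ := id hB
  have hν : 0 ≤ D.ν.real univ := measureReal_nonneg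
  set M : ℝ := ((n : ℝ) + 1) * (2 * C * D.ν.real univ) with hM
  have hM0 : 0 ≤ M := by positivity
  have hε : (0 : ℝ) < 1 / (M + 1) := by positivity
  obtain ⟨Q, hQ1, hQ2⟩ := h3 n D.V D.Vm D.Vb _ hε
  have hQ : oneB (n + 1) = ∑ a, Q a a := by
    refine Subtype.ext (funext fun y => ?_)
    rw [Submodule.coe_sum, Finset.sum_apply, hQ1 y]
    rfl
  have hsum : c (oneB (n + 1)) = ∑ a, c (Q a a) := by
    have h := IL.sum (fun a => hc (Q a a) 0 0) fun _ => 1
    have h' := hc (oneB (n + 1)) 0 0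
    simp only [if_true, one_mul] at h h'
    refine h'.unique ?_
    convert h using 3 with i N
    rw [hQ, map_sum, LinearMap.sum_apply]
  have hint : ∀ a, ∫ y, ∑ l, |∑ j, (Q a j).1 y * D.V j l y| ∂D.ν ≤ D.ν.real univ * (1 / (M + 1)) := by
    intro a
    have := integral_mono_of_nonneg (μ := D.ν)
      (f := fun y => ∑ l, |∑ j, (Q a j).1 y * D.V j l y|) (g := fun _ => 1 / (M + 1))
      (Eventually.of_forall fun y => Finset.sum_nonneg fun l _ => abs_nonneg _)
      (integrable_const _) (hdet.mono fun y hy => hQ2 y hy a)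
    rwa [integral_const, smul_eq_mul] at this
  have hbd : ∀ a, |c (Q a a)| ≤ 2 * C * D.ν.real univ * (1 / (M + 1)) := by
    intro a
    have h := IL.sum (fun j => hc (Q a j) a j) fun _ => 1
    simp only [one_mul, Finset.sum_ite_eq, Finset.mem_univ, if_true] at h
    refine h.abs_le fun i => ?_
    have hev : ∀ᶠ N : ℕ in atTop, 2 * ((ζ i).K : ℝ) ≤ N :=
      tendsto_natCast_atTop_atTop.eventually_ge_atTop _
    refine hev.mono fun N hN => ?_
    have hγ : BddF (∑ j, D.Λ j (Q a j)) := bdd_sum fun j =>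
      ⟨∫ y, |(Q a j).1 y| ∂D.ν, integral_nonneg fun y => abs_nonneg _, fun f => by
        rw [mul_comm]; exact D.bd j _ f⟩
    have := ratext h5 (hγ.comp hB) (ev a) N (ζ i) (2 * C * D.ν.real univ * (1 / (M + 1)))
      (fun t => by
        rw [LinearMap.comp_apply, LinearMap.sum_apply]
        refine ((h2 _ α ι hι p _ β D _ (hApx a t N i)).2 (Q a)).trans ?_
        have hl : ln (B (W (ev a) t N (ζ i))) ≤ C * 2 := by
          refine (hBb _).trans (mul_le_mul_of_nonneg_left ?_ hC)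
          refine ((h4 _ (ev a) t (ζ i)).1 N).trans ?_
          rw [norm_ev]
          have : 2 * ((ζ i).K : ℝ) / ((N : ℝ) + 1) ≤ 1 := by
            rw [div_le_one (by positivity)]
            linarith
          linarith
        calc _ ≤ C * 2 * (D.ν.real univ * (1 / (M + 1))) :=
              mul_le_mul hl (hint a)
                (integral_nonneg fun y => Finset.sum_nonneg fun l _ => abs_nonneg _) (by positivity)
          _ = _ := by ring) ⟪ev a, x⟫
    rwa [LinearMap.comp_apply, LinearMap.sum_apply] at this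
  have hfin : (1 : ℝ) ≤ M * (1 / (M + 1)) := by
    calc (1 : ℝ) = ∑ a, c (Q a a) := by rw [← hsum, hc1]
      _ ≤ ∑ _a : Fin (n + 1), 2 * C * D.ν.real univ * (1 / (M + 1)) :=
          Finset.sum_le_sum fun a _ => (le_abs_self _).trans (hbd a)
      _ = M * (1 / (M + 1)) := by
          rw [Finset.sum_const, Finset.card_univ, Fintype.card_fin, nsmul_eq_mul, hM]
          push_cast
          ring
  rw [mul_one_div, le_div_iff₀ (by positivity)] at hfin
  linarith

end Pool.Agent.P.MP_9aa8f2_an.WS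

namespace Pool.Agent.P.MP_9aa8f2_an.WS

open MeasureTheory Filter Topology Set
open scoped RealInnerProductSpace

theorem vb_neBot (n : ℕ) : (ae (vb n)).NeBot := by
  rw [ae_neBot]
  intro h
  rw [Measure.restrict_eq_zero] at h
  exact (Metric.measure_ball_pos volume (0 : E n) one_pos).ne' h

theorem p_MAIN (hDER : S_DER) (hPT0 : S_PT0) (hSC : S_SC) (hADD : S_ADD) (hGAPX : S_GAPX)
    (hGSTR : S_GSTR) (hSING : S_SING) (hCORE : S_CORE) (hBMP : S_BMP) (hWF1 : S_WF1) : S_MAIN := by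
  intro k α _ ι p A B hι hM hA hB hw hAB
  have : SecondCountableTopology α := hι.isEmbedding.secondCountableTopology
  obtain ⟨Z, hZ⟩ := hBMP (k + 2)
  have e2 : ∀ᵐ x ∂vb (k + 2), ∀ u ∈ Pn (k + 2), u ≠ 0 → ∀ ζ : Bump (k + 2),
      Null fun N => B (W u ⟪u, x⟫ N ζ) := by
    rw [ae_ball_iff Pn_countable]
    intro u _
    by_cases hu : u = 0
    · exact Eventually.of_forall fun x h => absurd hu h
    · exact (ae_restrict_of_ae (hPT0 _ α p B hB u hu)).mono fun x hx _ => hx
  have e6 : ∀ᵐ x ∂vb (k + 2), ∀ u ∈ Pn (k + 2), ∀ q ∈ Pn (k + 2), u ≠ 0 → ⟪u, q⟫ = 0 →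
      ∀ c s r, Tendsto (fun N => ∑ j, q j * bx A x j
        (mulL hι (tent_cut s r) p (B (W u ⟪u, x⟫ N (Z c))))) atTop (𝓝 0) := by
    rw [ae_ball_iff Pn_countable]
    intro u _
    rw [ae_ball_iff Pn_countable]
    intro q _
    by_cases hu : u = 0
    · exact Eventually.of_forall fun x h => absurd hu h
    by_cases hq : ⟪u, q⟫ = 0
    swap
    · exact Eventually.of_forall fun x _ h => absurd h hq
    have : ∀ᵐ x ∂vb (k + 2), ∀ c s r, Tendsto (fun N => ∑ j, q j * bx A x j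
        (mulL hι (tent_cut s r) p (B (W u ⟪u, x⟫ N (Z c))))) atTop (𝓝 0) := by
      simp only [ae_all_iff]
      intro c s r
      have hU : BddO (A ∘ₗ mulL hι (tent_cut s r) p ∘ₗ B) :=
        hA.comp ((mulL_bdd hι _ p).comp hB)
      filter_upwards [hSC _ _ hU u q (Z c) hu hq, ae_restrict_of_ae (hADD _ _ hU u (Z c))]
        with x h1 h2
      exact h1.congr fun N => h2 N _ q
    exact this.mono fun x hx _ _ => hx
  have e4 : ∀ᵐ x ∂vb (k + 2), ∀ a (t : ℚ) N c, Apx hι (bx A x) (B (W (ev a) t N (Z c))) := by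
    simp only [ae_all_iff]
    intro a t N c
    exact hGAPX _ α ι hι p A hw _
  have e5 : ∀ᵐ x ∂vb (k + 2), ∀ R : ℕ, Str hι (bx A x) 1 0 R := by
    simp only [ae_all_iff]
    intro R
    exact hGSTR k α ι hι p A hw hM R
  have := vb_neBot (k + 2)
  obtain ⟨x, h2, h6, h4, h5⟩ := (e2.and (e6.and (e4.and e5))).exists
  obtain ⟨a, ha1, ha2⟩ := hZ x
  obtain ⟨D⟩ := hDER _ α ι hι p (Fin (k + 2)) (bx A x) fun j => (lam_bdd x (ev j)).comp hA
  refine hCORE (k + 1) α ι hι p (bx A x) D B hB x (fun i => Z (a i)) ha1 ha2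
    (fun u hu h i => h2 u hu h _) (fun u hu q hq h h' i => h6 u hu q hq h h' _)
    (fun b t N i => h4 b t N _) (hSING _ α ι hι p _ D 1 0 h5) fun b N i => ?_
  show lam x (ev b) (A (B _)) = 1
  rw [hAB, (hWF1 _ (ev b) _ (Z (a i))).2.2.2.2.2 N x (ev b) rfl (ha1 i), real_inner_self_eq_norm_sq,
    norm_ev, one_pow]

end Pool.Agent.P.MP_9aa8f2_an.WS

namespace Pool.Agent.P.MP_9aa8f2_an.WS

open MeasureTheory Filter Topology Set
open scoped RealInnerProductSpace

theorem main : S_MAIN :=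
  have hDER := p_DER p_UF p_RZ p_COND
  have hXW0 := p_XW0 hDER p_WF1
  have hPT0 := p_PT0 hXW0 p_WF1
  have hWN := p_WN p_DYN
  have hMZL := p_MZL p_MZ hWN
  p_MAIN hDER hPT0 (p_SC hXW0 hPT0 hWN p_WF1 p_WF2) (p_ADD p_WF2) (p_GAPX (p_APX p_MOL) hMZL)
    (p_GSTR (p_ACP p_DIL p_QUE p_CNT p_MOL) hMZL) (p_SING p_DYN)
    (p_CORE (p_SCA p_DYN (p_XW2 hXW0)) (p_RK p_DYN) p_KER p_WF1 p_WF2) p_BMP p_WF1

theorem bddO_of {α γ : Type} [MetricSpace α] [MetricSpace γ] {p : α} {q : γ}
    {U : Lip0 p →ₗ[ℝ] Lip0 q} (h : ∃ C : ℝ, ∀ f, lipNorm (U f : γ → ℝ) ≤ C * lipNorm (f : α → ℝ)) :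
    BddO U := by
  obtain ⟨C, hC⟩ := h
  exact ⟨max C 0, le_max_right _ _, fun f =>
    (hC f).trans (mul_le_mul_of_nonneg_right (le_max_left _ _) (ln_nonneg f))⟩

theorem no_weak_star (k : ℕ) (M : Set (E (k + 2)))
    (hM : Porous (pr '' M) ∨ volume (closure (pr '' M)) = 0) (p : M)
    (A : Lip0 p →ₗ[ℝ] Lip0 (0 : E (k + 2))) (B : Lip0 (0 : E (k + 2)) →ₗ[ℝ] Lip0 p)
    (hA : BddO A) (hB : BddO B)
    (hw : ∀ h : ℕ → Lip0 p, Null h → ∀ y, Tendsto (fun i => (A (h i)).1 y) atTop (𝓝 0)) :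
    A ∘ₗ B ≠ LinearMap.id := by
  intro h
  refine main k M Subtype.val p A B isometry_subtype_coe ?_ hA hB (fun g hg => ⟨?_, hw g hg⟩)
    fun g => LinearMap.congr_fun h g
  · rw [Subtype.range_coe]
    exact hM.elim (p_POR _) id
  · obtain ⟨C, hC, hb⟩ := hA
    obtain ⟨L, hL⟩ := hg.1
    exact ⟨C * L, fun i => (hb _).trans (mul_le_mul_of_nonneg_left (hL i) hC)⟩

end Pool.Agent.P.MP_9aa8f2_an.WS
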